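import Mathlib

/-!
# Project SMITH, block D: definitions

`Om / K` is a field extension (later: Galois, e.g. `Om = K^s`), `G = Om ≃ₐ[K] Om`.
A place of `Om` is a valuation subring `w : ValuationSubring Om`, the place of `K` below it is
`below K w = w.comap (algebraMap K Om)`.

* `dec K w`: the decomposition group (Mathlib `ValuationSubring.decompositionSubgroup`), with the
  elementwise description `mem_dec`;
* `iner K w`: the inertia group as a subgroup of `G`;
* `IsFrob K w σ`: `σ` is a Frobenius element at `w`;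
* `UnramOn K w S`: the inertia group at `w` fixes every element of the set `S`.
-/

open scoped Pointwise

namespace Pool.Agent.Lib.SmD

variable (K : Type*) {Om : Type*} [Field K] [Field Om] [Algebra K Om]

/-- The place of `K` below the place `w` of `Om`. -/
abbrev below (w : ValuationSubring Om) : ValuationSubring K := w.comap (algebraMap K Om)

/-- The decomposition group of `w` in `Gal(Om / K)`. -/
abbrev dec (w : ValuationSubring Om) : Subgroup (Om ≃ₐ[K] Om) := w.decompositionSubgroup K

/-- Number of elements of the residue field of a place (0 if infinite). -/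
noncomputable def resCard {F : Type*} [Field F] (v : ValuationSubring F) : ℕ :=
  Nat.card (IsLocalRing.ResidueField v)

theorem mem_dec {w : ValuationSubring Om} {σ : Om ≃ₐ[K] Om} :
    σ ∈ dec K w ↔ ∀ x, σ x ∈ w ↔ x ∈ w := by
  constructor
  · intro h x
    have h1 : σ • w = w := h
    constructor
    · intro hx
      rw [← h1] at hx
      obtain ⟨s, hs, hsx⟩ := (ValuationSubring.mem_smul_pointwise_iff_exists _ _ _).1 hx
      have : s = x := σ.injective hsx
      rwa [← this]
    · intro hx
      rw [← h1]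
      exact ValuationSubring.smul_mem_pointwise_smul σ x w hx
  · intro h
    change σ • w = w
    ext x
    rw [ValuationSubring.mem_smul_pointwise_iff_exists]
    constructor
    · rintro ⟨s, hs, rfl⟩
      exact (h s).2 hs
    · intro hx
      refine ⟨σ.symm x, ?_, ?_⟩
      · rw [← h, AlgEquiv.apply_symm_apply]; exact hx
      · exact AlgEquiv.apply_symm_apply σ x

/-- Automorphisms in the decomposition group preserve the relation `w x ≤ 1`. -/
theorem dec_val_le {w : ValuationSubring Om} {σ : Om ≃ₐ[K] Om} (hσ : σ ∈ dec K w) (x : Om) :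
    w.valuation (σ x) ≤ 1 ↔ w.valuation x ≤ 1 := by
  rw [ValuationSubring.valuation_le_one_iff, ValuationSubring.valuation_le_one_iff]
  exact (mem_dec K).1 hσ x

theorem dec_val_lt {w : ValuationSubring Om} {σ : Om ≃ₐ[K] Om} (hσ : σ ∈ dec K w) (x : Om) :
    w.valuation (σ x) < 1 ↔ w.valuation x < 1 := by
  rw [← ValuationSubring.mem_nonunits_iff, ← ValuationSubring.mem_nonunits_iff,
    ValuationSubring.mem_nonunits_iff_or, ValuationSubring.mem_nonunits_iff_or, ← map_inv₀,
    mem_dec K |>.1 hσ, map_eq_zero_iff _ σ.injective]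

theorem dec_val_eq {w : ValuationSubring Om} {σ : Om ≃ₐ[K] Om} (hσ : σ ∈ dec K w) (x : Om) :
    w.valuation (σ x) = 1 ↔ w.valuation x = 1 := by
  constructor
  · intro h
    refine le_antisymm ((dec_val_le K hσ x).1 h.le) (not_lt.1 fun h1 => ?_)
    exact absurd ((dec_val_lt K hσ x).2 h1) (by rw [h]; exact lt_irrefl _)
  · intro h
    refine le_antisymm ((dec_val_le K hσ x).2 h.le) (not_lt.1 fun h1 => ?_)
    exact absurd ((dec_val_lt K hσ x).1 h1) (by rw [h]; exact lt_irrefl _)

/-- The inertia group of `w` as a subgroup of `Gal(Om / K)`. -/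
def iner (w : ValuationSubring Om) : Subgroup (Om ≃ₐ[K] Om) where
  carrier := {σ | σ ∈ dec K w ∧ ∀ x ∈ w, w.valuation (σ x - x) < 1}
  one_mem' := ⟨(dec K w).one_mem, fun x _ => by
    simp⟩
  mul_mem' := by
    rintro σ τ ⟨hσ, hσ'⟩ ⟨hτ, hτ'⟩
    refine ⟨(dec K w).mul_mem hσ hτ, fun x hx => ?_⟩
    have h1 : (σ * τ) x - x = σ (τ x - x) + (σ x - x) := by
      rw [AlgEquiv.mul_apply, map_sub]; ring
    rw [h1]
    exact lt_of_le_of_lt (w.valuation.map_add _ _)
      (max_lt ((dec_val_lt K hσ _).2 (hτ' x hx)) (hσ' x hx))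
  inv_mem' := by
    rintro σ ⟨hσ, hσ'⟩
    refine ⟨(dec K w).inv_mem hσ, fun x hx => ?_⟩
    have h1 : σ⁻¹ x - x = -(σ⁻¹ (σ x - x)) := by
      rw [map_sub, ← AlgEquiv.mul_apply, inv_mul_cancel, AlgEquiv.one_apply]; ring
    rw [h1, Valuation.map_neg]
    exact (dec_val_lt K ((dec K w).inv_mem hσ) _).2 (hσ' x hx)

theorem mem_iner {w : ValuationSubring Om} {σ : Om ≃ₐ[K] Om} :
    σ ∈ iner K w ↔ σ ∈ dec K w ∧ ∀ x ∈ w, w.valuation (σ x - x) < 1 := Iff.rfl

theorem iner_le_dec (w : ValuationSubring Om) : iner K w ≤ dec K w := fun _ h => h.1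

/-- `σ` is a Frobenius element at `w` (in `Gal(Om / K)`): it lies in the decomposition group and
acts on the residue field of `w` as `x ↦ x ^ q`, `q` = cardinality of the residue field of `K`. -/
structure IsFrob (w : ValuationSubring Om) (σ : Om ≃ₐ[K] Om) : Prop where
  mem : σ ∈ dec K w
  frob : ∀ x ∈ w, w.valuation (σ x - x ^ resCard (below K w)) < 1

/-- The inertia group at `w` fixes the elements of `S` (for `S` an intermediate field: `S / K` is
unramified at the place below `w`, in the sense of inertia). -/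
def UnramOn (w : ValuationSubring Om) (S : Set Om) : Prop :=
  ∀ σ ∈ iner K w, ∀ x ∈ S, σ x = x

/-- Standing hypotheses at a place `w` of `Om`: `π` is a uniformizer of the place of `K` below
(which is discrete), the residue field of the place below is finite, `2` is a unit. -/
structure LocHyp (w : ValuationSubring Om) (π : K) : Prop where
  pi_ne : π ≠ 0
  pi_lt : w.valuation (algebraMap K Om π) < 1
  disc : ∀ x : K, x ≠ 0 → ∃ n : ℤ,
    w.valuation (algebraMap K Om x) = (w.valuation (algebraMap K Om π)) ^ n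
  fin : Finite (IsLocalRing.ResidueField (below K w))
  two : w.valuation 2 = 1

/-- The Kummer character of `f` (additive, with values in `ZMod 2`): `chi K f σ = 0` iff `σ` fixes
the square roots of `f` in `Om`. For `f = 0` it is `0`. -/
noncomputable def chi (f : K) (σ : Om ≃ₐ[K] Om) : ZMod 2 :=
  open Classical in if ∀ r : Om, r ^ 2 = algebraMap K Om f → σ r = r then 0 else 1

/-- `σ` is a tame inertia generator at `w`: it lies in the inertia group and moves the square
roots of the uniformizer `π`. -/
def IsSg (w : ValuationSubring Om) (π : K) (σ : Om ≃ₐ[K] Om) : Prop :=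
  σ ∈ iner K w ∧ chi K π σ = 1

variable {K}

/-- A function on (the subgroup `D` of) `Gal(Om / K)` which factors through a finite level. -/
def FinOn {α : Type*} (D : Subgroup (Om ≃ₐ[K] Om)) (f : (Om ≃ₐ[K] Om) → α) : Prop :=
  ∃ L : IntermediateField K Om, FiniteDimensional K L ∧
    ∀ s ∈ D, ∀ t ∈ D, (∀ x ∈ L, s x = t x) → f s = f t

/-- A function on (the subgroup `D` of) `Gal(Om / K)` which factors through a finite Galois
extension of degree a power of `2`. -/
def TwoFinOn {α : Type*} (D : Subgroup (Om ≃ₐ[K] Om)) (f : (Om ≃ₐ[K] Om) → α) : Prop :=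
  ∃ L : IntermediateField K Om, FiniteDimensional K L ∧ IsGalois K L ∧
    (∃ m : ℕ, Module.finrank K L = 2 ^ m) ∧
    ∀ s ∈ D, ∀ t ∈ D, (∀ x ∈ L, s x = t x) → f s = f t

theorem TwoFinOn.finOn {α : Type*} {D : Subgroup (Om ≃ₐ[K] Om)} {f : (Om ≃ₐ[K] Om) → α}
    (h : TwoFinOn D f) : FinOn D f := by
  obtain ⟨L, h1, _, _, h2⟩ := h
  exact ⟨L, h1, h2⟩

end Pool.Agent.Lib.SmD
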