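import Mathlib
import Pool.Agent.Lib.SmD.Defs

/-!
# Project SMITH, block D, module Basic

PROOFS.

`exists_period`: the orbit of `x` under the powers of `σ` lies in the finite set of roots of the
minimal polynomial of `x` in `Om` (`minpoly.aeval`, `AlgEquiv` commutes with `aeval`), so
`σ ^ i x = σ ^ j x` for some `i < j`; apply `σ ^ (-i)`.

`dec_val_inv`. `x = 0` trivial. Put `u = σ x / x`, `n ≥ 1` with `σ ^ n x = x`. Then
`∏_{i < n} σ ^ i u = 1` (telescoping: `∏ = σ ^ n x / x`). If `w u < 1` then `w (σ ^ i u) < 1` for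
all `i` (`dec_val_lt`), so the product has valuation `< 1`; contradiction. If `w u > 1` apply the
same to `u⁻¹`. So `w u = 1`.

`iner_conj`. For `x ∈ w`: `σ τ σ⁻¹ x - x = σ (τ (σ⁻¹ x) - σ⁻¹ x)`, `σ⁻¹ x ∈ w`; use `dec_val_lt`.

`mem_dec_of_le`. If `σ x ∈ w` then, with `σ ^ n x = x`, `n ≥ 1`, `x = σ ^ (n - 1) (σ x) ∈ w`.

`isClosed_dec`, `isClosed_iner`. The Krull topology: for fixed `x : Om` (algebraic over `K`) the
map `σ ↦ σ x` is continuous to discrete `Om` (the stabilizer of `x` is open: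
`K(x)` finite dimensional; Mathlib `krullTopology...`, `IntermediateField.fixingSubgroup_isOpen`,
or `krullTopology_mem_nhds_one_iff`). `dec` is the intersection over all `x` of the sets
`{σ | σ x ∈ w ↔ x ∈ w}` and `iner` of the sets `{σ | σ x ∈ w ∧ w (σ x - x) < 1}` for `x ∈ w`, with
`dec`; each of these sets is clopen, being a preimage under `σ ↦ σ x`.

`value_torsion`. `p = minpoly K x ≠ 0`. `0 = ∑ a_i x ^ i`, let `i0` be an index with
`w (a_i x ^ i)` maximal among the support. There must be another index `j ≠ i0` in the support with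
the same valuation (otherwise `w (sum) = w (a_{i0} x ^ {i0}) ≠ 0`: `Valuation.map_add_eq_of_lt_left`
and `Valuation.map_sum_lt`). Say `i < j`: `w a_i * w x ^ i = w a_j * w x ^ j`, hence
`w x ^ (j - i) = w (a_i / a_j) = w π ^ m` for an integer `m` by `h.disc`. Take `e = j - i`.

`pow_small`. `t ^ e = ϖ ^ j`, `s ^ e' = ϖ ^ i` with `e, e' ≥ 1`, `ϖ = w π < 1`. `t < 1` gives
`j ≥ 1`, so `t ^ e ≤ ϖ`. If `s ≥ 1`: `N0 = 1`. If `s < 1`: `i ≥ 1` and `s ≥ s ^ e' = ϖ ^ i >
ϖ ^ (i + 1) ≥ t ^ (e (i + 1))`; `N0 = e (i + 1)`; larger `N` by `t < 1`.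
-/

namespace Pool.Agent.Lib.SmD

variable {K : Type*} {Om : Type*} [Field K] [Field Om] [Algebra K Om]

private theorem Basic_pow_add (σ : Om ≃ₐ[K] Om) (a b : ℕ) (x : Om) :
    (σ ^ (a + b)) x = (σ ^ a) ((σ ^ b) x) := by
  rw [pow_add, AlgEquiv.mul_apply]

theorem exists_period [Algebra.IsAlgebraic K Om] (σ : Om ≃ₐ[K] Om) (x : Om) :
    ∃ n : ℕ, 0 < n ∧ (σ ^ n) x = x := by
  classical
  have hx : IsIntegral K x := (Algebra.IsAlgebraic.isAlgebraic (R := K) x).isIntegral
  have hne : minpoly K x ≠ 0 := minpoly.ne_zero hx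
  have hmem : ∀ n : ℕ, (σ ^ n) x ∈ (minpoly K x).rootSet Om := by
    intro n
    rw [Polynomial.mem_rootSet]
    refine ⟨hne, ?_⟩
    have h1 : Polynomial.aeval ((σ ^ n) x) (minpoly K x) =
        (σ ^ n) (Polynomial.aeval x (minpoly K x)) := by
      rw [← Polynomial.aeval_algHom_apply]
    rw [h1, minpoly.aeval, map_zero]
  have hfin : ((minpoly K x).rootSet Om).Finite := Polynomial.rootSet_finite _ _
  have hninj : ¬ Function.Injective (fun n : ℕ => (σ ^ n) x) := by
    intro hinj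
    exact Set.infinite_of_injective_forall_mem hinj hmem hfin
  simp only [Function.Injective, not_forall] at hninj
  obtain ⟨a, b, hab, hne'⟩ := hninj
  rcases lt_or_gt_of_ne hne' with h | h
  · refine ⟨b - a, by omega, ?_⟩
    have h2 : (σ ^ (a + (b - a))) x = (σ ^ a) x := by
      rw [Nat.add_sub_cancel' h.le]; exact hab.symm
    rw [Basic_pow_add] at h2
    exact (σ ^ a).injective h2
  · refine ⟨a - b, by omega, ?_⟩
    have h2 : (σ ^ (b + (a - b))) x = (σ ^ b) x := by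
      rw [Nat.add_sub_cancel' h.le]; exact hab
    rw [Basic_pow_add] at h2
    exact (σ ^ b).injective h2

private theorem Basic_prod_tel (σ : Om ≃ₐ[K] Om) {x : Om} (hx : x ≠ 0) (n : ℕ) :
    ∏ i ∈ Finset.range n, (σ ^ i) (σ x / x) = (σ ^ n) x / x := by
  induction n with
  | zero => simp [hx]
  | succ n ih =>
    rw [Finset.prod_range_succ, ih, map_div₀]
    have h1 : (σ ^ n) (σ x) = (σ ^ (n + 1)) x := by
      rw [Basic_pow_add]; simp
    have h2 : (σ ^ n) x ≠ 0 := by
      intro h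
      exact hx ((σ ^ n).injective (by rw [h, map_zero]))
    rw [h1]
    field_simp

private theorem Basic_not_lt [Algebra.IsAlgebraic K Om] {w : ValuationSubring Om} {σ : Om ≃ₐ[K] Om}
    (hσ : σ ∈ dec K w) {x : Om} (hx : x ≠ 0) : ¬ w.valuation (σ x / x) < 1 := by
  intro hlt
  obtain ⟨n, hn, hnx⟩ := exists_period σ x
  have h1 := Basic_prod_tel σ hx n
  rw [hnx, div_self hx] at h1
  have h2 : w.valuation (∏ i ∈ Finset.range n, (σ ^ i) (σ x / x)) = 1 := by
    rw [h1, map_one]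
  rw [map_prod] at h2
  have h3 : ∀ i : ℕ, w.valuation ((σ ^ i) (σ x / x)) < 1 := fun i =>
    (dec_val_lt K ((dec K w).pow_mem hσ i) _).2 hlt
  have h4 : ∏ i ∈ Finset.range n, w.valuation ((σ ^ i) (σ x / x)) < 1 := by
    obtain ⟨m, rfl⟩ : ∃ m, n = m + 1 := ⟨n - 1, by omega⟩
    rw [Finset.prod_range_succ]
    refine mul_lt_one_of_nonneg_of_lt_one_right ?_ zero_le (h3 m)
    exact Finset.prod_le_one' (fun i _ => (h3 i).le)
  exact absurd h2 h4.ne

theorem dec_val_inv [Algebra.IsAlgebraic K Om] {w : ValuationSubring Om} {σ : Om ≃ₐ[K] Om}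
    (hσ : σ ∈ dec K w) (x : Om) : w.valuation (σ x) = w.valuation x := by
  by_cases hx : x = 0
  · rw [hx, map_zero]
  have hvx : w.valuation x ≠ 0 := (Valuation.ne_zero_iff _).2 hx
  have hσx : σ x ≠ 0 := by
    intro h
    exact hx (σ.injective (by rw [h, map_zero]))
  have h1 : ¬ w.valuation (σ x / x) < 1 := Basic_not_lt hσ hx
  have h2 : ¬ w.valuation (σ x⁻¹ / x⁻¹) < 1 := Basic_not_lt hσ (inv_ne_zero hx)
  rw [map_inv₀, inv_div_inv] at h2
  rw [map_div₀, not_lt] at h1 h2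
  apply le_antisymm
  · rwa [one_le_div₀ (zero_lt_iff.2 ((Valuation.ne_zero_iff _).2 hσx))] at h2
  · rwa [one_le_div₀ (zero_lt_iff.2 hvx)] at h1

theorem iner_conj {w : ValuationSubring Om} {σ τ : Om ≃ₐ[K] Om}
    (hσ : σ ∈ dec K w) (hτ : τ ∈ iner K w) : σ * τ * σ⁻¹ ∈ iner K w := by
  refine ⟨(dec K w).mul_mem ((dec K w).mul_mem hσ hτ.1) ((dec K w).inv_mem hσ), fun x hx => ?_⟩
  have h1 : (σ * τ * σ⁻¹) x - x = σ (τ (σ⁻¹ x) - σ⁻¹ x) := by
    rw [map_sub, AlgEquiv.mul_apply, AlgEquiv.mul_apply, ← AlgEquiv.mul_apply σ σ⁻¹ x,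
      mul_inv_cancel, AlgEquiv.one_apply]
  rw [h1]
  refine (dec_val_lt K hσ _).2 (hτ.2 _ ?_)
  exact ((mem_dec K).1 ((dec K w).inv_mem hσ) x).2 hx

theorem mem_dec_of_le [Algebra.IsAlgebraic K Om] {w : ValuationSubring Om} {σ : Om ≃ₐ[K] Om}
    (h : ∀ x ∈ w, σ x ∈ w) : σ ∈ dec K w := by
  rw [mem_dec]
  intro x
  refine ⟨fun hx => ?_, h x⟩
  obtain ⟨n, hn, hnx⟩ := exists_period σ x
  have h1 : ∀ m : ℕ, ∀ y ∈ w, (σ ^ m) y ∈ w := by
    intro m
    induction m with
    | zero => intro y hy; simpa using hy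
    | succ m ih =>
      intro y hy
      rw [pow_succ', AlgEquiv.mul_apply]
      exact h _ (ih y hy)
  obtain ⟨m, rfl⟩ : ∃ m, n = m + 1 := ⟨n - 1, by omega⟩
  have h2 : (σ ^ m) (σ x) = x := by
    rw [← AlgEquiv.mul_apply, ← pow_succ]; exact hnx
  rw [← h2]
  exact h1 m _ hx

private theorem Basic_cont [Algebra.IsAlgebraic K Om] (x : Om) (S : Set Om) :
    IsOpen {σ : Om ≃ₐ[K] Om | σ x ∈ S} := by
  rw [isOpen_iff_mem_nhds]
  intro σ hσ
  have hfd : FiniteDimensional K (IntermediateField.adjoin K {x}) :=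
    IntermediateField.adjoin.finiteDimensional
      (Algebra.IsAlgebraic.isAlgebraic (R := K) x).isIntegral
  have h1 : ((IntermediateField.adjoin K {x}).fixingSubgroup : Set (Om ≃ₐ[K] Om)) ∈
      nhds (1 : Om ≃ₐ[K] Om) :=
    ((IntermediateField.fixingSubgroup_isOpen _).mem_nhds (Subgroup.one_mem _))
  have h2 : {τ : Om ≃ₐ[K] Om | σ⁻¹ * τ ∈ (IntermediateField.adjoin K {x}).fixingSubgroup} ∈
      nhds σ := by
    have hc : Continuous (fun τ : Om ≃ₐ[K] Om => σ⁻¹ * τ) := continuous_const.mul continuous_id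
    refine hc.continuousAt.preimage_mem_nhds ?_
    rw [inv_mul_cancel]
    exact h1
  filter_upwards [h2] with τ hτ
  have h3 : (σ⁻¹ * τ) x = x :=
    (IntermediateField.mem_fixingSubgroup_iff _ _).1 hτ x
      (IntermediateField.mem_adjoin_simple_self K x)
  have h4 : τ x = σ x := by
    have h5 : σ ((σ⁻¹ * τ) x) = σ x := by rw [h3]
    rwa [← AlgEquiv.mul_apply, ← mul_assoc, mul_inv_cancel, one_mul] at h5
  change τ x ∈ S
  rw [h4]
  exact hσ

private theorem Basic_closed [Algebra.IsAlgebraic K Om] (x : Om) (S : Set Om) :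
    IsClosed {σ : Om ≃ₐ[K] Om | σ x ∈ S} := by
  rw [← isOpen_compl_iff]
  exact Basic_cont x Sᶜ

theorem isClosed_dec [Algebra.IsAlgebraic K Om] (w : ValuationSubring Om) :
    IsClosed (dec K w : Set (Om ≃ₐ[K] Om)) := by
  have h1 : (dec K w : Set (Om ≃ₐ[K] Om)) = ⋂ x : Om, {σ | σ x ∈ {y : Om | y ∈ w ↔ x ∈ w}} := by
    ext σ
    rw [SetLike.mem_coe, mem_dec, Set.mem_iInter]
    rfl
  rw [h1]
  exact isClosed_iInter fun x => Basic_closed x _

theorem isClosed_iner [Algebra.IsAlgebraic K Om] (w : ValuationSubring Om) :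
    IsClosed (iner K w : Set (Om ≃ₐ[K] Om)) := by
  have h1 : (iner K w : Set (Om ≃ₐ[K] Om)) = (dec K w : Set (Om ≃ₐ[K] Om)) ∩
      ⋂ x : w, {σ | σ (x : Om) ∈ {y : Om | w.valuation (y - x) < 1}} := by
    ext σ
    rw [SetLike.mem_coe, mem_iner, Set.mem_inter_iff, Set.mem_iInter, SetLike.mem_coe,
      Subtype.forall]
    rfl
  rw [h1]
  exact (isClosed_dec w).inter (isClosed_iInter fun x => Basic_closed _ _)

theorem value_torsion {w : ValuationSubring Om} {π : K} (h : LocHyp K w π) {x : Om} (hx : x ≠ 0)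
    (halg : IsAlgebraic K x) : ∃ e : ℕ, 0 < e ∧ ∃ j : ℤ,
      (w.valuation x) ^ e = (w.valuation (algebraMap K Om π)) ^ j := by
  classical
  set p := minpoly K x with hp
  have hne : p ≠ 0 := minpoly.ne_zero halg.isIntegral
  have hvx : w.valuation x ≠ 0 := (Valuation.ne_zero_iff _).2 hx
  have hsum : ∑ i ∈ p.support, algebraMap K Om (p.coeff i) * x ^ i = 0 := by
    have h1 := minpoly.aeval K x
    rw [Polynomial.aeval_eq_sum_range' (lt_add_one _)] at h1
    rw [← h1]
    refine Finset.sum_subset ?_ ?_ |>.trans (Finset.sum_congr rfl fun i _ => ?_)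
    · intro i hi
      rw [Finset.mem_range]
      exact Nat.lt_succ_of_le (Polynomial.le_natDegree_of_mem_supp i hi)
    · intro i _ hi
      rw [Polynomial.notMem_support_iff.1 hi, map_zero, zero_mul]
    · rw [Algebra.smul_def]
  have hsne : p.support.Nonempty := Polynomial.nonempty_support_iff.2 hne
  obtain ⟨i0, hi0, hmax⟩ := Finset.exists_max_image p.support
    (fun i => w.valuation (algebraMap K Om (p.coeff i) * x ^ i)) hsne
  have hterm : ∀ i ∈ p.support, w.valuation (algebraMap K Om (p.coeff i) * x ^ i) ≠ 0 := by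
    intro i hi
    rw [Valuation.ne_zero_iff]
    refine mul_ne_zero ?_ (pow_ne_zero _ hx)
    rw [map_ne_zero]
    exact Polynomial.mem_support_iff.1 hi
  obtain ⟨j, hj, hji, hjv⟩ : ∃ j ∈ p.support, j ≠ i0 ∧
      w.valuation (algebraMap K Om (p.coeff j) * x ^ j) =
        w.valuation (algebraMap K Om (p.coeff i0) * x ^ i0) := by
    by_contra hcon
    push Not at hcon
    have hlt : ∀ j ∈ p.support.erase i0, w.valuation (algebraMap K Om (p.coeff j) * x ^ j) <
        w.valuation (algebraMap K Om (p.coeff i0) * x ^ i0) := fun j hj =>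
      lt_of_le_of_ne (hmax j (Finset.mem_of_mem_erase hj))
        (hcon j (Finset.mem_of_mem_erase hj) (Finset.ne_of_mem_erase hj))
    have h2 : w.valuation (∑ j ∈ p.support.erase i0, algebraMap K Om (p.coeff j) * x ^ j) <
        w.valuation (algebraMap K Om (p.coeff i0) * x ^ i0) :=
      Valuation.map_sum_lt _ (hterm i0 hi0) hlt
    have h3 : w.valuation (∑ i ∈ p.support, algebraMap K Om (p.coeff i) * x ^ i) =
        w.valuation (algebraMap K Om (p.coeff i0) * x ^ i0) := by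
      rw [← Finset.add_sum_erase _ _ hi0]
      exact Valuation.map_add_eq_of_lt_left _ h2
    rw [hsum, map_zero] at h3
    exact hterm i0 hi0 h3.symm
  have key : ∀ a b : ℕ, a ∈ p.support → b ∈ p.support → a < b →
      w.valuation (algebraMap K Om (p.coeff a) * x ^ a) =
        w.valuation (algebraMap K Om (p.coeff b) * x ^ b) →
      ∃ e : ℕ, 0 < e ∧ ∃ j : ℤ,
        (w.valuation x) ^ e = (w.valuation (algebraMap K Om π)) ^ j := by
    intro a b ha hb hab hv
    have ha' : p.coeff a ≠ 0 := Polynomial.mem_support_iff.1 ha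
    have hb' : p.coeff b ≠ 0 := Polynomial.mem_support_iff.1 hb
    obtain ⟨n, hn⟩ := h.disc (p.coeff a / p.coeff b) (div_ne_zero ha' hb')
    refine ⟨b - a, by omega, n, ?_⟩
    rw [← hn, map_div₀, map_div₀]
    have hvb : w.valuation (algebraMap K Om (p.coeff b)) ≠ 0 := by
      rw [Valuation.ne_zero_iff, map_ne_zero]; exact hb'
    rw [eq_div_iff hvb]
    rw [map_mul, map_mul, map_pow, map_pow] at hv
    have h5 : w.valuation x ^ b = w.valuation x ^ (b - a) * w.valuation x ^ a := by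
      rw [← pow_add]; congr 1; omega
    rw [h5, ← mul_assoc] at hv
    have h6 := mul_right_cancel₀ (pow_ne_zero a hvx) hv
    rw [h6, mul_comm]
  rcases lt_or_gt_of_ne hji with hlt | hgt
  · exact key j i0 hj hi0 hlt hjv
  · exact key i0 j hi0 hj hgt hjv.symm

private theorem Basic_zpow_pos {Γ : Type*} [LinearOrderedCommGroupWithZero Γ] {p : Γ}
    (hp0 : p ≠ 0) (hp : p < 1) {j : ℤ} (hj : p ^ j < 1) : 1 ≤ j := by
  by_contra hcon
  push Not at hcon
  have hj0 : j ≤ 0 := by omega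
  obtain ⟨m, rfl⟩ := Int.exists_eq_neg_ofNat hj0
  rw [zpow_neg, zpow_natCast] at hj
  have h1 : p ^ m ≤ 1 := pow_le_one' hp.le m
  have h2 : 1 ≤ (p ^ m)⁻¹ := (one_le_inv₀ (zero_lt_iff.2 (pow_ne_zero _ hp0))).2 h1
  exact absurd hj (not_lt.2 h2)

theorem pow_small {w : ValuationSubring Om} {π : K} (h : LocHyp K w π) {x y : Om}
    (hx : w.valuation x < 1) (hy : y ≠ 0) (hxa : IsAlgebraic K x) (hya : IsAlgebraic K y) :
    ∃ N0 : ℕ, ∀ N ≥ N0, (w.valuation x) ^ N < w.valuation y := by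
  have hvy : w.valuation y ≠ 0 := (Valuation.ne_zero_iff _).2 hy
  by_cases hx0 : x = 0
  · refine ⟨1, fun N hN => ?_⟩
    rw [hx0, map_zero, zero_pow (by omega)]
    exact zero_lt_iff.2 hvy
  have hvx : w.valuation x ≠ 0 := (Valuation.ne_zero_iff _).2 hx0
  set P := w.valuation (algebraMap K Om π) with hP
  have hP0 : P ≠ 0 := by
    rw [hP, Valuation.ne_zero_iff, map_ne_zero]; exact h.pi_ne
  have hP1 : P < 1 := h.pi_lt
  obtain ⟨e, he, j, hj⟩ := value_torsion h hx0 hxa
  obtain ⟨e', he', i, hi⟩ := value_torsion h hy hya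
  rw [← hP] at hj hi
  by_cases hs : 1 ≤ w.valuation y
  · refine ⟨1, fun N hN => lt_of_lt_of_le ?_ hs⟩
    exact pow_lt_one' hx (by omega)
  · rw [not_le] at hs
    have hj1 : 1 ≤ j := by
      apply Basic_zpow_pos hP0 hP1
      rw [← hj]
      exact pow_lt_one' hx (by omega)
    have hi1 : 1 ≤ i := by
      apply Basic_zpow_pos hP0 hP1
      rw [← hi]
      exact pow_lt_one' hs (by omega)
    obtain ⟨m, hm⟩ : ∃ m : ℕ, i = m := ⟨i.toNat, by omega⟩
    obtain ⟨l, hl⟩ : ∃ l : ℕ, j = l := ⟨j.toNat, by omega⟩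
    rw [hm, zpow_natCast] at hi
    rw [hl, zpow_natCast] at hj
    have hl1 : 1 ≤ l := by omega
    have h1 : w.valuation x ^ e ≤ P := by
      rw [hj]
      calc P ^ l ≤ P ^ 1 := pow_le_pow_right_of_le_one' hP1.le hl1
        _ = P := pow_one P
    refine ⟨e * (m + 1), fun N hN => ?_⟩
    calc w.valuation x ^ N ≤ w.valuation x ^ (e * (m + 1)) :=
          pow_le_pow_right_of_le_one' hx.le hN
      _ = (w.valuation x ^ e) ^ (m + 1) := pow_mul _ _ _
      _ ≤ P ^ (m + 1) := pow_le_pow_left' h1 _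
      _ = P ^ m * P := pow_succ _ _
      _ < P ^ m * 1 := by
          exact mul_lt_mul_of_pos_left hP1 (zero_lt_iff.2 (pow_ne_zero _ hP0))
      _ = w.valuation y ^ e' := by rw [mul_one, hi]
      _ ≤ w.valuation y ^ 1 := pow_le_pow_right_of_le_one' hs.le he'
      _ = w.valuation y := pow_one _

end Pool.Agent.Lib.SmD
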