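import Mathlib
import Pool.Agent.Lib.SmD.Defs

/-!
# Project SMITH, block D, module Prim

`exists_prim`: an algebraic element is a root of a polynomial with coefficients in a given
valuation ring, one of which is `1`. `prufer`: an element of the place `w` is a quotient `z / y` of
elements integral over the place below, with `w y = 1`.
-/

open Polynomial

namespace Pool.Agent.Lib.SmD

variable (K : Type*) {Om : Type*} [Field K] [Field Om] [Algebra K Om]

theorem exists_prim (v : ValuationSubring K) {x : Om} (hx : IsAlgebraic K x) :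
    ∃ p : K[X], (∀ i, p.coeff i ∈ v) ∧ (∃ i, p.coeff i = 1) ∧ aeval x p = 0 ∧
      p.natDegree ≤ (minpoly K x).natDegree := by
  set p0 := minpoly K x with hp0
  have hne : p0 ≠ 0 := minpoly.ne_zero hx.isIntegral
  have hsupp : p0.support.Nonempty := by
    rw [Polynomial.nonempty_support_iff]; exact hne
  obtain ⟨i0, hi0, hmax⟩ := p0.support.exists_max_image (fun i => v.valuation (p0.coeff i)) hsupp
  have hc : p0.coeff i0 ≠ 0 := by simpa using hi0
  refine ⟨C (p0.coeff i0)⁻¹ * p0, fun i => ?_, ⟨i0, ?_⟩, ?_, ?_⟩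
  · rw [coeff_C_mul, ← ValuationSubring.valuation_le_one_iff, map_mul, map_inv₀]
    by_cases hi : p0.coeff i = 0
    · rw [hi]; simp
    · have h1 := hmax i (by simpa using hi)
      have h2 : (0 : v.ValueGroup) < v.valuation (p0.coeff i0) := by
        rw [zero_lt_iff]; exact (v.valuation.ne_zero_iff).2 hc
      calc (v.valuation (p0.coeff i0))⁻¹ * v.valuation (p0.coeff i)
          ≤ (v.valuation (p0.coeff i0))⁻¹ * v.valuation (p0.coeff i0) := by gcongr
        _ = 1 := inv_mul_cancel₀ h2.ne'
  · rw [coeff_C_mul, inv_mul_cancel₀ hc]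
  · rw [map_mul, hp0, minpoly.aeval, mul_zero]
  · rw [natDegree_C_mul (inv_ne_zero hc)]

theorem isIntegral_of_forall (v : ValuationSubring K) (y : Om)
    (hy : ∀ u : ValuationSubring Om, (∀ a ∈ v, algebraMap K Om a ∈ u) → y ∈ u) :
    IsIntegral v y := by
  set s : Subring Om := v.toSubring.map (algebraMap K Om) with hs
  have h1 := iInf_valuationSubring_superset (K := Om) (s := (s : Set Om))
  have h2 : y ∈ (integralClosure (Subring.closure (s : Set Om)) Om).toSubring := by
    rw [← h1, Subring.mem_iInf]
    rintro ⟨V, hV⟩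
    refine hy V fun a ha => hV ⟨a, ha, rfl⟩
  have h3 : IsIntegral (Subring.closure (s : Set Om)) y := h2
  rw [Subring.closure_eq] at h3
  obtain ⟨p, hpm, hp⟩ := h3
  have hl : p.map (algebraMap s Om) ∈ Polynomial.lifts (algebraMap v Om) := by
    rw [Polynomial.lifts_iff_coeff_lifts]
    intro n
    rw [Polynomial.coeff_map]
    obtain ⟨a, ha, ha2⟩ := (p.coeff n).2
    exact ⟨⟨a, ha⟩, ha2⟩
  obtain ⟨q, hq1, _, hq2⟩ := Polynomial.lifts_and_degree_eq_and_monic hl (hpm.map _)
  refine ⟨q, hq2, ?_⟩
  rw [Polynomial.eval₂_eq_eval_map, hq1, ← Polynomial.eval₂_eq_eval_map]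
  exact hp

theorem mem_of_isIntegral (w : ValuationSubring Om) (y : Om) (hy : IsIntegral (below K w) y) :
    y ∈ w := by
  obtain ⟨p, hpm, hp⟩ := hy
  by_contra hyw
  have hy1 : 1 < w.valuation y := by
    rw [← not_le, ValuationSubring.valuation_le_one_iff]; exact hyw
  have hy0 : (0 : w.ValueGroup) < w.valuation y := lt_trans zero_lt_one hy1
  set n := p.natDegree with hn
  have hn0 : n ≠ 0 := by
    intro h0
    have h1 : p = 1 := by
      exact hpm.natDegree_eq_zero.1 (by rw [← hn]; exact h0)
    rw [h1] at hp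
    simp at hp
  rw [Polynomial.eval₂_eq_sum_range, ← hn, Finset.sum_range_succ] at hp
  have hlead : p.coeff n = 1 := hpm
  rw [hlead, map_one, one_mul] at hp
  have h3 : w.valuation (∑ i ∈ Finset.range n,
      algebraMap (below K w) Om (p.coeff i) * y ^ i) < w.valuation (y ^ n) := by
    refine Valuation.map_sum_lt _ ?_ ?_
    · rw [map_pow]; exact (pow_pos hy0 n).ne'
    · intro i hi
      have hi' : i < n := Finset.mem_range.1 hi
      rw [map_mul, map_pow, map_pow]
      have h4 : w.valuation (algebraMap (below K w) Om (p.coeff i)) ≤ 1 := by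
        rw [ValuationSubring.valuation_le_one_iff]
        exact (p.coeff i).2
      calc w.valuation (algebraMap (below K w) Om (p.coeff i)) * w.valuation y ^ i
          ≤ 1 * w.valuation y ^ i := by gcongr
        _ = w.valuation y ^ i := one_mul _
        _ < w.valuation y ^ n := pow_lt_pow_right₀ hy1 hi'
  have h5 : y ^ n = -(∑ i ∈ Finset.range n,
      algebraMap (below K w) Om (p.coeff i) * y ^ i) := by
    linear_combination hp
  rw [h5, Valuation.map_neg] at h3
  exact lt_irrefl _ h3

theorem prufer (w : ValuationSubring Om) {x : Om} (hx : x ∈ w) (halg : IsAlgebraic K x) :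
    ∃ y z : Om, IsIntegral (below K w) y ∧ IsIntegral (below K w) z ∧ x * y = z ∧
      w.valuation y = 1 ∧ y ∈ IntermediateField.adjoin K {x} ∧
      z ∈ IntermediateField.adjoin K {x} := by
  classical
  by_cases hx0 : x = 0
  · subst hx0
    exact ⟨1, 0, isIntegral_one, isIntegral_zero, by simp, by simp, one_mem _, zero_mem _⟩
  obtain ⟨p, hp1, ⟨i1, hi1⟩, hp3, -⟩ := exists_prim K (below K w) halg
  set n := p.natDegree with hn
  set a : ℕ → Om := fun i => algebraMap K Om (p.coeff i) with ha
  have haw : ∀ i, w.valuation (a i) ≤ 1 := fun i => by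
    rw [ValuationSubring.valuation_le_one_iff]; exact hp1 i
  have hxv : w.valuation x ≤ 1 := (ValuationSubring.valuation_le_one_iff _ _).2 hx
  have hsum : ∑ i ∈ Finset.range (n + 1), a i * x ^ i = 0 := by
    rw [← hp3, Polynomial.aeval_eq_sum_range]
    refine Finset.sum_congr rfl fun i _ => ?_
    rw [Algebra.smul_def]
  -- the largest index with unit coefficient
  have hex : ((Finset.range (n + 1)).filter (fun i => w.valuation (a i) = 1)).Nonempty := by
    refine ⟨i1, ?_⟩
    rw [Finset.mem_filter, Finset.mem_range]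
    refine ⟨?_, ?_⟩
    · have : i1 ≤ n := by
        rw [hn]
        refine Polynomial.le_natDegree_of_ne_zero ?_
        rw [hi1]; exact one_ne_zero
      omega
    · rw [ha]; simp only; rw [hi1, map_one, map_one]
  obtain ⟨k, hk, hkmax⟩ := Finset.exists_max_image _ (fun i : ℕ => i) hex
  rw [Finset.mem_filter, Finset.mem_range] at hk
  obtain ⟨hkn, hk1⟩ := hk
  have hbig : ∀ i, k < i → i < n + 1 → w.valuation (a i) < 1 := by
    intro i hi hin
    refine lt_of_le_of_ne (haw i) fun h1 => ?_
    have h2 := hkmax i (by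
      rw [Finset.mem_filter, Finset.mem_range]; exact ⟨hin, h1⟩)
    omega
  -- split the sum
  have hsplit : ∑ i ∈ Finset.range (n + 1), a i * x ^ i =
      (∑ i ∈ Finset.range k, a i * x ^ i) +
        ∑ j ∈ Finset.range (n + 1 - k), a (k + j) * x ^ (k + j) := by
    have h1 : n + 1 = k + (n + 1 - k) := by omega
    conv_lhs => rw [h1]
    rw [Finset.sum_range_add]
  set y : Om := ∑ j ∈ Finset.range (n + 1 - k), a (k + j) * x ^ j with hy
  have hyk : ∑ j ∈ Finset.range (n + 1 - k), a (k + j) * x ^ (k + j) = x ^ k * y := by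
    rw [hy, Finset.mul_sum]
    refine Finset.sum_congr rfl fun j _ => ?_
    rw [pow_add]; ring
  have hyval : w.valuation y = 1 := by
    have h1 : n + 1 - k = (n - k) + 1 := by omega
    rw [hy, h1, Finset.sum_range_succ']
    simp only [add_zero, pow_zero, mul_one]
    have h2 : w.valuation (∑ j ∈ Finset.range (n - k), a (k + (j + 1)) * x ^ (j + 1)) < 1 := by
      refine Valuation.map_sum_lt _ one_ne_zero ?_
      intro j hj
      have hj' := Finset.mem_range.1 hj
      rw [map_mul, map_pow]
      calc w.valuation (a (k + (j + 1))) * w.valuation x ^ (j + 1)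
          ≤ w.valuation (a (k + (j + 1))) * 1 := by
            gcongr
            exact pow_le_one₀ zero_le hxv
        _ = w.valuation (a (k + (j + 1))) := mul_one _
        _ < 1 := hbig _ (by omega) (by omega)
    rw [Valuation.map_add_eq_of_lt_right _ (by rw [hk1]; exact h2), hk1]
  -- k is positive
  have hkpos : k ≠ 0 := by
    intro h0
    have h1 : x ^ k * y = 0 := by
      rw [← hyk]
      have h3 := hsplit
      rw [hsum] at h3
      subst h0
      simpa using h3.symm
    rw [h0, pow_zero, one_mul] at h1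
    rw [h1, map_zero] at hyval
    exact zero_ne_one hyval
  obtain ⟨m, rfl⟩ : ∃ m, k = m + 1 := Nat.exists_eq_succ_of_ne_zero hkpos
  set z : Om := -∑ i ∈ Finset.range (m + 1), a i * (x⁻¹) ^ (m - i) with hz
  have hzk : ∑ i ∈ Finset.range (m + 1), a i * x ^ i = -(x ^ m * z) := by
    rw [hz, mul_neg, neg_neg, Finset.mul_sum]
    refine Finset.sum_congr rfl fun i hi => ?_
    have hi' := Finset.mem_range.1 hi
    have h1 : x ^ m = x ^ i * x ^ (m - i) := by
      rw [← pow_add]; congr 1; omega
    rw [h1, inv_pow]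
    field_simp
  have hxy : x * y = z := by
    have h1 := hsplit
    rw [hsum, hyk, hzk] at h1
    have h2 : x ^ m * (x * y - z) = 0 := by
      linear_combination -h1
    rcases mul_eq_zero.1 h2 with h3 | h3
    · exact absurd h3 (pow_ne_zero _ hx0)
    · exact sub_eq_zero.1 h3
  have hpoly : ∀ u : ValuationSubring Om, (∀ b ∈ below K w, algebraMap K Om b ∈ u) →
      y ∈ u ∧ z ∈ u := by
    intro u hu
    have hau : ∀ i, a i ∈ u := fun i => hu _ (hp1 i)
    rcases u.mem_or_inv_mem x with hxu | hxu
    · have hyu : y ∈ u := by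
        rw [hy]
        exact sum_mem fun j _ => mul_mem (hau _) (pow_mem hxu _)
      exact ⟨hyu, by rw [← hxy]; exact mul_mem hxu hyu⟩
    · have hzu : z ∈ u := by
        rw [hz]
        exact neg_mem (sum_mem fun j _ => mul_mem (hau _) (pow_mem hxu _))
      refine ⟨?_, hzu⟩
      have h1 : y = x⁻¹ * z := by
        rw [← hxy]; field_simp
      rw [h1]
      exact mul_mem hxu hzu
  have hxK : x ∈ IntermediateField.adjoin K {x} :=
    IntermediateField.mem_adjoin_simple_self K x
  have haK : ∀ i, a i ∈ IntermediateField.adjoin K {x} := fun i =>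
    IntermediateField.algebraMap_mem _ _
  have hyK : y ∈ IntermediateField.adjoin K {x} := by
    rw [hy]
    exact sum_mem fun j _ => mul_mem (haK _) (pow_mem hxK _)
  refine ⟨y, z, isIntegral_of_forall K _ _ fun u hu => (hpoly u hu).1,
    isIntegral_of_forall K _ _ fun u hu => (hpoly u hu).2, hxy, hyval, hyK, ?_⟩
  rw [← hxy]
  exact mul_mem hxK hyK

end Pool.Agent.Lib.SmD
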