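import Mathlib
import Pool.Agent.Lib.SmD.Defs
import Pool.Agent.Lib.SmD.Prim

/-!
# Project SMITH, block D, module ResMap: residue fields

PROOFS.

`isLocalHom_inclBelow`: if `algebraMap a` is a unit of `w` then `a ≠ 0` and `a⁻¹ ∈ below K w`.

`residue_eq_iff`: `residue x = residue y ↔ x - y ∈ maximalIdeal`, `ValuationSubring.
valuation_lt_one_iff`.

`res_root`: the polynomial of `exists_prim` has coefficients in `below K w`, lift it to
`(below K w)[X]` (`Polynomial.lifts`, or `Polynomial.toSubring`-like) and map to the residue field;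
the coefficient `1` stays `1`, so it is nonzero; degree does not increase; evaluate.

`residue_fixed`: `X ^ q - X` over the field `ResidueField w` has at most `q` roots, and the `q`
elements `resMap K w a` are roots (`FiniteField.pow_card`, `resMap` injective: ring hom of fields),
`q = resCard (below K w) = Nat.card`. So the roots are exactly the image.

`res_pow`: `d0 = [M : K]` (`minpoly K x` has degree `≤ d0` for `x ∈ M`), `m = d0 !`. For
`x ∈ M ∩ w` put `y = residue x`, root of a nonzero polynomial of degree `≤ d0` over the finite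
field `F` = residue field below. `F(y)` is a finite field with `q ^ d` elements, `d ≤ d0`
(degree of the minimal polynomial of `y` over `F`, with the algebra structure `(resMap K w).toAlgebra`)
hence `y ^ (q ^ d) = y`, and `d ∣ m` gives `y ^ (q ^ m) = y`.

`resAct`: the automorphism of the residue field of `w` induced by `σ ∈ dec K w`
(`IsLocalRing.ResidueField.mapEquiv` of the ring automorphism of `w`).
-/

open Polynomial IsLocalRing

namespace Pool.Agent.Lib.SmD

variable (K : Type*) {Om : Type*} [Field K] [Field Om] [Algebra K Om]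

/-- The inclusion of the place below. -/
noncomputable def inclBelow (w : ValuationSubring Om) : below K w →+* w where
  toFun a := ⟨algebraMap K Om a, a.2⟩
  map_one' := by ext; simp
  map_mul' a b := by ext; simp
  map_zero' := by ext; simp
  map_add' a b := by ext; simp

instance isLocalHom_inclBelow (w : ValuationSubring Om) : IsLocalHom (inclBelow K w) := by
  refine ⟨fun a ha => ?_⟩
  obtain ⟨y, hy⟩ := isUnit_iff_exists_inv.1 ha
  have hy' : algebraMap K Om (a : K) * (y : Om) = 1 := by
    have := congrArg (fun z : w => (z : Om)) hy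
    simpa [inclBelow] using this
  have ha0 : (a : K) ≠ 0 := by
    intro h0
    rw [h0, map_zero, zero_mul] at hy'
    exact zero_ne_one hy'
  have hy2 : algebraMap K Om (a : K)⁻¹ = (y : Om) := by
    rw [map_inv₀]
    exact inv_eq_of_mul_eq_one_right hy'
  have hmem : (a : K)⁻¹ ∈ below K w := by
    change algebraMap K Om (a : K)⁻¹ ∈ w
    rw [hy2]
    exact y.2
  refine isUnit_iff_exists_inv.2 ⟨⟨(a : K)⁻¹, hmem⟩, ?_⟩
  apply Subtype.ext
  change (a : K) * (a : K)⁻¹ = 1
  exact mul_inv_cancel₀ ha0

/-- The map of residue fields. -/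
noncomputable def resMap (w : ValuationSubring Om) :
    ResidueField (below K w) →+* ResidueField w := ResidueField.map (inclBelow K w)

theorem resMap_residue (w : ValuationSubring Om) (a : below K w) :
    resMap K w (residue _ a) = residue w ⟨algebraMap K Om a, a.2⟩ := by
  unfold resMap
  rw [ResidueField.map_residue]
  rfl

omit [Field K] [Algebra K Om] in
theorem residue_eq_iff (w : ValuationSubring Om) {x y : Om} (hx : x ∈ w) (hy : y ∈ w) :
    residue w ⟨x, hx⟩ = residue w ⟨y, hy⟩ ↔ w.valuation (x - y) < 1 := by
  have h1 : residue w ⟨x, hx⟩ = residue w ⟨y, hy⟩ ↔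
      (⟨x, hx⟩ - ⟨y, hy⟩ : w) ∈ maximalIdeal w := Ideal.Quotient.eq
  rw [h1, ValuationSubring.valuation_lt_one_iff]
  rfl

theorem res_root (w : ValuationSubring Om) {x : Om} (hx : x ∈ w) (halg : IsAlgebraic K x) :
    ∃ p : (ResidueField (below K w))[X], p ≠ 0 ∧ p.natDegree ≤ (minpoly K x).natDegree ∧
      p.eval₂ (resMap K w) (residue w ⟨x, hx⟩) = 0 := by
  obtain ⟨p, hp1, ⟨i, hi⟩, hp3, hp4⟩ := exists_prim K (below K w) halg
  have hl : p ∈ Polynomial.lifts (algebraMap (below K w) K) := by
    rw [Polynomial.lifts_iff_coeff_lifts]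
    intro n
    exact ⟨⟨p.coeff n, hp1 n⟩, rfl⟩
  obtain ⟨q, hq1, hq2'⟩ := Polynomial.exists_degree_eq_of_mem_lifts hl
  have hq2 : q.natDegree = p.natDegree := Polynomial.natDegree_eq_of_degree_eq hq2'
  have hqi : q.coeff i = 1 := by
    apply Subtype.ext
    have h2 : (q.map (algebraMap (below K w) K)).coeff i = 1 := by rw [hq1]; exact hi
    rw [Polynomial.coeff_map] at h2
    exact h2
  refine ⟨q.map (residue _), ?_, ?_, ?_⟩
  · intro h0
    have h3 : (q.map (residue (below K w))).coeff i = 1 := by
      rw [Polynomial.coeff_map, hqi, map_one]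
    rw [h0, Polynomial.coeff_zero] at h3
    exact zero_ne_one h3
  · exact (Polynomial.natDegree_map_le).trans (hq2.le.trans hp4)
  · have hcomp : (resMap K w).comp (residue (below K w)) = (residue w).comp (inclBelow K w) := by
      ext a
      exact resMap_residue K w a
    rw [Polynomial.eval₂_map, hcomp, ← Polynomial.hom_eval₂]
    have hz : q.eval₂ (inclBelow K w) ⟨x, hx⟩ = 0 := by
      have hinj : Function.Injective (algebraMap w Om) := Subtype.val_injective
      apply hinj
      rw [Polynomial.hom_eval₂, map_zero]
      have hc2 : (algebraMap w Om).comp (inclBelow K w)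
          = (algebraMap K Om).comp (algebraMap (below K w) K) := by
        ext a
        rfl
      rw [hc2, ← Polynomial.eval₂_map, hq1]
      exact hp3
    rw [hz, map_zero]

theorem residue_fixed (w : ValuationSubring Om) [Finite (ResidueField (below K w))]
    (y : ResidueField w) (hy : y ^ resCard (below K w) = y) : ∃ a, resMap K w a = y := by
  classical
  haveI : Fintype (ResidueField (below K w)) := Fintype.ofFinite _
  have hq : resCard (below K w) = Fintype.card (ResidueField (below K w)) :=
    Nat.card_eq_fintype_card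
  rw [hq] at hy
  set q := Fintype.card (ResidueField (below K w)) with hqd
  have hq1 : 1 < q := Fintype.one_lt_card
  by_contra hne
  push Not at hne
  have hinj : Function.Injective (resMap K w) := (resMap K w).injective
  set S : Finset (ResidueField w) := insert y (Finset.univ.image (resMap K w)) with hS
  have hy' : y ∉ Finset.univ.image (resMap K w) := by
    intro h
    obtain ⟨a, _, ha⟩ := Finset.mem_image.1 h
    exact hne a ha
  have hcard : S.card = q + 1 := by
    rw [hS, Finset.card_insert_of_notMem hy', Finset.card_image_of_injective _ hinj,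
      Finset.card_univ]
  have hdeg : (X ^ q - X : (ResidueField w)[X]).natDegree = q :=
    FiniteField.X_pow_card_sub_X_natDegree_eq _ hq1
  have hP0 : (X ^ q - X : (ResidueField w)[X]) ≠ 0 :=
    FiniteField.X_pow_card_sub_X_ne_zero _ hq1
  have hsub : S.val ⊆ (X ^ q - X : (ResidueField w)[X]).roots := by
    intro z hz
    rw [Polynomial.mem_roots hP0, Polynomial.IsRoot.def, Polynomial.eval_sub, Polynomial.eval_pow,
      Polynomial.eval_X, sub_eq_zero]
    have hz' : z ∈ S := hz
    rw [hS, Finset.mem_insert] at hz'
    rcases hz' with h | h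
    · rw [h]; exact hy
    · obtain ⟨a, _, ha⟩ := Finset.mem_image.1 h
      rw [← ha, ← map_pow, FiniteField.pow_card]
  have := Polynomial.card_le_degree_of_subset_roots hsub
  rw [hdeg, hcard] at this
  omega

theorem residue_fixed' (w : ValuationSubring Om) [Finite (ResidueField (below K w))]
    {x : Om} (hx : x ∈ w) (h : w.valuation (x ^ resCard (below K w) - x) < 1) :
    ∃ a : K, w.valuation (x - algebraMap K Om a) < 1 := by
  have hxq : x ^ resCard (below K w) ∈ w := pow_mem hx _
  have h1 : residue w ⟨x ^ resCard (below K w), hxq⟩ = residue w ⟨x, hx⟩ :=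
    (residue_eq_iff w hxq hx).2 h
  have h2 : (residue w ⟨x, hx⟩) ^ resCard (below K w) = residue w ⟨x, hx⟩ := by
    rw [← map_pow]
    exact h1
  obtain ⟨a, ha⟩ := residue_fixed K w _ h2
  obtain ⟨a', rfl⟩ := residue_surjective a
  rw [resMap_residue] at ha
  exact ⟨(a' : K), (residue_eq_iff w hx a'.2).1 ha.symm⟩

private theorem natDegree_minpoly_le_of {F E : Type*} [Field F] [Field E] [Algebra F E] {y : E}
    (p : F[X]) (hp0 : p ≠ 0) (hp : p.eval₂ (algebraMap F E) y = 0) :
    (minpoly F y).natDegree ≤ p.natDegree := by
  refine Polynomial.natDegree_le_of_dvd ?_ hp0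
  exact minpoly.dvd F y hp

private theorem pow_card_pow_natDegree {F E : Type*} [Field F] [Finite F] [Field E] [Algebra F E]
    (y : E) (hy : IsIntegral F y) :
    y ^ (Nat.card F) ^ (minpoly F y).natDegree = y := by
  classical
  haveI : FiniteDimensional F (IntermediateField.adjoin F {y}) :=
    IntermediateField.adjoin.finiteDimensional hy
  have hfr : Module.finrank F (IntermediateField.adjoin F {y}) = (minpoly F y).natDegree :=
    IntermediateField.adjoin.finrank hy
  haveI : Finite (IntermediateField.adjoin F {y}) := Module.finite_of_finite F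
  haveI : Fintype (IntermediateField.adjoin F {y}) := Fintype.ofFinite _
  have hcard : Nat.card (IntermediateField.adjoin F {y})
      = Nat.card F ^ (minpoly F y).natDegree := by
    rw [Module.natCard_eq_pow_finrank (K := F), hfr]
  rw [← hcard, Nat.card_eq_fintype_card]
  have h := FiniteField.pow_card
    (⟨y, IntermediateField.mem_adjoin_simple_self F y⟩ : IntermediateField.adjoin F {y})
  have h2 := congrArg (fun z : IntermediateField.adjoin F {y} => (z : E)) h
  simpa using h2

theorem res_pow (w : ValuationSubring Om) [Finite (ResidueField (below K w))]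
    (M : IntermediateField K Om) [FiniteDimensional K M] :
    ∃ m : ℕ, 0 < m ∧ ∀ x ∈ M, x ∈ w →
      w.valuation (x ^ (resCard (below K w)) ^ m - x) < 1 := by
  classical
  refine ⟨(Module.finrank K M).factorial, Nat.factorial_pos _, fun x hxM hx => ?_⟩
  have hint : IsIntegral K (⟨x, hxM⟩ : M) := IsIntegral.of_finite K _
  have hmin : minpoly K (⟨x, hxM⟩ : M) = minpoly K x :=
    (minpoly.algebraMap_eq (algebraMap M Om).injective (⟨x, hxM⟩ : M)).symm
  have hdx : (minpoly K x).natDegree ≤ Module.finrank K M := by
    rw [← hmin]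
    exact minpoly.natDegree_le _
  have halg : IsAlgebraic K x := by
    have h0 : minpoly K x ≠ 0 := by
      rw [← hmin]
      exact minpoly.ne_zero hint
    exact ⟨minpoly K x, h0, minpoly.aeval K x⟩
  obtain ⟨p, hp0, hp1, hp2⟩ := res_root K w hx halg
  letI : Algebra (ResidueField (below K w)) (ResidueField w) := (resMap K w).toAlgebra
  set y := residue w ⟨x, hx⟩ with hy
  have hyalg : IsAlgebraic (ResidueField (below K w)) y := ⟨p, hp0, hp2⟩
  have hyint : IsIntegral (ResidueField (below K w)) y := hyalg.isIntegral
  set d := (minpoly (ResidueField (below K w)) y).natDegree with hd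
  have hd0 : 0 < d := minpoly.natDegree_pos hyint
  have hdle : d ≤ Module.finrank K M :=
    (natDegree_minpoly_le_of p hp0 hp2).trans (hp1.trans hdx)
  have hyd : y ^ (resCard (below K w)) ^ d = y := pow_card_pow_natDegree y hyint
  obtain ⟨k, hk⟩ := Nat.dvd_factorial hd0 hdle
  have hyk : ∀ j : ℕ, y ^ (resCard (below K w)) ^ (d * j) = y := by
    intro j
    induction j with
    | zero => simp
    | succ j ih =>
      rw [Nat.mul_succ, pow_add, pow_mul, ih, hyd]
  have hxq : x ^ (resCard (below K w)) ^ (Module.finrank K M).factorial ∈ w := pow_mem hx _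
  rw [hk] at hxq ⊢
  refine (residue_eq_iff w hxq hx).1 ?_
  have h5 : residue w ⟨x ^ (resCard (below K w)) ^ (d * k), hxq⟩
      = y ^ (resCard (below K w)) ^ (d * k) := by
    rw [hy, ← map_pow]
    rfl
  rw [h5, hyk k]

theorem exists_resAct {w : ValuationSubring Om} {σ : Om ≃ₐ[K] Om} (hσ : σ ∈ dec K w) :
    ∃ s : ResidueField w ≃+* ResidueField w, ∀ (x : Om) (hx : x ∈ w),
      s (residue w ⟨x, hx⟩) = residue w ⟨σ x, (mem_dec K).1 hσ x |>.2 hx⟩ := by
  have h1 := (mem_dec K).1 hσ
  have h2 : ∀ x, σ.symm x ∈ w ↔ x ∈ w := fun x => by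
    rw [← h1 (σ.symm x), AlgEquiv.apply_symm_apply]
  let e : w ≃+* w :=
    { toFun := fun a => ⟨σ a, (h1 a).2 a.2⟩
      invFun := fun a => ⟨σ.symm a, (h2 a).2 a.2⟩
      left_inv := fun a => by
        apply Subtype.ext
        exact σ.symm_apply_apply _
      right_inv := fun a => by
        apply Subtype.ext
        exact σ.apply_symm_apply _
      map_mul' := fun a b => by
        apply Subtype.ext
        exact map_mul σ _ _
      map_add' := fun a b => by
        apply Subtype.ext
        exact map_add σ _ _ }
  refine ⟨ResidueField.mapEquiv e, fun x hx => ?_⟩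
  rfl

end Pool.Agent.Lib.SmD
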