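import Mathlib
import Pool.Agent.Lib.SmD.Defs
import Pool.Agent.Lib.SmD.ResMap

/-!
# Project SMITH, block D, module Resid: the decomposition group surjects onto the automorphisms of
the residue field over the residue field below

PROOF. `A := below K w`, `B := integralClosure A Om`, `G = Om ≃ₐ[K] Om` acting as in module Conj
(profinite, continuous on discrete `B`, `Algebra.IsInvariant A B G`; copy that set-up),
`Q := {b ∈ B | w.valuation b < 1}` prime, `P := m_A`, `Q.LiesOver P`. The ring map
`B ⧸ Q → ResidueField w` is an isomorphism: injective by definition; surjective: for `x ∈ w` take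
`prufer`: `x * y = z`, `y ∉ Q`. `B ⧸ Q` is a field (`B` integral over `A`, `Q` lies over the
maximal ideal `P`: `Ideal.isMaximal_of_isIntegral_of_isMaximal_comap`), so there is `y' ∈ B` with
`y y' - 1 ∈ Q`, and `x` and `z y'` have the same residue (`x - z y' = x (1 - y y')`).
Transport `s` to an automorphism `s'` of `B ⧸ Q`; it fixes the image of `A ⧸ P` by `hs`.
Mathlib `Ideal.Quotient.stabilizerHom_surjective_of_profinite P Q` gives `ρ` in the stabilizer of
`Q` inducing `s'`. `ρ` preserves `w`: as in Conj (`prufer`), because `w = B_Q`. The residue action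
of `ρ` and `s` agree on residues of `B`, hence everywhere.
-/

open Polynomial IsLocalRing
open scoped Pointwise

namespace Pool.Agent.Lib.SmD

variable (K : Type*) {Om : Type*} [Field K] [Field Om] [Algebra K Om]

/-- the integral closure of the place below, mapped to the place -/
private noncomputable def Resid_inc (w : ValuationSubring Om) :
    integralClosure (below K w) Om →+* w where
  toFun b := ⟨b, mem_of_isIntegral K w b b.2⟩
  map_one' := by ext; simp
  map_mul' a b := by ext; simp
  map_zero' := by ext; simp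
  map_add' a b := by ext; simp

/-- the center of `w` on the integral closure -/
private noncomputable def Resid_Q (w : ValuationSubring Om) :
    Ideal (integralClosure (below K w) Om) := (maximalIdeal w).comap (Resid_inc K w)

private instance Resid_Q_prime (w : ValuationSubring Om) : (Resid_Q K w).IsPrime := by
  unfold Resid_Q; exact Ideal.comap_isPrime _ _

private theorem Resid_mem_Q (w : ValuationSubring Om) (b : integralClosure (below K w) Om) :
    b ∈ Resid_Q K w ↔ w.valuation (b : Om) < 1 := by
  unfold Resid_Q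
  rw [Ideal.mem_comap, ValuationSubring.valuation_lt_one_iff]
  rfl

private instance Resid_over (w : ValuationSubring Om) :
    (Resid_Q K w).LiesOver (maximalIdeal (below K w)) := by
  constructor
  ext a
  rw [Ideal.under, Ideal.mem_comap, Resid_mem_Q]
  have h1 : ((algebraMap (below K w) (integralClosure (below K w) Om) a :
      integralClosure (below K w) Om) : Om) = algebraMap K Om a := rfl
  rw [h1, ValuationSubring.valuation_lt_one_iff, ← ValuationSubring.mem_nonunits_iff,
    ← ValuationSubring.mem_nonunits_iff, ValuationSubring.mem_nonunits_iff_or,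
    ValuationSubring.mem_nonunits_iff_or, map_eq_zero_iff _ (algebraMap K Om).injective,
    ← map_inv₀]
  rfl

private theorem Resid_isInt (w : ValuationSubring Om) :
    Algebra.IsIntegral (below K w) (integralClosure (below K w) Om) := inferInstance

private theorem Resid_Q_max (w : ValuationSubring Om) : (Resid_Q K w).IsMaximal := by
  have := Resid_isInt K w
  refine Ideal.isMaximal_of_isIntegral_of_isMaximal_comap (R := below K w) (Resid_Q K w) ?_
  have h := (Resid_over K w).over
  rw [Ideal.under] at h
  rw [← h]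
  infer_instance

/-- the residue map from the quotient -/
private noncomputable def Resid_phi (w : ValuationSubring Om) :
    (integralClosure (below K w) Om ⧸ Resid_Q K w) →+* ResidueField w :=
  Ideal.Quotient.lift (Resid_Q K w) ((residue w).comp (Resid_inc K w)) (fun b hb => by
    rw [RingHom.comp_apply, residue_eq_zero_iff]
    exact hb)

private theorem Resid_phi_mk (w : ValuationSubring Om) (b : integralClosure (below K w) Om) :
    Resid_phi K w (Ideal.Quotient.mk _ b) =
      residue w ⟨b, mem_of_isIntegral K w b b.2⟩ := rfl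

private theorem Resid_phi_inj (w : ValuationSubring Om) : Function.Injective (Resid_phi K w) := by
  have := Resid_Q_max K w
  let _ : Field (integralClosure (below K w) Om ⧸ Resid_Q K w) := Ideal.Quotient.field _
  exact (Resid_phi K w).injective

private theorem Resid_phi_surj [Algebra.IsAlgebraic K Om] (w : ValuationSubring Om) :
    Function.Surjective (Resid_phi K w) := by
  intro r
  obtain ⟨⟨x, hx⟩, rfl⟩ := residue_surjective r
  obtain ⟨y, z, hy, hz, hxy, hy1, -, -⟩ := prufer K w hx (Algebra.IsAlgebraic.isAlgebraic x)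
  have := Resid_Q_max K w
  have hyQ : (⟨y, hy⟩ : integralClosure (below K w) Om) ∉ Resid_Q K w := by
    rw [Resid_mem_Q]
    change ¬ (w.valuation y < 1)
    rw [hy1]; exact lt_irrefl _
  let _ : Field (integralClosure (below K w) Om ⧸ Resid_Q K w) := Ideal.Quotient.field _
  refine ⟨Ideal.Quotient.mk _ ⟨z, hz⟩ / Ideal.Quotient.mk _ ⟨y, hy⟩, ?_⟩
  rw [map_div₀]
  have hne : Resid_phi K w (Ideal.Quotient.mk _ ⟨y, hy⟩) ≠ 0 := by
    rw [Ne, map_eq_zero_iff _ (Resid_phi_inj K w), Ideal.Quotient.eq_zero_iff_mem]
    exact hyQ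
  rw [div_eq_iff hne, Resid_phi_mk, Resid_phi_mk, ← map_mul]
  congr 1
  ext
  exact hxy.symm

private theorem Resid_cont [IsGalois K Om] (w : ValuationSubring Om) :
    letI : TopologicalSpace (integralClosure (below K w) Om) := ⊥
    ContinuousSMul (Om ≃ₐ[K] Om) (integralClosure (below K w) Om) := by
  let _ : TopologicalSpace (integralClosure (below K w) Om) := ⊥
  have : DiscreteTopology (integralClosure (below K w) Om) := ⟨rfl⟩
  constructor
  rw [continuous_def]
  intro U _
  rw [isOpen_iff_mem_nhds]
  rintro ⟨g, b⟩ hgb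
  have hfix : ((IntermediateField.adjoin K {(b : Om)}).fixingSubgroup : Set (Om ≃ₐ[K] Om)) ∈
      nhds (1 : Om ≃ₐ[K] Om) := by
    have : FiniteDimensional K (IntermediateField.adjoin K {(b : Om)}) :=
      IntermediateField.adjoin.finiteDimensional (Algebra.IsIntegral.isIntegral (b : Om))
    exact (IntermediateField.fixingSubgroup_isOpen _).mem_nhds (one_mem _)
  have hV : {h : Om ≃ₐ[K] Om | g⁻¹ * h ∈
      ((IntermediateField.adjoin K {(b : Om)}).fixingSubgroup : Set (Om ≃ₐ[K] Om))} ∈
      nhds g := by
    have hc : Continuous (fun h : Om ≃ₐ[K] Om => g⁻¹ * h) := continuous_const_mul _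
    refine hc.continuousAt.preimage_mem_nhds ?_
    rw [inv_mul_cancel]; exact hfix
  refine Filter.mem_of_superset (prod_mem_nhds hV (mem_nhds_discrete.2 (Set.mem_singleton b))) ?_
  rintro ⟨h, c⟩ ⟨hh, hc⟩
  have hc' : c = b := hc
  subst hc'
  change h • c ∈ U
  have h1 : h • c = g • c := by
    have h2 : (g⁻¹ * h) (c : Om) = c :=
      (IntermediateField.mem_fixingSubgroup_iff _ _).1 hh _
        (IntermediateField.mem_adjoin_simple_self K (c : Om))
    ext
    change h (c : Om) = g (c : Om)
    rw [AlgEquiv.mul_apply] at h2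
    have h3 := congrArg g h2
    rw [← AlgEquiv.mul_apply, mul_inv_cancel, AlgEquiv.one_apply] at h3
    exact h3
  rw [h1]
  exact hgb

private theorem Resid_inv [IsGalois K Om] (w : ValuationSubring Om) :
    Algebra.IsInvariant (below K w) (integralClosure (below K w) Om) (Om ≃ₐ[K] Om) := by
  constructor
  intro b hb
  have h1 : (b : Om) ∈ (⊥ : IntermediateField K Om) := by
    rw [InfiniteGalois.mem_bot_iff_fixed]
    intro f
    exact congrArg Subtype.val (hb f)
  obtain ⟨a, ha⟩ := IntermediateField.mem_bot.1 h1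
  have h2 : a ∈ below K w := by
    rw [ValuationSubring.mem_comap, ha]
    exact mem_of_isIntegral K w b b.2
  refine ⟨⟨a, h2⟩, ?_⟩
  ext
  exact ha

/-- the surjectivity of the stabilizer of the center -/
private theorem Resid_stab [IsGalois K Om] (w : ValuationSubring Om) :
    Function.Surjective (Ideal.Quotient.stabilizerHom (Resid_Q K w) (maximalIdeal (below K w))
      (Om ≃ₐ[K] Om)) := by
  let _ : TopologicalSpace (integralClosure (below K w) Om) := ⊥
  have : DiscreteTopology (integralClosure (below K w) Om) := ⟨rfl⟩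
  have := Resid_cont K w
  have := Resid_inv K w
  exact Ideal.Quotient.stabilizerHom_surjective_of_profinite _ _

private theorem Resid_stab_lt (w : ValuationSubring Om) {σ : Om ≃ₐ[K] Om}
    (hσ : σ ∈ MulAction.stabilizer (Om ≃ₐ[K] Om) (Resid_Q K w)) {y : Om}
    (hy : IsIntegral (below K w) y) (h : w.valuation (σ y) < 1) : w.valuation y < 1 := by
  have h1 : σ • Resid_Q K w = Resid_Q K w := hσ
  have h2 : σ • (⟨y, hy⟩ : integralClosure (below K w) Om) ∈ Resid_Q K w := by
    rw [Resid_mem_Q]; exact h
  rw [← h1, Ideal.smul_mem_pointwise_smul_iff, Resid_mem_Q] at h2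
  exact h2

private theorem Resid_int (w : ValuationSubring Om) (σ : Om ≃ₐ[K] Om) {y : Om}
    (hy : IsIntegral (below K w) y) : IsIntegral (below K w) (σ y) :=
  (σ • (⟨y, hy⟩ : integralClosure (below K w) Om)).2

private theorem Resid_stab_mem [Algebra.IsAlgebraic K Om] (w : ValuationSubring Om)
    {σ : Om ≃ₐ[K] Om}
    (hσ : σ ∈ MulAction.stabilizer (Om ≃ₐ[K] Om) (Resid_Q K w)) {x : Om} (hx : x ∈ w) :
    σ x ∈ w := by
  obtain ⟨y, z, hy, hz, hxy, hy1, -, -⟩ := prufer K w hx (Algebra.IsAlgebraic.isAlgebraic x)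
  have h1 : w.valuation (σ y) = 1 := by
    refine le_antisymm ?_ (not_lt.1 fun h => ?_)
    · rw [ValuationSubring.valuation_le_one_iff]
      exact mem_of_isIntegral K w _ (Resid_int K w σ hy)
    · have := Resid_stab_lt K w hσ hy h
      rw [hy1] at this
      exact lt_irrefl _ this
  have h2 : w.valuation (σ x) = w.valuation (σ z) := by
    rw [← hxy, map_mul, map_mul, h1, mul_one]
  rw [← ValuationSubring.valuation_le_one_iff, h2, ValuationSubring.valuation_le_one_iff]
  exact mem_of_isIntegral K w _ (Resid_int K w σ hz)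

private theorem Resid_stab_dec [Algebra.IsAlgebraic K Om] (w : ValuationSubring Om)
    {σ : Om ≃ₐ[K] Om}
    (hσ : σ ∈ MulAction.stabilizer (Om ≃ₐ[K] Om) (Resid_Q K w)) : σ ∈ dec K w := by
  rw [mem_dec]
  intro x
  refine ⟨fun h => ?_, fun h => Resid_stab_mem K w hσ h⟩
  have h1 := Resid_stab_mem K w (inv_mem hσ) h
  rwa [← AlgEquiv.mul_apply, inv_mul_cancel, AlgEquiv.one_apply] at h1

theorem exists_residue [IsGalois K Om] (w : ValuationSubring Om)
    (s : ResidueField w ≃+* ResidueField w) (hs : ∀ a, s (resMap K w a) = resMap K w a) :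
    ∃ ρ ∈ dec K w, ∀ (x : Om) (hx : x ∈ w) (hx' : ρ x ∈ w),
      residue w ⟨ρ x, hx'⟩ = s (residue w ⟨x, hx⟩) := by
  let e : (integralClosure (below K w) Om ⧸ Resid_Q K w) ≃+* ResidueField w :=
    RingEquiv.ofBijective (Resid_phi K w) ⟨Resid_phi_inj K w, Resid_phi_surj K w⟩
  have he : ∀ b, e (Ideal.Quotient.mk _ b) = residue w ⟨b, mem_of_isIntegral K w b b.2⟩ :=
    fun b => Resid_phi_mk K w b
  let s' : (integralClosure (below K w) Om ⧸ Resid_Q K w) ≃ₐ[below K w ⧸ maximalIdeal (below K w)]
      (integralClosure (below K w) Om ⧸ Resid_Q K w) :=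
    AlgEquiv.ofRingEquiv (f := (e.trans s).trans e.symm) (fun r => by
      obtain ⟨a, rfl⟩ := Ideal.Quotient.mk_surjective r
      change e.symm (s (e (Ideal.Quotient.mk _ (algebraMap _ _ a)))) =
        Ideal.Quotient.mk _ (algebraMap _ _ a)
      rw [RingEquiv.symm_apply_eq, he]
      have h1 := hs (residue _ a)
      rw [resMap_residue] at h1
      exact h1)
  have hs' : ∀ b, e (s' b) = s (e b) := fun b => by
    change e (e.symm (s (e b))) = _
    rw [RingEquiv.apply_symm_apply]
  obtain ⟨⟨ρ, hρ⟩, hρ'⟩ := Resid_stab K w s'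
  refine ⟨ρ, Resid_stab_dec K w hρ, fun x hx hx' => ?_⟩
  have key : ∀ (y : Om) (hy : IsIntegral (below K w) y),
      residue w ⟨ρ y, mem_of_isIntegral K w _ (Resid_int K w ρ hy)⟩ =
        s (residue w ⟨y, mem_of_isIntegral K w y hy⟩) := by
    intro y hy
    have h1 := DFunLike.congr_fun hρ' (Ideal.Quotient.mk _ ⟨y, hy⟩)
    rw [Ideal.Quotient.stabilizerHom_apply] at h1
    have h2 := congrArg e h1
    rw [hs', he, he] at h2
    exact h2
  obtain ⟨y, z, hy, hz, hxy, hy1, -, -⟩ := prufer K w hx (Algebra.IsAlgebraic.isAlgebraic x)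
  have hyw := mem_of_isIntegral K w y hy
  have hzw := mem_of_isIntegral K w z hz
  have hyw' := mem_of_isIntegral K w _ (Resid_int K w ρ hy)
  have hzw' := mem_of_isIntegral K w _ (Resid_int K w ρ hz)
  have hne : residue w ⟨y, hyw⟩ ≠ 0 := by
    rw [Ne, residue_eq_zero_iff, ValuationSubring.valuation_lt_one_iff]
    change ¬ (w.valuation y < 1)
    rw [hy1]; exact lt_irrefl _
  have h1 : residue w ⟨x, hx⟩ * residue w ⟨y, hyw⟩ = residue w ⟨z, hzw⟩ := by
    rw [← map_mul]
    congr 1
    ext
    exact hxy
  have h2 : residue w ⟨ρ x, hx'⟩ * residue w ⟨ρ y, hyw'⟩ = residue w ⟨ρ z, hzw'⟩ := by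
    rw [← map_mul]
    congr 1
    ext
    change ρ x * ρ y = ρ z
    rw [← map_mul, hxy]
  rw [key y hy, key z hz, ← h1, map_mul] at h2
  exact mul_right_cancel₀ ((map_ne_zero_iff s s.injective).2 hne) h2

end Pool.Agent.Lib.SmD
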