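import Mathlib
import Pool.Agent.Lib.SmD.Defs
import Pool.Agent.Lib.SmD.ResMap
import Pool.Agent.Lib.SmD.Resid

/-!
# Project SMITH, block D, module Frob: Frobenius elements exist

PROOFS.

`exists_frob`. `κ = ResidueField w` is algebraic over the finite field `F = ResidueField (below K w)`
(`res_root`; algebra structure `(resMap K w).toAlgebra`), so `x ↦ x ^ q`, `q = Nat.card F`, is an
`F`-automorphism of `κ` (`FiniteField.frobeniusAlgEquivOfAlgebraic`; it is `Fintype.card`,
convert by `Nat.card_eq_fintype_card`). Apply `exists_residue` and `residue_eq_iff`.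

`frob_pow`. Induction on `n`: `φ ^ (n+1) x - x ^ (q ^ (n+1)) = φ (φ ^ n x - x ^ (q ^ n)) +
(φ (y) - y ^ q)` with `y = x ^ (q ^ n) ∈ w`; valuations `< 1` by `dec_val_lt` and `h.frob`.
-/

open Polynomial IsLocalRing

namespace Pool.Agent.Lib.SmD

variable {K : Type*} {Om : Type*} [Field K] [Field Om] [Algebra K Om]

theorem exists_frob [IsGalois K Om] (w : ValuationSubring Om)
    [Finite (ResidueField (below K w))] : ∃ φ, IsFrob K w φ := by
  letI alg : Algebra (ResidueField (below K w)) (ResidueField w) := (resMap K w).toAlgebra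
  letI ft : Fintype (ResidueField (below K w)) := Fintype.ofFinite _
  haveI halg : Algebra.IsAlgebraic (ResidueField (below K w)) (ResidueField w) := by
    constructor
    intro y
    obtain ⟨⟨x, hx⟩, rfl⟩ := IsLocalRing.residue_surjective y
    obtain ⟨p, hp, -, hroot⟩ := res_root K w hx (Algebra.IsAlgebraic.isAlgebraic x)
    exact ⟨p, hp, by rw [aeval_def]; exact hroot⟩
  obtain ⟨s, hs⟩ : ∃ s : ResidueField w ≃ₐ[ResidueField (below K w)] ResidueField w,
      ∀ y, s y = y ^ resCard (below K w) := by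
    refine ⟨FiniteField.frobeniusAlgEquivOfAlgebraic _ _, fun y => ?_⟩
    rw [resCard, Nat.card_eq_fintype_card]
    rfl
  obtain ⟨φ, hφ, h⟩ := exists_residue K w s.toRingEquiv (fun a => s.commutes a)
  refine ⟨φ, hφ, fun x hx => ?_⟩
  have hx' : φ x ∈ w := ((mem_dec K).1 hφ x).2 hx
  have hxq : x ^ resCard (below K w) ∈ w := pow_mem hx _
  rw [← residue_eq_iff w hx' hxq, h x hx hx']
  show s (residue w ⟨x, hx⟩) = _
  rw [hs, ← map_pow]
  rfl

theorem frob_pow {w : ValuationSubring Om} {φ : Om ≃ₐ[K] Om} (h : IsFrob K w φ) (n : ℕ) {x : Om}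
    (hx : x ∈ w) : w.valuation ((φ ^ n) x - x ^ (resCard (below K w)) ^ n) < 1 := by
  induction n with
  | zero => simp
  | succ n ih =>
    have hy : x ^ (resCard (below K w)) ^ n ∈ w := pow_mem hx _
    have h1 : (φ ^ (n + 1)) x - x ^ (resCard (below K w)) ^ (n + 1) =
        φ ((φ ^ n) x - x ^ (resCard (below K w)) ^ n) +
          (φ (x ^ (resCard (below K w)) ^ n) -
            (x ^ (resCard (below K w)) ^ n) ^ resCard (below K w)) := by
      rw [pow_succ' φ n, AlgEquiv.mul_apply, map_sub, ← pow_mul, ← pow_succ]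
      ring
    rw [h1]
    exact lt_of_le_of_lt (w.valuation.map_add _ _)
      (max_lt ((dec_val_lt K h.mem _).2 ih) (h.frob _ hy))

end Pool.Agent.Lib.SmD
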