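import Mathlib
import Pool.Agent.Lib.SmD.Defs
import Pool.Agent.Lib.SmD.Basic
import Pool.Agent.Lib.SmD.ResMap
import Pool.Agent.Lib.SmD.Frob

/-!
# Project SMITH, block D, module Const: action on the constants

`IsCst p c`: `c ^ (p ^ e) = c` for some `e ≥ 1` (elements of `Om` algebraic over the prime field,
`p` the characteristic). Frobenius elements act on them as `c ↦ c ^ q`, inertia trivially, and an
element of the decomposition group lies in the inertia group iff it fixes all of them.
-/

set_option autoImplicit false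

open IsLocalRing Polynomial

namespace Pool.Agent.Lib.SmD

section cst

variable {Om : Type*} [Field Om] (p : ℕ)

/-- Constants: the elements of `Om` with `c ^ (p ^ e) = c` for some `e ≥ 1`. -/
def IsCst (c : Om) : Prop := ∃ e : ℕ, 0 < e ∧ c ^ (p ^ e) = c

variable {p}

theorem cst_pow_mul {c : Om} {e : ℕ} (h : c ^ (p ^ e) = c) (j : ℕ) : c ^ (p ^ (e * j)) = c := by
  induction j with
  | zero => simp
  | succ j ih =>
    rw [Nat.mul_succ, pow_add, pow_mul, ih, h]

theorem cst_common {c d : Om} (hc : IsCst p c) (hd : IsCst p d) :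
    ∃ e : ℕ, 0 < e ∧ c ^ (p ^ e) = c ∧ d ^ (p ^ e) = d := by
  obtain ⟨e, he, h1⟩ := hc
  obtain ⟨f, hf, h2⟩ := hd
  exact ⟨e * f, Nat.mul_pos he hf, cst_pow_mul h1 f, by rw [mul_comm]; exact cst_pow_mul h2 e⟩

theorem IsCst.sub [Fact p.Prime] [CharP Om p] {c d : Om} (hc : IsCst p c) (hd : IsCst p d) :
    IsCst p (c - d) := by
  obtain ⟨e, he, h1, h2⟩ := cst_common hc hd
  exact ⟨e, he, by rw [sub_pow_char_pow, h1, h2]⟩

theorem IsCst.add [Fact p.Prime] [CharP Om p] {c d : Om} (hc : IsCst p c) (hd : IsCst p d) :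
    IsCst p (c + d) := by
  obtain ⟨e, he, h1, h2⟩ := cst_common hc hd
  exact ⟨e, he, by rw [add_pow_char_pow, h1, h2]⟩

theorem IsCst.mul {c d : Om} (hc : IsCst p c) (hd : IsCst p d) : IsCst p (c * d) := by
  obtain ⟨e, he, h1, h2⟩ := cst_common hc hd
  exact ⟨e, he, by rw [mul_pow, h1, h2]⟩

theorem IsCst.pow {c : Om} (hc : IsCst p c) (n : ℕ) : IsCst p (c ^ n) := by
  obtain ⟨e, he, h1⟩ := hc
  exact ⟨e, he, by rw [← pow_mul, mul_comm, pow_mul, h1]⟩

theorem IsCst.map {Om' F : Type*} [Field Om'] [FunLike F Om Om'] [RingHomClass F Om Om'] (σ : F)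
    {c : Om} (hc : IsCst p c) : IsCst p (σ c) := by
  obtain ⟨e, he, h1⟩ := hc
  exact ⟨e, he, by rw [← map_pow, h1]⟩

/-- Nonzero constants are units at every place. -/
theorem IsCst.val {c : Om} (hp : 1 < p) (hc : IsCst p c) (hc0 : c ≠ 0)
    (w : ValuationSubring Om) : w.valuation c = 1 := by
  obtain ⟨e, he, h1⟩ := hc
  have h2 : 1 < p ^ e := Nat.one_lt_pow he.ne' hp
  obtain ⟨m, hm⟩ : ∃ m, p ^ e = m + 1 := ⟨p ^ e - 1, by omega⟩
  have hm0 : m ≠ 0 := by omega
  rw [hm, pow_succ] at h1
  have h3 : c ^ m = 1 := by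
    have h4 : c ^ m * c = 1 * c := by rw [h1, one_mul]
    exact mul_right_cancel₀ hc0 h4
  have h5 : (w.valuation c) ^ m = 1 := by rw [← map_pow, h3, map_one]
  exact (pow_eq_one_iff.1 h5).resolve_right hm0

theorem IsCst.mem {c : Om} (hp : 1 < p) (hc : IsCst p c) (w : ValuationSubring Om) : c ∈ w := by
  by_cases h : c = 0
  · rw [h]; exact w.zero_mem
  · rw [← ValuationSubring.valuation_le_one_iff, hc.val hp h w]

/-- Constants with the same residue are equal. -/
theorem IsCst.eq_of_val [Fact p.Prime] [CharP Om p] {c d : Om} (hc : IsCst p c) (hd : IsCst p d)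
    {w : ValuationSubring Om} (h : w.valuation (c - d) < 1) : c = d := by
  by_contra hne
  rw [(hc.sub hd).val (Fact.out : p.Prime).one_lt (sub_ne_zero.2 hne) w] at h
  exact lt_irrefl _ h

end cst

section gal

variable {K : Type*} {Om : Type*} [Field K] [Field Om] [Algebra K Om] {p : ℕ} [Fact p.Prime]
  [CharP Om p]

/-- A Frobenius element acts on the constants as `c ↦ c ^ q`. -/
theorem IsFrob.cst {w : ValuationSubring Om} {φ : Om ≃ₐ[K] Om} (h : IsFrob K w φ) {c : Om}
    (hc : IsCst p c) : φ c = c ^ resCard (below K w) :=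
  (hc.map φ).eq_of_val (hc.pow _) (h.frob c (hc.mem (Fact.out : p.Prime).one_lt w))

/-- The inertia group fixes the constants. -/
theorem iner_cst {w : ValuationSubring Om} {σ : Om ≃ₐ[K] Om} (h : σ ∈ iner K w) {c : Om}
    (hc : IsCst p c) : σ c = c :=
  (hc.map σ).eq_of_val hc (h.2 c (hc.mem (Fact.out : p.Prime).one_lt w))

/-- The number of elements of a finite residue field is a power of `p`. -/
theorem resCard_eq_pow {w : ValuationSubring Om} [Finite (ResidueField (below K w))] :
    ∃ s : ℕ, 0 < s ∧ resCard (below K w) = p ^ s := by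
  have hfin : Fintype (ResidueField (below K w)) := Fintype.ofFinite _
  obtain ⟨r, hr⟩ := CharP.exists (ResidueField (below K w))
  have hrp : r.Prime := CharP.char_is_prime (ResidueField (below K w)) r
  obtain ⟨n, -, hn⟩ := FiniteField.card (ResidueField (below K w)) r
  have hpK : ((p : ℕ) : K) = 0 := by
    apply (algebraMap K Om).injective
    rw [map_natCast, map_zero, CharP.cast_eq_zero]
  have hpr : ((p : ℕ) : ResidueField (below K w)) = 0 := by
    have h1 : ((p : ℕ) : below K w) = 0 := by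
      apply Subtype.ext
      change ((p : ℕ) : K) = 0
      exact hpK
    have h2 := congrArg (residue (below K w)) h1
    rwa [map_natCast, map_zero] at h2
  have h3 : r ∣ p := (CharP.cast_eq_zero_iff _ r p).1 hpr
  have h4 : r = p := (Nat.prime_dvd_prime_iff_eq hrp (Fact.out : p.Prime)).1 h3
  refine ⟨n, n.pos, ?_⟩
  rw [resCard, Nat.card_eq_fintype_card, hn, h4]

/-- Every element of `w` algebraic over `K` is congruent to a constant. -/
theorem exists_cst_near [IsSepClosed Om] [Algebra.IsAlgebraic K Om] {w : ValuationSubring Om}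
    [Finite (ResidueField (below K w))] {x : Om} (hx : x ∈ w) :
    ∃ c : Om, IsCst p c ∧ w.valuation (x - c) < 1 := by
  have hxi : IsIntegral K x := Algebra.IsIntegral.isIntegral x
  have hfd : FiniteDimensional K (IntermediateField.adjoin K {x}) :=
    IntermediateField.adjoin.finiteDimensional hxi
  obtain ⟨m, hm, h1⟩ := res_pow K w (IntermediateField.adjoin K {x})
  have h2 := h1 x (IntermediateField.mem_adjoin_simple_self K x) hx
  obtain ⟨s, hs, hq⟩ := resCard_eq_pow (K := K) (w := w) (p := p)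
  rw [hq, ← pow_mul] at h2
  set e := s * m with he
  have he0 : 0 < e := Nat.mul_pos hs hm
  have hp1 : 1 < p := (Fact.out : p.Prime).one_lt
  have hN : 1 < p ^ e := Nat.one_lt_pow he0.ne' hp1
  -- the polynomial X ^ (p ^ e) - X splits in Om
  have hsep : (X ^ (p ^ e) - X : Om[X]).Separable := galois_poly_separable p _ (dvd_pow_self p he0.ne')
  have hspl : (X ^ (p ^ e) - X : Om[X]).Splits := IsSepClosed.splits_of_separable _ hsep
  have hmonic : (X ^ (p ^ e) - X : Om[X]).Monic := by
    refine monic_X_pow_sub ?_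
    rw [degree_X]
    exact_mod_cast hN
  have hprod := hspl.eq_prod_roots_of_monic hmonic
  have hev : (x ^ (p ^ e) - x) = ((X ^ (p ^ e) - X : Om[X]).roots.map fun c => x - c).prod := by
    have h3 := congrArg (Polynomial.eval x) hprod
    rw [eval_multiset_prod] at h3
    simpa [Multiset.map_map] using h3
  rw [hev, map_multiset_prod, Multiset.map_map] at h2
  have hroots : ∀ c ∈ (X ^ (p ^ e) - X : Om[X]).roots, IsCst p c := by
    intro c hc
    rw [mem_roots hmonic.ne_zero, IsRoot.def] at hc
    refine ⟨e, he0, ?_⟩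
    simpa [sub_eq_zero] using hc
  by_contra hcon
  push Not at hcon
  have h5 : ∀ c ∈ (X ^ (p ^ e) - X : Om[X]).roots, w.valuation (x - c) = 1 := by
    intro c hc
    refine le_antisymm ?_ (hcon c (hroots c hc))
    rw [ValuationSubring.valuation_le_one_iff]
    exact sub_mem hx ((hroots c hc).mem hp1 w)
  have h6 : (Multiset.map (⇑w.valuation ∘ fun c => x - c) (X ^ (p ^ e) - X : Om[X]).roots).prod
      = 1 := by
    refine Multiset.prod_eq_one ?_
    intro a ha
    obtain ⟨c, hc, rfl⟩ := Multiset.mem_map.1 ha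
    exact h5 c hc
  rw [h6] at h2
  exact lt_irrefl _ h2

/-- An element of the decomposition group lies in the inertia group iff it fixes the constants. -/
theorem mem_iner_iff_cst [IsSepClosed Om] [Algebra.IsAlgebraic K Om] {w : ValuationSubring Om}
    [Finite (ResidueField (below K w))] {σ : Om ≃ₐ[K] Om} (hσ : σ ∈ dec K w) :
    σ ∈ iner K w ↔ ∀ c : Om, IsCst p c → σ c = c := by
  refine ⟨fun h c hc => iner_cst h hc, fun h => ⟨hσ, fun x hx => ?_⟩⟩
  obtain ⟨c, hc, h1⟩ := exists_cst_near (K := K) (p := p) hx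
  have h2 : σ x - x = σ (x - c) - (x - c) := by
    rw [map_sub, h c hc]; ring
  rw [h2]
  exact lt_of_le_of_lt (w.valuation.map_sub _ _) (max_lt ((dec_val_lt K hσ _).2 h1) h1)

end gal

end Pool.Agent.Lib.SmD
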