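import Pool.Agent.Lib.SmD.LocDvr

/-!
SMITH, block D, D5: values of the quadratic characters at tame inertia and Frobenius elements.
-/

set_option autoImplicit false

namespace Pool.Agent.Lib.SmD

variable {K Om : Type*} [Field K] [Field Om] [Algebra K Om] {w : ValuationSubring Om} {π : K}

lemma zmod2_ne_zero_iff (a : ZMod 2) : a ≠ 0 ↔ a = 1 := by
  revert a
  decide

/-- `chi` in terms of the root: `σ y = (-1) ^ chi y` -/
lemma chi_one (σ : Om ≃ₐ[K] Om) : chi K (1 : K) σ = 0 :=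
  chi_eq_zero_of_root 1 σ (y := 1) (by simp) (by simp)

lemma chi_sq (f : K) (σ : Om ≃ₐ[K] Om) : chi K (f ^ 2) σ = 0 :=
  chi_eq_zero_of_root (f ^ 2) σ (y := algebraMap K Om f) (by simp) (by simp)

variable [IsSepClosed Om]

lemma chi_inv_left (h2 : (2 : Om) ≠ 0) {f : K} (hf : f ≠ 0) (σ : Om ≃ₐ[K] Om) :
    chi K f⁻¹ σ = chi K f σ := by
  have h1 : f⁻¹ = f * (f⁻¹) ^ 2 := by field_simp
  rw [h1, chi_mul_left h2 hf (pow_ne_zero 2 (inv_ne_zero hf)), chi_sq, add_zero]

lemma chi_div_left (h2 : (2 : Om) ≠ 0) {f g : K} (hf : f ≠ 0) (hg : g ≠ 0) (σ : Om ≃ₐ[K] Om) :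
    chi K (f / g) σ = chi K f σ + chi K g σ := by
  rw [div_eq_mul_inv, chi_mul_left h2 hf (inv_ne_zero hg), chi_inv_left h2 hg]

lemma chi_pow_left (h2 : (2 : Om) ≠ 0) {f : K} (hf : f ≠ 0) (n : ℕ) (σ : Om ≃ₐ[K] Om) :
    chi K (f ^ n) σ = (n : ZMod 2) * chi K f σ := by
  induction n with
  | zero => rw [pow_zero, chi_one, Nat.cast_zero, zero_mul]
  | succ n ih =>
    rw [pow_succ, chi_mul_left h2 (pow_ne_zero n hf) hf, ih, Nat.cast_succ, add_mul, one_mul]

theorem chi_zpow (h2 : (2 : Om) ≠ 0) {f : K} (hf : f ≠ 0) (n : ℤ) (σ : Om ≃ₐ[K] Om) :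
    chi K (f ^ n) σ = (n : ZMod 2) * chi K f σ := by
  obtain ⟨m, rfl | rfl⟩ := n.eq_nat_or_neg
  · rw [zpow_natCast, chi_pow_left h2 hf, Int.cast_natCast]
  · rw [zpow_neg, zpow_natCast, chi_inv_left h2 (pow_ne_zero m hf), chi_pow_left h2 hf,
      Int.cast_neg, Int.cast_natCast, ZMod.neg_eq_self_mod_two]

/-- changing `f` by a square does not change `chi f` -/
lemma chi_mul_sq (h2 : (2 : Om) ≠ 0) {f a : K} (hf : f ≠ 0) (ha : a ≠ 0) (σ : Om ≃ₐ[K] Om) :
    chi K (f * a ^ 2) σ = chi K f σ := by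
  rw [chi_mul_left h2 hf (pow_ne_zero 2 ha), chi_sq, add_zero]

lemma chi_mul_pow (h2 : (2 : Om) ≠ 0) {f : K} (hf : f ≠ 0) (n : ℕ) (σ : Om ≃ₐ[K] Om) :
    chi K f (σ ^ n) = (n : ZMod 2) * chi K f σ := by
  induction n with
  | zero =>
    obtain ⟨y, hy⟩ := exists_sqrt h2 (algebraMap K Om f)
    rw [pow_zero, Nat.cast_zero, zero_mul, chi_eq_zero_iff f _ hy, AlgEquiv.one_apply]
  | succ n ih => rw [pow_succ, chi_mul h2 hf, ih, Nat.cast_succ, add_mul, one_mul]

/-- the tame inertia element detects the parity of the valuation -/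
theorem chi_sg (h : LocHyp K w π) {σ : Om ≃ₐ[K] Om} (hσ : IsSg K w π σ) {f : K} {n : ℤ}
    (hf : w.valuation (algebraMap K Om f) = (w.valuation (algebraMap K Om π)) ^ n) :
    chi K f σ = (n : ZMod 2) := by
  have hf0 : f ≠ 0 := by
    rintro rfl
    rw [map_zero, map_zero] at hf
    exact (zpow_ne_zero n h.pi_pos.ne') hf.symm
  obtain ⟨m, u, hu, hu1⟩ := h.exists_eq hf0
  have hu0 : u ≠ 0 := by
    rintro rfl
    exact hf0 (by rw [hu, mul_zero])
  have hmn : m = n := by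
    apply h.zpow_inj
    rw [← hf, hu, map_mul, map_mul, hu1, mul_one, map_zpow₀, map_zpow₀]
  subst hmn
  rw [hu, chi_mul_left h.two_ne (zpow_ne_zero m h.pi_ne) hu0, chi_zpow h.two_ne h.pi_ne,
    chi_iner_unit h.two hσ.1 hu1, add_zero, hσ.2, mul_one]

/-- the value at an element of the inertia group -/
theorem chi_iner (h : LocHyp K w π) {σ : Om ≃ₐ[K] Om} (hσ : σ ∈ iner K w) {f : K} {n : ℤ}
    (hf : w.valuation (algebraMap K Om f) = (w.valuation (algebraMap K Om π)) ^ n) :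
    chi K f σ = (n : ZMod 2) * chi K π σ := by
  rcases eq_or_ne (chi K π σ) 0 with h0 | h0
  · have hf0 : f ≠ 0 := by
      rintro rfl
      rw [map_zero, map_zero] at hf
      exact (zpow_ne_zero n h.pi_pos.ne') hf.symm
    obtain ⟨m, u, hu, hu1⟩ := h.exists_eq hf0
    have hu0 : u ≠ 0 := by
      rintro rfl
      exact hf0 (by rw [hu, mul_zero])
    rw [hu, chi_mul_left h.two_ne (zpow_ne_zero m h.pi_ne) hu0, chi_zpow h.two_ne h.pi_ne,
      chi_iner_unit h.two hσ hu1, add_zero, h0, mul_zero, mul_zero]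
  · rw [zmod2_ne_zero_iff] at h0
    rw [h0, mul_one]
    exact chi_sg h ⟨hσ, h0⟩ hf

/-- value of `chi` of a unit at a Frobenius element -/
theorem chi_frob (h : LocHyp K w π) {φ : Om ≃ₐ[K] Om} (hφ : IsFrob K w φ) {f : K}
    (hf : w.valuation (algebraMap K Om f) = 1) :
    chi K f φ = 0 ↔ ∃ a : K, w.valuation (algebraMap K Om (f - a ^ 2)) < 1 := by
  rw [chi_frob_iff h.two h.fin hφ hf]
  have hfm : f ∈ below K w := mem_below_iff.mpr hf.le
  have hkey : ∀ a : K, ∀ ha : a ∈ below K w,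
      IsLocalRing.residue (below K w) ⟨f, hfm⟩ =
        IsLocalRing.residue (below K w) ⟨a, ha⟩ * IsLocalRing.residue (below K w) ⟨a, ha⟩ ↔
      w.valuation (algebraMap K Om (f - a ^ 2)) < 1 := by
    intro a ha
    have e1 : (⟨f, hfm⟩ - ⟨a, ha⟩ * ⟨a, ha⟩ : below K w) =
        ⟨f - a ^ 2, sub_mem hfm (pow_mem ha 2)⟩ :=
      Subtype.ext (by change f - a * a = f - a ^ 2; ring)
    rw [← residue_eq_zero_iff_val (sub_mem hfm (pow_mem ha 2)), ← map_mul, ← sub_eq_zero,
      ← map_sub, e1]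
  constructor
  · rintro ⟨r, hr⟩
    obtain ⟨⟨a, ha⟩, rfl⟩ := IsLocalRing.residue_surjective r
    exact ⟨a, (hkey a ha).mp hr⟩
  · rintro ⟨a, ha⟩
    have ham : a ∈ below K w := by
      rw [mem_below_iff]
      by_contra hc
      rw [not_le] at hc
      have h1 : w.valuation (algebraMap K Om f) < w.valuation (algebraMap K Om (a ^ 2)) := by
        rw [hf, map_pow, map_pow]
        exact one_lt_pow₀ hc two_ne_zero
      rw [map_sub, Valuation.map_sub_swap, Valuation.map_sub_eq_of_lt_left _ h1, map_pow,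
        map_pow] at ha
      exact absurd ha (not_lt.mpr (one_lt_pow₀ hc two_ne_zero).le)
    exact ⟨_, (hkey a ham).mpr ha⟩

omit [IsSepClosed Om] in
/-- there are units which are not squares modulo the place -/
theorem exists_nonsq (h : LocHyp K w π) :
    ∃ u : K, w.valuation (algebraMap K Om u) = 1 ∧
      ¬ ∃ a : K, w.valuation (algebraMap K Om (u - a ^ 2)) < 1 := by
  have := h.fin
  have hchar := ringChar_residue (K := K) h.two
  obtain ⟨r, hr⟩ := FiniteField.exists_nonsquare hchar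
  obtain ⟨⟨u, hu⟩, rfl⟩ := IsLocalRing.residue_surjective r
  have hu1 : w.valuation (algebraMap K Om u) = 1 := by
    rw [← isUnit_below_iff hu, ← IsLocalRing.residue_ne_zero_iff_isUnit]
    intro h0
    exact hr (by rw [h0]; exact ⟨0, by rw [mul_zero]⟩)
  refine ⟨u, hu1, ?_⟩
  rintro ⟨a, ha⟩
  have ham : a ∈ below K w := by
    rw [mem_below_iff]
    by_contra hc
    rw [not_le] at hc
    have h1 : w.valuation (algebraMap K Om u) < w.valuation (algebraMap K Om (a ^ 2)) := by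
      rw [hu1, map_pow, map_pow]
      exact one_lt_pow₀ hc two_ne_zero
    rw [map_sub, Valuation.map_sub_swap, Valuation.map_sub_eq_of_lt_left _ h1, map_pow,
      map_pow] at ha
    exact absurd ha (not_lt.mpr (one_lt_pow₀ hc two_ne_zero).le)
  apply hr
  refine ⟨IsLocalRing.residue (below K w) ⟨a, ham⟩, ?_⟩
  have e1 : (⟨u, hu⟩ - ⟨a, ham⟩ * ⟨a, ham⟩ : below K w) =
      ⟨u - a ^ 2, sub_mem hu (pow_mem ham 2)⟩ :=
    Subtype.ext (by change u - a * a = u - a ^ 2; ring)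
  rw [← map_mul, ← sub_eq_zero, ← map_sub, e1]
  exact (residue_eq_zero_iff_val (w := w) (sub_mem hu (pow_mem ham 2))).mpr ha

/-- all pairs of values at the tame inertia element and the Frobenius element occur -/
theorem chi_pair (h : LocHyp K w π) {σ φ : Om ≃ₐ[K] Om} (hσ : IsSg K w π σ)
    (hφ : IsFrob K w φ) (i j : ZMod 2) :
    ∃ f : K, f ≠ 0 ∧ chi K f σ = i ∧ chi K f φ = j := by
  obtain ⟨u, hu1, hu⟩ := exists_nonsq h
  have hu0 : u ≠ 0 := by
    rintro rfl
    rw [map_zero, map_zero] at hu1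
    exact zero_ne_one hu1
  have huφ : chi K u φ = 1 := by
    rw [← zmod2_ne_zero_iff, Ne, chi_frob h hφ hu1]
    exact hu
  have huσ : chi K u σ = 0 := chi_iner_unit h.two hσ.1 hu1
  have h01 : ∀ a : ZMod 2, a = 0 ∨ a = 1 := by decide
  have h11 : (1 : ZMod 2) + 1 = 0 := by decide
  have key : ∀ i j : ZMod 2, ∀ f : K, f ≠ 0 → chi K f σ = i →
      ∃ f : K, f ≠ 0 ∧ chi K f σ = i ∧ chi K f φ = j := by
    intro i j f hf hfi
    rcases eq_or_ne (chi K f φ) j with hj | hj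
    · exact ⟨f, hf, hfi, hj⟩
    · refine ⟨f * u, mul_ne_zero hf hu0, ?_, ?_⟩
      · rw [chi_mul_left h.two_ne hf hu0, hfi, huσ, add_zero]
      · rw [chi_mul_left h.two_ne hf hu0, huφ]
        revert hj
        generalize chi K f φ = a
        revert a j
        decide
  rcases h01 i with rfl | rfl
  · exact key 0 j 1 one_ne_zero (chi_one σ)
  · exact key 1 j π h.pi_ne hσ.2

end Pool.Agent.Lib.SmD
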