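import Mathlib
import Pool.Agent.Lib.SmD.Defs
import Pool.Agent.Lib.SmD.Prim

/-!
# Project SMITH, block D, module Conj: places of `Om` above a place of `K` are conjugate

PROOF. `A := below K w` (a ring, `IsIntegrallyClosed`), `B := integralClosure A Om`, on which
`G = Om ≃ₐ[K] Om` acts (Mathlib instance `MulSemiringAction G (integralClosure A Om)`), profinite
with continuous action on discrete `B` (`krullTopology`: compact, totally disconnected; instance
check `CompactSpace`, `TotallyDisconnectedSpace`; `ContinuousSMul G B` with `TopologicalSpace B := ⊥`: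
stabilizers are open). `Algebra.IsInvariant A B G`: a fixed `b` lies in `K`
(`InfiniteGalois.fixedField_bot` / `mem_bot_iff_fixed`) and is integral over `A`, so in `A`.
`Q := {b | w.valuation b < 1}`, `Q' := {b | w'.valuation b < 1}` are prime ideals of `B`
(elements of `B` lie in `w` and in `w'`: `mem_of_isIntegral`, using `below K w = below K w'`), both
with `Q ∩ A = m_A` (`a ∈ A`: `w (a) < 1 ↔ a = 0 or a⁻¹ ∉ A`, the same for `w'`). Mathlib
`Algebra.IsInvariant.exists_smul_of_under_eq_of_profinite` gives `σ` with `Q' = σ • Q`, i.e.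
`w'.valuation (σ b) < 1 ↔ w.valuation b < 1` for `b ∈ B`.
Claim `x ∈ w → σ x ∈ w'`: by `prufer`, `x * y = z`, `y, z ∈ B`, `w y = 1`; so
`σ x * σ y = σ z`, `σ z ∈ B ⊆ w'`, and `w' (σ y) = 1` (it is `≤ 1` and not `< 1`), hence
`w' (σ x) = w' (σ z) ≤ 1`. Conversely `σ x ∈ w' → x ∈ w`: same argument with `σ⁻¹`, exchanging
`w` and `w'`.
-/

namespace Pool.Agent.Lib.SmD

variable (K : Type*) {Om : Type*} [Field K] [Field Om] [Algebra K Om]

private theorem Conj_cont [IsGalois K Om] (w : ValuationSubring Om)
    (b : integralClosure (below K w) Om) (c : integralClosure (below K w) Om) :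
    IsOpen {g : Om ≃ₐ[K] Om | g • b = c} := by
  rw [isOpen_iff_mem_nhds]
  intro g hg
  let L : IntermediateField K Om := IntermediateField.adjoin K {(b : Om)}
  have hfin : FiniteDimensional K L :=
    IntermediateField.adjoin.finiteDimensional (Algebra.IsIntegral.isIntegral (b : Om))
  have hopen : IsOpen (L.fixingSubgroup : Set (Om ≃ₐ[K] Om)) := L.fixingSubgroup_isOpen
  have h1 : (fun t : Om ≃ₐ[K] Om => g * t) '' (L.fixingSubgroup : Set (Om ≃ₐ[K] Om)) ∈ nhds g := by
    apply (isOpenMap_mul_left g _ hopen).mem_nhds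
    exact ⟨1, L.fixingSubgroup.one_mem, mul_one g⟩
  refine Filter.mem_of_superset h1 ?_
  rintro _ ⟨t, ht, rfl⟩
  have h2 : t • b = b := by
    apply Subtype.ext
    have h3 : t (b : Om) = (b : Om) := by
      have h4 := (IntermediateField.mem_fixingSubgroup_iff L t).1 ht (b : Om)
        (IntermediateField.mem_adjoin_simple_self K (b : Om))
      exact h4
    exact h3
  change (g * t) • b = c
  rw [mul_smul, h2]
  exact hg

private theorem Conj_inv [IsGalois K Om] (w : ValuationSubring Om) :
    Algebra.IsInvariant (below K w) (integralClosure (below K w) Om) (Om ≃ₐ[K] Om) := by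
  constructor
  intro b hb
  have h1 : ∀ f : Om ≃ₐ[K] Om, f (b : Om) = (b : Om) := fun f => congrArg Subtype.val (hb f)
  have h2 : (b : Om) ∈ (⊥ : IntermediateField K Om) := (InfiniteGalois.mem_bot_iff_fixed _).2 h1
  obtain ⟨a, ha⟩ := IntermediateField.mem_bot.1 h2
  have h3 : (b : Om) ∈ w := mem_of_isIntegral K w _ b.2
  rw [← ha] at h3
  exact ⟨⟨a, h3⟩, Subtype.ext ha⟩

private theorem Conj_step (w w' : ValuationSubring Om) (g : Om ≃ₐ[K] Om)
    (hB : ∀ y, IsIntegral (below K w) y → w'.valuation (g y) < 1 → w.valuation y < 1)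
    (hm : ∀ y, IsIntegral (below K w) y → g y ∈ w') {x : Om} (hx : x ∈ w)
    (halg : IsAlgebraic K x) : g x ∈ w' := by
  obtain ⟨y, z, hy, hz, hxy, hvy, _, _⟩ := prufer K w hx halg
  have h1 : w'.valuation (g y) = 1 := by
    refine le_antisymm ((w'.valuation_le_one_iff _).2 (hm y hy)) (not_lt.1 fun h => ?_)
    exact absurd (hB y hy h) (by rw [hvy]; exact lt_irrefl _)
  rw [← ValuationSubring.valuation_le_one_iff]
  have h2 : w'.valuation (g x) = w'.valuation (g z) := by
    rw [← hxy, map_mul, map_mul, h1, mul_one]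
  rw [h2, ValuationSubring.valuation_le_one_iff]
  exact hm z hz

private theorem Conj_lt (w w' : ValuationSubring Om) (h : below K w = below K w') (a : K) :
    w.valuation (algebraMap K Om a) < 1 ↔ w'.valuation (algebraMap K Om a) < 1 := by
  rw [← ValuationSubring.mem_nonunits_iff, ← ValuationSubring.mem_nonunits_iff,
    ValuationSubring.mem_nonunits_iff_or, ValuationSubring.mem_nonunits_iff_or, ← map_inv₀]
  have h1 : algebraMap K Om a⁻¹ ∈ w ↔ algebraMap K Om a⁻¹ ∈ w' := by
    have h2 : a⁻¹ ∈ below K w ↔ a⁻¹ ∈ below K w' := by rw [h]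
    exact h2
  rw [h1]

theorem conj [IsGalois K Om] (w w' : ValuationSubring Om) (h : below K w = below K w') :
    ∃ σ : Om ≃ₐ[K] Om, ∀ x, σ x ∈ w' ↔ x ∈ w := by
  have key : ∀ y : Om, IsIntegral (below K w) y → IsIntegral (below K w') y := fun y hy => by
    rw [h] at hy; exact hy
  have key' : ∀ y : Om, IsIntegral (below K w') y → IsIntegral (below K w) y := fun y hy => by
    rw [← h] at hy; exact hy
  have hw : ∀ b : integralClosure (below K w) Om, (b : Om) ∈ w :=
    fun b => mem_of_isIntegral K w _ b.2
  have hw' : ∀ b : integralClosure (below K w) Om, (b : Om) ∈ w' :=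
    fun b => mem_of_isIntegral K w' _ (key _ b.2)
  let f : integralClosure (below K w) Om →+* w :=
    ((integralClosure (below K w) Om).val.toRingHom).codRestrict w hw
  let f' : integralClosure (below K w) Om →+* w' :=
    ((integralClosure (below K w) Om).val.toRingHom).codRestrict w' hw'
  let P : Ideal (integralClosure (below K w) Om) := (IsLocalRing.maximalIdeal w).comap f
  let Q : Ideal (integralClosure (below K w) Om) := (IsLocalRing.maximalIdeal w').comap f'
  have hP : ∀ b : integralClosure (below K w) Om, b ∈ P ↔ w.valuation (b : Om) < 1 := by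
    intro b
    exact w.valuation_lt_one_iff (f b)
  have hQ : ∀ b : integralClosure (below K w) Om, b ∈ Q ↔ w'.valuation (b : Om) < 1 := by
    intro b
    exact w'.valuation_lt_one_iff (f' b)
  have hPp : P.IsPrime := Ideal.comap_isPrime _ _
  have hQp : Q.IsPrime := Ideal.comap_isPrime _ _
  have hPQ : P.under (below K w) = Q.under (below K w) := by
    ext a
    have h1 : a ∈ P.under (below K w) ↔ w.valuation (algebraMap K Om (a : K)) < 1 :=
      hP (algebraMap (below K w) (integralClosure (below K w) Om) a)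
    have h2 : a ∈ Q.under (below K w) ↔ w'.valuation (algebraMap K Om (a : K)) < 1 :=
      hQ (algebraMap (below K w) (integralClosure (below K w) Om) a)
    rw [h1, h2]
    exact Conj_lt K w w' h (a : K)
  let _ : TopologicalSpace (integralClosure (below K w) Om) := ⊥
  have : DiscreteTopology (integralClosure (below K w) Om) := ⟨rfl⟩
  have : ContinuousSMul (Om ≃ₐ[K] Om) (integralClosure (below K w) Om) := by
    constructor
    rw [continuous_prod_of_discrete_right]
    intro b
    rw [continuous_discrete_rng]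
    intro c
    exact Conj_cont K w b c
  have := Conj_inv K w
  obtain ⟨g, hg⟩ := Algebra.IsInvariant.exists_smul_of_under_eq_of_profinite
    (A := below K w) (G := Om ≃ₐ[K] Om) P Q hPQ
  have hiff : ∀ y : Om, IsIntegral (below K w) y →
      (w'.valuation (g y) < 1 ↔ w.valuation y < 1) := by
    intro y hy
    have h1 := hQ (g • (⟨y, hy⟩ : integralClosure (below K w) Om))
    have h2 := hP ⟨y, hy⟩
    have h3 : g • (⟨y, hy⟩ : integralClosure (below K w) Om) ∈ Q ↔
        (⟨y, hy⟩ : integralClosure (below K w) Om) ∈ P := by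
      rw [hg]
      exact Ideal.smul_mem_pointwise_smul_iff
    rw [h2] at h3
    rw [h1] at h3
    exact h3
  have hint : ∀ (t : Om ≃ₐ[K] Om) (y : Om), IsIntegral (below K w) y →
      IsIntegral (below K w) (t y) := fun t y hy =>
    (t • (⟨y, hy⟩ : integralClosure (below K w) Om)).2
  have halg : ∀ x : Om, IsAlgebraic K x := fun x => Algebra.IsAlgebraic.isAlgebraic x
  refine ⟨g, fun x => ⟨fun hx => ?_, fun hx => ?_⟩⟩
  · have h1 := Conj_step K w' w g⁻¹ (fun y hy hlt => ?_) (fun y hy => ?_) hx (halg _)
    · have h2 : g⁻¹ (g x) = x := by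
        rw [← AlgEquiv.mul_apply, inv_mul_cancel, AlgEquiv.one_apply]
      rwa [h2] at h1
    · have h2 := (hiff (g⁻¹ y) (hint _ _ (key' y hy))).2 hlt
      rwa [← AlgEquiv.mul_apply, mul_inv_cancel, AlgEquiv.one_apply] at h2
    · exact mem_of_isIntegral K w _ (hint _ _ (key' y hy))
  · exact Conj_step K w w' g (fun y hy => (hiff y hy).1)
      (fun y hy => mem_of_isIntegral K w' _ (key _ (hint g y hy))) hx (halg _)

end Pool.Agent.Lib.SmD
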