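import Mathlib
import Pool.Agent.Lib.SmD.Defs
import Pool.Agent.Lib.SmD.Conj
import Pool.Agent.Lib.SmD.ResMap
import Pool.Agent.Lib.SmD.Resid
import Pool.Agent.Lib.SmD.Frob

/-!
# Project SMITH, block D, module Lift: passage to a normal subextension `M / K`

`onM K M w` is the place of `M` below `w`.

PROOFS.

`restrict_dec`, `restrict_iner`, `restrict_frob`: immediate from the definitions, with
`w.valuation (algebraMap M Om x) < 1 ↔ (onM K M w).valuation x < 1` (`onM_val_lt`, from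
`ValuationSubring.mem_nonunits_iff_or`: `x = 0 ∨ x⁻¹ ∉ _`) and `below K w = below K (onM K M w)`
(definitional up to `IsScalarTower`, `ValuationSubring.comap_comap`).

`lift_dec`: `σ0 := AlgEquiv.liftNormal τ Om` extends `τ`. The places `w` and
`w' = σ0 • w = {x | σ0⁻¹ x ∈ w}` have the same restriction to `M`: for `m : M`,
`m ∈ w' ↔ τ⁻¹ m ∈ onM ↔ m ∈ onM`. `conj M w' w` (base field `M`; `IsGalois M Om` is an instance) gives
`ρ : Om ≃ₐ[M] Om` with `ρ x ∈ w ↔ x ∈ w'`. `σ := (ρ.restrictScalars K) * σ0` : `σ x ∈ w ↔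
σ0 x ∈ w' ↔ x ∈ w` and `σ = τ` on `M`.

`lift_iner`: `σ1 ∈ dec K w` from `lift_dec`, `s` its residue action (`exists_resAct`). For
`a ∈ below M w`: `σ1 a = τ a ≡ a`, so `s` fixes `resMap M w _`; `exists_residue M w s` gives
`ρ ∈ dec M w` with residue action `s`. `σ := σ1 * (ρ.restrictScalars K)⁻¹` has trivial residue
action, so lies in `iner K w`, and equals `τ` on `M`.

`lift_frob`: `σ1 ∈ dec K w` lifting `τ`, `φ` any Frobenius (`exists_frob`), `s` the residue action of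
`σ1⁻¹ * φ`; it fixes the residues of `M` (both act as the `q`-th power there), so
`ρ ∈ dec M w` with residue action `s`, `σ := σ1 * ρ` acts as `φ` on the residue field.
-/

open IsLocalRing

namespace Pool.Agent.Lib.SmD

variable (K : Type*) {Om : Type*} [Field K] [Field Om] [Algebra K Om]
variable (M : IntermediateField K Om)

/-- The place of `M` below `w`. -/
abbrev onM (w : ValuationSubring Om) : ValuationSubring M := w.comap (algebraMap M Om)

theorem onM_val_lt (w : ValuationSubring Om) (x : M) :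
    (onM K M w).valuation x < 1 ↔ w.valuation (x : Om) < 1 := by
  rw [← ValuationSubring.mem_nonunits_iff, ← ValuationSubring.mem_nonunits_iff,
    ValuationSubring.mem_nonunits_iff_or, ValuationSubring.mem_nonunits_iff_or]
  constructor
  · rintro (h | h)
    · left; rw [h]; rfl
    · right
      intro h1
      exact h h1
  · rintro (h | h)
    · left
      exact Subtype.ext h
    · right
      intro h1
      exact h h1

theorem onM_mem (w : ValuationSubring Om) (x : M) : x ∈ onM K M w ↔ (x : Om) ∈ w := Iff.rfl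

theorem below_onM (w : ValuationSubring Om) : below K (onM K M w) = below K w := rfl

theorem restrictScalars_mem_dec (w : ValuationSubring Om) (ρ : Om ≃ₐ[M] Om) :
    ρ.restrictScalars K ∈ dec K w ↔ ρ ∈ dec M w := by
  rw [mem_dec, mem_dec]
  exact Iff.rfl

theorem restrict_dec (w : ValuationSubring Om) {σ : Om ≃ₐ[K] Om} (h : σ ∈ dec K w)
    {τ : M ≃ₐ[K] M} (hτ : ∀ x : M, (τ x : Om) = σ x) : τ ∈ dec K (onM K M w) := by
  rw [mem_dec] at h ⊢
  intro x
  rw [onM_mem, onM_mem, hτ]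
  exact h x

theorem restrict_iner (w : ValuationSubring Om) {σ : Om ≃ₐ[K] Om} (h : σ ∈ iner K w)
    {τ : M ≃ₐ[K] M} (hτ : ∀ x : M, (τ x : Om) = σ x) : τ ∈ iner K (onM K M w) := by
  refine ⟨restrict_dec K M w h.1 hτ, fun x hx => ?_⟩
  rw [onM_val_lt]
  have h1 := h.2 (x : Om) hx
  have h2 : ((τ x - x : M) : Om) = σ x - x := by
    rw [← hτ]; rfl
  rw [h2]
  exact h1

theorem restrict_frob (w : ValuationSubring Om) {σ : Om ≃ₐ[K] Om} (h : IsFrob K w σ)
    {τ : M ≃ₐ[K] M} (hτ : ∀ x : M, (τ x : Om) = σ x) : IsFrob K (onM K M w) τ := by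
  refine ⟨restrict_dec K M w h.1 hτ, fun x hx => ?_⟩
  rw [onM_val_lt, below_onM]
  have h1 := h.2 (x : Om) hx
  have h2 : ((τ x - x ^ resCard (below K w) : M) : Om) = σ x - (x : Om) ^ resCard (below K w) := by
    rw [← hτ]; rfl
  rw [h2]
  exact h1

theorem lift_dec [IsGalois K Om] (w : ValuationSubring Om) {τ : M ≃ₐ[K] M}
    (h : τ ∈ dec K (onM K M w)) : ∃ σ ∈ dec K w, ∀ x : M, (τ x : Om) = σ x := by
  let σ0 : Om ≃ₐ[K] Om := AlgEquiv.liftNormal τ Om
  have h0 : ∀ x : M, σ0 (x : Om) = (τ x : Om) := fun x => AlgEquiv.liftNormal_commutes τ Om x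
  let w' : ValuationSubring Om := w.comap (σ0.symm : Om →+* Om)
  have hw' : ∀ x, x ∈ w' ↔ σ0.symm x ∈ w := fun x => Iff.rfl
  have hb : below M w' = below M w := by
    ext m
    have e1 : m ∈ below M w' ↔ σ0.symm (m : Om) ∈ w := Iff.rfl
    have e2 : m ∈ below M w ↔ (m : Om) ∈ w := Iff.rfl
    rw [e1, e2]
    have e3 : σ0.symm (m : Om) = ((τ.symm m : M) : Om) := by
      rw [AlgEquiv.symm_apply_eq, h0, AlgEquiv.apply_symm_apply]
    rw [e3]
    have e4 := (mem_dec K).1 h (τ.symm m)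
    rw [AlgEquiv.apply_symm_apply, onM_mem, onM_mem] at e4
    exact e4.symm
  obtain ⟨ρ, hρ⟩ := conj M w' w hb
  refine ⟨ρ.restrictScalars K * σ0, ?_, ?_⟩
  · rw [mem_dec]
    intro x
    have e1 : (ρ.restrictScalars K * σ0) x = ρ (σ0 x) := rfl
    rw [e1, hρ, hw', AlgEquiv.symm_apply_apply]
  · intro x
    have e1 : (ρ.restrictScalars K * σ0) (x : Om) = ρ (σ0 x) := rfl
    rw [e1, h0]
    exact (ρ.commutes (τ x)).symm

/-- Equality of residues survives an automorphism of the decomposition group. -/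
theorem lift_aux [IsGalois K Om] (w : ValuationSubring Om) {σ2 : Om ≃ₐ[K] Om}
    (h2 : σ2 ∈ dec K w) (hfix : ∀ x : M, (x : Om) ∈ w → w.valuation (σ2 x - x) < 1) :
    ∃ ρ : Om ≃ₐ[M] Om, ρ ∈ dec M w ∧ ∀ x ∈ w, w.valuation (ρ x - σ2 x) < 1 := by
  obtain ⟨s, hs⟩ := exists_resAct K h2
  have hs' : ∀ a, s (resMap M w a) = resMap M w a := by
    intro a
    obtain ⟨m, rfl⟩ := residue_surjective a
    rw [resMap_residue, hs, residue_eq_iff]
    exact hfix m m.2
  obtain ⟨ρ, hρ, hρs⟩ := exists_residue M w s hs'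
  refine ⟨ρ, hρ, fun x hx => ?_⟩
  have hx' : ρ x ∈ w := ((mem_dec M).1 hρ x).2 hx
  have e := hρs x hx hx'
  rw [hs x hx, residue_eq_iff] at e
  exact e

theorem lift_iner [IsGalois K Om] (w : ValuationSubring Om) {τ : M ≃ₐ[K] M}
    (h : τ ∈ iner K (onM K M w)) : ∃ σ ∈ iner K w, ∀ x : M, (τ x : Om) = σ x := by
  obtain ⟨σ1, h1, hτ1⟩ := lift_dec K M w h.1
  have hfix : ∀ x : M, (x : Om) ∈ w → w.valuation (σ1 x - x) < 1 := by
    intro x hx
    have e := h.2 x hx
    rw [onM_val_lt] at e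
    have e2 : ((τ x - x : M) : Om) = σ1 x - x := by
      rw [← hτ1]; rfl
    rwa [e2] at e
  obtain ⟨ρ, hρ, hρx⟩ := lift_aux K M w h1 hfix
  have hρK : ρ.restrictScalars K ∈ dec K w := (restrictScalars_mem_dec K M w ρ).2 hρ
  have hcomm : ∀ x : M, (ρ.restrictScalars K)⁻¹ (x : Om) = x := by
    intro x
    have e : (ρ.restrictScalars K) (x : Om) = x := ρ.commutes x
    rw [← e, ← AlgEquiv.mul_apply, inv_mul_cancel, AlgEquiv.one_apply, e]
  refine ⟨σ1 * (ρ.restrictScalars K)⁻¹,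
    ⟨(dec K w).mul_mem h1 ((dec K w).inv_mem hρK), ?_⟩, ?_⟩
  · intro x hx
    have hy : (ρ.restrictScalars K)⁻¹ x ∈ w :=
      ((mem_dec K).1 ((dec K w).inv_mem hρK) x).2 hx
    have e := hρx _ hy
    have e2 : ρ ((ρ.restrictScalars K)⁻¹ x) = x := by
      change (ρ.restrictScalars K) ((ρ.restrictScalars K)⁻¹ x) = x
      rw [← AlgEquiv.mul_apply, mul_inv_cancel, AlgEquiv.one_apply]
    rw [e2, Valuation.map_sub_swap] at e
    exact e
  · intro x
    rw [AlgEquiv.mul_apply, hcomm, hτ1]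

theorem lift_frob [IsGalois K Om] (w : ValuationSubring Om) [Finite (ResidueField (below K w))]
    {τ : M ≃ₐ[K] M} (h : IsFrob K (onM K M w) τ) :
    ∃ σ, IsFrob K w σ ∧ ∀ x : M, (τ x : Om) = σ x := by
  obtain ⟨σ1, h1, hτ1⟩ := lift_dec K M w h.1
  obtain ⟨φ, hφ⟩ := exists_frob w (K := K)
  have h1' : σ1⁻¹ ∈ dec K w := (dec K w).inv_mem h1
  have h2 : σ1⁻¹ * φ ∈ dec K w := (dec K w).mul_mem h1' hφ.mem
  have hfix : ∀ x : M, (x : Om) ∈ w → w.valuation ((σ1⁻¹ * φ) x - x) < 1 := by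
    intro x hx
    have e := h.2 x hx
    rw [onM_val_lt, below_onM] at e
    have e2 : ((τ x - x ^ resCard (below K w) : M) : Om)
        = σ1 x - (x : Om) ^ resCard (below K w) := by
      rw [← hτ1]; rfl
    rw [e2] at e
    have e3 := hφ.2 (x : Om) hx
    have e4 : (σ1⁻¹ * φ) (x : Om) - x
        = σ1⁻¹ ((φ x - (x : Om) ^ resCard (below K w))
          - (σ1 x - (x : Om) ^ resCard (below K w))) := by
      rw [sub_sub_sub_cancel_right, map_sub, ← AlgEquiv.mul_apply, ← AlgEquiv.mul_apply,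
        inv_mul_cancel, AlgEquiv.one_apply]
    rw [e4, dec_val_lt K h1']
    exact lt_of_le_of_lt (w.valuation.map_sub _ _) (max_lt e3 e)
  obtain ⟨ρ, hρ, hρx⟩ := lift_aux K M w h2 hfix
  have hρK : ρ.restrictScalars K ∈ dec K w := (restrictScalars_mem_dec K M w ρ).2 hρ
  refine ⟨σ1 * ρ.restrictScalars K, ⟨(dec K w).mul_mem h1 hρK, ?_⟩, ?_⟩
  · intro x hx
    have e := hρx x hx
    have e3 := hφ.2 x hx
    have e4 : (σ1 * ρ.restrictScalars K) x - x ^ resCard (below K w)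
        = σ1 (ρ x - (σ1⁻¹ * φ) x) + (φ x - x ^ resCard (below K w)) := by
      have e5 : σ1 ((σ1⁻¹ * φ) x) = φ x := by
        rw [← AlgEquiv.mul_apply, mul_inv_cancel_left]
      rw [map_sub, e5, AlgEquiv.mul_apply]
      have e6 : (ρ.restrictScalars K) x = ρ x := rfl
      rw [e6]
      ring
    rw [e4]
    exact lt_of_le_of_lt (w.valuation.map_add _ _) (max_lt ((dec_val_lt K h1 _).2 e) e3)
  · intro x
    have e : (ρ.restrictScalars K) (x : Om) = x := ρ.commutes x
    rw [AlgEquiv.mul_apply, e, hτ1]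

end Pool.Agent.Lib.SmD
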