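import Mathlib
import Pool.Agent.Lib.SmD.Defs
import Pool.Agent.Lib.SmD.Basic
import Pool.Agent.Lib.SmD.ResMap
import Pool.Agent.Lib.SmD.Frob
import Pool.Agent.Lib.SmD.Lift

/-!
# Project SMITH, block D, module FinGen: `dec` is generated by `iner` and a Frobenius at every
finite level

PROOF of `fin_gen_normal`. `m` from `res_pow` for `M`, `q = resCard (below K w)`. The set
`E = {y ∈ ResidueField w | y ^ (q ^ m) = y}` is a finite subfield (roots of `X ^ (q^m) - X`;
closed under `+` because the characteristic `p` satisfies `q = p ^ s`; or use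
`Polynomial.rootSet`/`FiniteField` API: the intermediate field of `ResidueField w` over
`F = ResidueField (below K w)` of these elements), contains the image of `F`, and is stable under
the residue action of `σ`. By `FiniteField.bijective_frobeniusAlgEquivOfAlgebraic_pow F E` there
is `n` such that the residue action of `σ` on `E` is `y ↦ y ^ (q ^ n)`
(`FiniteField.coe_frobeniusAlgEquivOfAlgebraic_iterate`). Alternative without the subfield: the
intermediate field `F(y₁,…,y_r)`.
So for `x ∈ M ∩ w`: `w (σ x - x ^ (q ^ n)) < 1` and `w (φ ^ n x - x ^ (q ^ n)) < 1` (`frob_pow`).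
Let `ψ = σ * φ ^ (-n) ∈ dec`, `τ = ` its restriction to the normal extension `M`
(`AlgEquiv.restrictNormal`). For `x ∈ M ∩ w`, `y = φ ^ (-n) x ∈ M ∩ w`: `ψ x - x = (σ y - y^(q^n)) -
(φ^n y - y^(q^n))` has valuation `< 1`. So `τ ∈ iner K (onM K M w)`; `lift_iner` gives
`ι ∈ iner K w` with `ι = ψ` on `M`; for `x ∈ M`, `φ ^ n x ∈ M`, so `σ x = ψ (φ ^ n x) = ι (φ ^ n x)`.

`fin_gen`: apply `fin_gen_normal` to the normal closure of `M` in `Om` (`normalClosure K M Om`,
finite dimensional, contains `M`).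

`fixed_of_iner_frob`: for `σ ∈ dec` apply `fin_gen` with `M = K(x)`: `σ x = ι (φ ^ n x) = ι x = x`.
-/

open IsLocalRing

namespace Pool.Agent.Lib.SmD

variable {K : Type*} {Om : Type*} [Field K] [Field Om] [Algebra K Om]

private theorem FinGen_pow {F κ : Type*} [Field F] [Finite F] [Field κ] [Algebra F κ]
    (s : κ ≃+* κ) (hs : ∀ a : F, s (algebraMap F κ a) = algebraMap F κ a) (m : ℕ) (hm : 0 < m) :
    ∃ n : ℕ, ∀ y : κ, y ^ (Nat.card F) ^ m = y → s y = y ^ (Nat.card F) ^ n := by
  classical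
  let ft : Fintype F := Fintype.ofFinite F
  have hq : Nat.card F = Fintype.card F := Nat.card_eq_fintype_card
  rw [hq]
  have hΦ : ∀ (L : Type _) [Field L] [Algebra F L] (n : ℕ) (y : L),
      ((FiniteField.frobeniusAlgHom F L) ^ n) y = y ^ (Fintype.card F) ^ n := by
    intro L _ _ n y
    rw [AlgHom.coe_pow, FiniteField.coe_frobeniusAlgHom, pow_iterate]
  let Φ : κ →ₐ[F] κ := (FiniteField.frobeniusAlgHom F κ) ^ m
  let E : IntermediateField F κ :=
    { carrier := {y | Φ y = y}
      mul_mem' := fun {a b} ha hb => by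
        change Φ (a * b) = a * b
        rw [map_mul, show Φ a = a from ha, show Φ b = b from hb]
      add_mem' := fun {a b} ha hb => by
        change Φ (a + b) = a + b
        rw [map_add, show Φ a = a from ha, show Φ b = b from hb]
      algebraMap_mem' := fun a => Φ.commutes a
      inv_mem' := fun a ha => by
        change Φ a⁻¹ = a⁻¹
        rw [map_inv₀, show Φ a = a from ha] }
  have hE : ∀ y, y ∈ E ↔ y ^ (Fintype.card F) ^ m = y := by
    intro y
    rw [← hΦ κ m y]
    exact Iff.rfl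
  have hfin : Finite E := by
    have h1 : (Polynomial.X ^ (Fintype.card F) ^ m - Polynomial.X : Polynomial κ) ≠ 0 :=
      FiniteField.X_pow_card_sub_X_ne_zero κ (Nat.one_lt_pow hm.ne' Fintype.one_lt_card)
    have h2 : {y : κ | y ∈ E} ⊆
        {y : κ | (Polynomial.X ^ (Fintype.card F) ^ m - Polynomial.X : Polynomial κ).IsRoot y} := by
      intro y hy
      have h3 := (hE y).1 hy
      simp only [Set.mem_ofPred_eq, Polynomial.IsRoot.def, Polynomial.eval_sub,
        Polynomial.eval_pow, Polynomial.eval_X]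
      rw [h3, sub_self]
    exact ((Polynomial.finite_setOfPred_isRoot h1).subset h2).to_subtype
  let f : E →ₐ[F] E :=
    { toFun := fun y => ⟨s y, by
        rw [hE, ← map_pow, (hE _).1 y.2]⟩
      map_one' := by
        apply Subtype.ext
        exact map_one s
      map_mul' := fun a b => by
        apply Subtype.ext
        exact map_mul s _ _
      map_zero' := by
        apply Subtype.ext
        exact map_zero s
      map_add' := fun a b => by
        apply Subtype.ext
        exact map_add s _ _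
      commutes' := fun a => by
        apply Subtype.ext
        exact hs a }
  obtain ⟨n, hn⟩ := (FiniteField.bijective_frobeniusAlgHom_pow F E).2 f
  refine ⟨n, fun y hy => ?_⟩
  have h1 : ((FiniteField.frobeniusAlgHom F E) ^ (n : ℕ)) ⟨y, (hE y).2 hy⟩ =
      f ⟨y, (hE y).2 hy⟩ := by rw [← hn]
  rw [hΦ] at h1
  have h2 := congrArg Subtype.val h1
  exact h2.symm

private theorem FinGen_normal_mem (M : IntermediateField K Om) [Normal K M]
    (σ : Om ≃ₐ[K] Om) {x : Om} (hx : x ∈ M) : σ x ∈ M := by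
  have h := AlgEquiv.restrictNormal_commutes σ M ⟨x, hx⟩
  have h' : ((AlgEquiv.restrictNormal σ M ⟨x, hx⟩ : M) : Om) = σ x := h
  rw [← h']
  exact Subtype.mem _

theorem fin_gen_normal [IsGalois K Om] {w : ValuationSubring Om}
    [Finite (ResidueField (below K w))] {φ : Om ≃ₐ[K] Om} (hφ : IsFrob K w φ)
    (M : IntermediateField K Om) [FiniteDimensional K M] [Normal K M]
    {σ : Om ≃ₐ[K] Om} (hσ : σ ∈ dec K w) :
    ∃ n : ℕ, ∃ ι ∈ iner K w, ∀ x ∈ M, σ x = ι ((φ ^ n) x) := by
  obtain ⟨m, hm, hmx⟩ := res_pow K w M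
  obtain ⟨s, hs⟩ := exists_resAct K hσ
  let alg : Algebra (ResidueField (below K w)) (ResidueField w) := (resMap K w).toAlgebra
  have hcomm : ∀ a : ResidueField (below K w), s (resMap K w a) = resMap K w a := by
    intro a
    obtain ⟨⟨b, hb⟩, rfl⟩ := IsLocalRing.residue_surjective a
    have hbw : algebraMap K Om b ∈ w := hb
    rw [resMap_residue]
    refine (hs (algebraMap K Om b) hbw).trans ?_
    congr 1
    apply Subtype.ext
    exact σ.commutes b
  obtain ⟨n, hn⟩ := FinGen_pow (F := ResidueField (below K w)) (κ := ResidueField w) s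
    hcomm m hm
  have hσx : ∀ x ∈ M, x ∈ w → w.valuation (σ x - x ^ (resCard (below K w)) ^ n) < 1 := by
    intro x hxM hxw
    have h1 := hmx x hxM hxw
    have hxq : x ^ (resCard (below K w)) ^ m ∈ w := pow_mem hxw _
    have hxq' : x ^ (resCard (below K w)) ^ n ∈ w := pow_mem hxw _
    have hx' : σ x ∈ w := ((mem_dec K).1 hσ x).2 hxw
    have hpow : ∀ (k : ℕ) (h : x ^ k ∈ w),
        residue w ⟨x ^ k, h⟩ = (residue w ⟨x, hxw⟩) ^ k := by
      intro k h
      rw [← map_pow]
      rfl
    rw [← residue_eq_iff w hxq hxw, hpow] at h1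
    rw [← residue_eq_iff w hx' hxq', ← hs x hxw, hpow]
    exact hn _ h1
  have hφn : φ ^ n ∈ dec K w := (dec K w).pow_mem hφ.mem n
  set ψ : Om ≃ₐ[K] Om := σ * (φ ^ n)⁻¹ with hψ
  have hψd : ψ ∈ dec K w := (dec K w).mul_mem hσ ((dec K w).inv_mem hφn)
  have hψx : ∀ x ∈ M, x ∈ w → w.valuation (ψ x - x) < 1 := by
    intro x hxM hxw
    set y : Om := (φ ^ n)⁻¹ x with hy
    have hyM : y ∈ M := FinGen_normal_mem M _ hxM
    have hyw : y ∈ w := ((mem_dec K).1 ((dec K w).inv_mem hφn) x).2 hxw
    have hyx : (φ ^ n) y = x := by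
      rw [hy, ← AlgEquiv.mul_apply, mul_inv_cancel, AlgEquiv.one_apply]
    have h1 : ψ x - x = (σ y - y ^ (resCard (below K w)) ^ n) -
        ((φ ^ n) y - y ^ (resCard (below K w)) ^ n) := by
      rw [hyx, hψ, AlgEquiv.mul_apply]
      ring
    rw [h1]
    exact lt_of_le_of_lt (w.valuation.map_sub _ _)
      (max_lt (hσx y hyM hyw) (frob_pow hφ n hyw))
  set τ : M ≃ₐ[K] M := AlgEquiv.restrictNormal ψ M with hτ
  have hτx : ∀ x : M, (τ x : Om) = ψ x := fun x => AlgEquiv.restrictNormal_commutes ψ M x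
  have hτi : τ ∈ iner K (onM K M w) := by
    rw [mem_iner]
    refine ⟨restrict_dec K M w hψd hτx, fun x hx => ?_⟩
    rw [onM_val_lt]
    have h1 : ((τ x - x : M) : Om) = ψ x - x := by
      rw [← hτx]
      rfl
    rw [h1]
    exact hψx x x.2 hx
  obtain ⟨ι, hι, hιx⟩ := lift_iner K M w hτi
  refine ⟨n, ι, hι, fun x hxM => ?_⟩
  have h1 : (φ ^ n) x ∈ M := FinGen_normal_mem M _ hxM
  have h2 := hιx ⟨(φ ^ n) x, h1⟩
  rw [hτx] at h2
  have h3 : ψ ((φ ^ n) x) = σ x := by
    rw [hψ, AlgEquiv.mul_apply, ← AlgEquiv.mul_apply (φ ^ n)⁻¹, inv_mul_cancel,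
      AlgEquiv.one_apply]
  rw [← h3]
  exact h2

theorem fin_gen [IsGalois K Om] {w : ValuationSubring Om}
    [Finite (ResidueField (below K w))] {φ : Om ≃ₐ[K] Om} (hφ : IsFrob K w φ)
    (M : IntermediateField K Om) [FiniteDimensional K M]
    {σ : Om ≃ₐ[K] Om} (hσ : σ ∈ dec K w) :
    ∃ n : ℕ, ∃ ι ∈ iner K w, ∀ x ∈ M, σ x = ι ((φ ^ n) x) := by
  obtain ⟨n, ι, hι, h⟩ := fin_gen_normal hφ (IntermediateField.normalClosure K M Om) hσ
  exact ⟨n, ι, hι, fun x hx => h x (IntermediateField.le_normalClosure M hx)⟩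

theorem fixed_of_iner_frob [IsGalois K Om] {w : ValuationSubring Om}
    [Finite (ResidueField (below K w))] {φ : Om ≃ₐ[K] Om} (hφ : IsFrob K w φ) {x : Om}
    (h1 : ∀ σ ∈ iner K w, σ x = x) (h2 : φ x = x) : ∀ σ ∈ dec K w, σ x = x := by
  intro σ hσ
  have hint : IsIntegral K x := (Algebra.IsAlgebraic.isAlgebraic (R := K) x).isIntegral
  have hfd : FiniteDimensional K (IntermediateField.adjoin K {x}) :=
    IntermediateField.adjoin.finiteDimensional hint
  obtain ⟨n, ι, hι, h⟩ := fin_gen hφ (IntermediateField.adjoin K {x}) hσ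
  have h3 := h x (IntermediateField.mem_adjoin_simple_self K x)
  have h4 : ∀ k : ℕ, (φ ^ k) x = x := by
    intro k
    induction k with
    | zero => simp
    | succ k ih => rw [pow_succ, AlgEquiv.mul_apply, h2, ih]
  rw [h3, h4, h1 ι hι]

end Pool.Agent.Lib.SmD
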