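import Mathlib

/-!
SMITH, block D: an element of `L` fixed by the inertia group of `P` has an integral valuation.
-/

set_option autoImplicit false

namespace Pool.Agent.SmD

open Ideal

section dvr

variable {A C : Type*} [CommRing A] [IsDomain A] [IsDiscreteValuationRing A] [CommRing C]
  [IsDedekindDomain C] [Algebra A C] [Module.IsTorsionFree A C]

/-- if the ramification index is one, every nonzero element is a power of the uniformizer of `A`
up to elements outside of the prime -/
lemma exists_pow_of_ramificationIdx_eq_one (Q : Ideal C) [Q.IsPrime]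
    [Q.LiesOver (IsLocalRing.maximalIdeal A)] (h1 : Q.ramificationIdx A = 1) {π : A}
    (hπ : Irreducible π) {a : C} (ha : a ≠ 0) :
    ∃ (i : ℕ) (c s : C), c ∉ Q ∧ s ∉ Q ∧ a * s = algebraMap A C π ^ i * c := by
  have hp0 : IsLocalRing.maximalIdeal A ≠ ⊥ := IsDiscreteValuationRing.not_a_field A
  have hQ0 : Q ≠ ⊥ := Ideal.ne_bot_of_liesOver_of_ne_bot hp0 Q
  set CP := Localization.AtPrime Q with hCP
  have hdvr : IsDiscreteValuationRing CP :=
    IsLocalization.AtPrime.isDiscreteValuationRing_of_dedekind_domain C hQ0 CP
  rw [Ideal.ramificationIdx_def, ENat.toNat_eq_iff_eq_natCast, Nat.cast_one,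
    Module.length_eq_one_iff, isSimpleModule_iff_isCoatom, ← Ideal.isMaximal_def,
    IsLocalRing.isMaximal_iff, ← Ideal.over_def Q (IsLocalRing.maximalIdeal A),
    (IsDiscreteValuationRing.irreducible_iff_uniformizer π).mp hπ, Ideal.map_span,
    Set.image_singleton] at h1
  have hirr : Irreducible (algebraMap A CP π) := by
    rw [IsDiscreteValuationRing.irreducible_iff_uniformizer]
    exact h1.symm
  have hinj : Function.Injective (algebraMap C CP) :=
    IsLocalization.injective CP Q.primeCompl_le_nonZeroDivisors
  have ha' : algebraMap C CP a ≠ 0 := by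
    rw [Ne, map_eq_zero_iff _ hinj]
    exact ha
  obtain ⟨i, u, hu⟩ := IsDiscreteValuationRing.eq_unit_mul_pow_irreducible ha' hirr
  obtain ⟨c, s, hcs⟩ := IsLocalization.exists_mk'_eq Q.primeCompl (u : CP)
  have hc : c ∉ Q := by
    have := u.isUnit
    rw [← hcs, IsLocalization.AtPrime.isUnit_mk'_iff CP Q c s] at this
    exact this
  refine ⟨i, c, s, hc, s.2, hinj ?_⟩
  rw [map_mul, hu, map_mul, map_pow, ← IsScalarTower.algebraMap_apply A C CP, ← hcs,
    mul_comm, ← mul_assoc, IsLocalization.mk'_spec', mul_comm]

end dvr

section galois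

open scoped Pointwise

variable {A K L : Type*} [CommRing A] [IsDomain A] [IsDiscreteValuationRing A]
  [Finite (IsLocalRing.ResidueField A)] [Field K] [Algebra A K] [IsFractionRing A K]
  [Field L] [Algebra K L] [Algebra A L] [IsScalarTower A K L] [FiniteDimensional K L]
  [IsGalois K L]

/-- An element of `L` fixed by the inertia group of `P` is `π ^ n a / b` with `a, b ∉ P`. -/
theorem exists_unit_of_inertia_fixed (P : Ideal (integralClosure A L)) [P.IsPrime]
    [P.LiesOver (IsLocalRing.maximalIdeal A)] {x : L} (hx0 : x ≠ 0)
    (hx : ∀ σ ∈ Ideal.inertia Gal(L/K) P, σ x = x) {π : A} (hπ : Irreducible π) :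
    ∃ (n : ℤ) (a b : integralClosure A L), a ∉ P ∧ b ∉ P ∧
      x * (b : L) = (algebraMap A L π) ^ n * (a : L) := by
  let B := integralClosure A L
  have hp0 : IsLocalRing.maximalIdeal A ≠ ⊥ := IsDiscreteValuationRing.not_a_field A
  have : IsFractionRing B L := IsIntegralClosure.isFractionRing_of_finite_extension A K L B
  have : IsDedekindDomain B := IsIntegralClosure.isDedekindDomain A K L B
  have : Module.Finite A B := IsIntegralClosure.finite A K L B
  set G := Gal(L/K) with hG
  have : IsGaloisGroup G A B := IsGaloisGroup.of_isFractionRing G A B K L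
  set H := Ideal.inertia G P with hH
  set E : IntermediateField K L := FixedPoints.intermediateField H with hE
  have : IsGaloisGroup H E L := IsGaloisGroup.subgroup G K L H
  let : Algebra A E := ((algebraMap K E).comp (algebraMap A K)).toAlgebra
  have : IsScalarTower A K E := IsScalarTower.of_algebraMap_eq fun _ => rfl
  have : IsScalarTower A E L := IsScalarTower.of_algebraMap_eq fun a => by
    rw [IsScalarTower.algebraMap_apply A K L, IsScalarTower.algebraMap_apply A K E,
      ← IsScalarTower.algebraMap_apply K E L]
  set C := integralClosure A E with hC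
  have : IsFractionRing C E := IsIntegralClosure.isFractionRing_of_finite_extension A K E C
  have : IsDedekindDomain C := IsIntegralClosure.isDedekindDomain A K E C
  have : Module.Finite A C := IsIntegralClosure.finite A K E C
  let : Algebra C B := ((IsScalarTower.toAlgHom A E L).mapIntegralClosure).toRingHom.toAlgebra
  have : IsScalarTower A C B := IsScalarTower.of_algebraMap_eq fun a =>
    (((IsScalarTower.toAlgHom A E L).mapIntegralClosure).commutes a).symm
  have : IsScalarTower C E L := inferInstance
  have hCBL : IsScalarTower C B L := IsScalarTower.of_algebraMap_eq fun c => rfl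
  have : Algebra.IsIntegral C B := Algebra.IsIntegral.tower_top A
  have : IsGaloisGroup H C B := IsGaloisGroup.of_isFractionRing H C B E L
  have : Module.Finite C B := Module.Finite.right A C B
  have hinjCB : Function.Injective (algebraMap C B) := by
    intro a b hab
    have h1 := congrArg (algebraMap B L) hab
    rw [← IsScalarTower.algebraMap_apply C B L, ← IsScalarTower.algebraMap_apply C B L,
      IsScalarTower.algebraMap_apply C E L, IsScalarTower.algebraMap_apply C E L] at h1
    exact IsFractionRing.injective C E ((algebraMap E L).injective h1)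
  have : Module.IsTorsionFree C B := by
    rw [Module.isTorsionFree_iff_faithfulSMul, faithfulSMul_iff_algebraMap_injective]
    exact hinjCB
  have : Module.IsTorsionFree A C := by
    rw [Module.isTorsionFree_iff_faithfulSMul, faithfulSMul_iff_algebraMap_injective]
    intro a b hab
    have h1 := congrArg (algebraMap C E) hab
    rw [← IsScalarTower.algebraMap_apply A C E, ← IsScalarTower.algebraMap_apply A C E,
      IsScalarTower.algebraMap_apply A K E, IsScalarTower.algebraMap_apply A K E] at h1
    exact IsFractionRing.injective A K ((algebraMap K E).injective h1)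
  have : Module.IsTorsionFree A B := Module.IsTorsionFree.trans_faithfulSMul A C B
  set Q : Ideal C := P.under C with hQ
  have : P.LiesOver Q := ⟨rfl⟩
  have : Q.LiesOver (IsLocalRing.maximalIdeal A) :=
    Ideal.LiesOver.tower_bot P Q (IsLocalRing.maximalIdeal A)
  have hfinp : Finite (A ⧸ IsLocalRing.maximalIdeal A) :=
    inferInstanceAs (Finite (IsLocalRing.ResidueField A))
  have hfinQ : Finite (C ⧸ Q) :=
    Module.finite_of_finite (A ⧸ IsLocalRing.maximalIdeal A)
  have e1 : Nat.card H = P.ramificationIdx A := by
    rw [← Ideal.ramificationIdxIn_eq_ramificationIdx (IsLocalRing.maximalIdeal A) P G]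
    exact Ideal.card_inertia_eq_ramificationIdxIn (IsLocalRing.maximalIdeal A) P
  have e2 : Nat.card (Ideal.inertia H P) = P.ramificationIdx C := by
    rw [← Ideal.ramificationIdxIn_eq_ramificationIdx Q P H]
    exact Ideal.card_inertia_eq_ramificationIdxIn Q P
  have e3 : Ideal.inertia H P = ⊤ := by
    rw [eq_top_iff]
    rintro ⟨σ, hσ⟩ -
    exact hσ
  have e4 : P.ramificationIdx A = Q.ramificationIdx A * P.ramificationIdx C :=
    Ideal.ramificationIdx_tower Q P
  have e5 : Q.ramificationIdx A = 1 := by
    rw [e3, Subgroup.card_top, e1] at e2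
    rw [← e2] at e4
    exact (Nat.eq_of_mul_eq_mul_right (Ideal.ramificationIdx_pos P A) (by rw [one_mul]; exact e4)).symm
  have hxE : x ∈ E := fun σ => hx σ.1 σ.2
  obtain ⟨a, b, hb, hab⟩ := IsFractionRing.div_surjective C (⟨x, hxE⟩ : E)
  have hb0 : b ≠ 0 := nonZeroDivisors.ne_zero hb
  have hbE : algebraMap C E b ≠ 0 := by
    rw [Ne, map_eq_zero_iff _ (IsFractionRing.injective C E)]
    exact hb0
  have ha0 : a ≠ 0 := by
    rintro rfl
    apply hx0
    have h2 := congrArg (algebraMap E L) hab
    rw [map_zero, zero_div, map_zero] at h2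
    exact h2.symm
  obtain ⟨i, c, s, hc, hs, h1⟩ := exists_pow_of_ramificationIdx_eq_one Q e5 hπ ha0
  obtain ⟨j, c', s', hc', hs', h2⟩ := exists_pow_of_ramificationIdx_eq_one Q e5 hπ hb0
  have hmem : ∀ z : C, z ∉ Q → algebraMap C B z ∉ P := fun z hz h => hz h
  refine ⟨(i : ℤ) - j, algebraMap C B (c * s'), algebraMap C B (c' * s), ?_, ?_, ?_⟩
  · exact hmem _ fun h => ((Ideal.IsPrime.mem_or_mem inferInstance h).elim hc hs')
  · exact hmem _ fun h => ((Ideal.IsPrime.mem_or_mem inferInstance h).elim hc' hs)
  · have hπL : algebraMap A L π ≠ 0 := by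
      rw [IsScalarTower.algebraMap_apply A K L, Ne, map_eq_zero_iff _ (algebraMap K L).injective,
        map_eq_zero_iff _ (IsFractionRing.injective A K)]
      exact hπ.ne_zero
    have h3 : x * algebraMap C L b = algebraMap C L a := by
      rw [div_eq_iff hbE] at hab
      have h4 := congrArg (algebraMap E L) hab
      rw [map_mul, ← IsScalarTower.algebraMap_apply C E L,
        ← IsScalarTower.algebraMap_apply C E L] at h4
      exact h4.symm
    have h5 := congrArg (algebraMap C L) h1
    have h6 := congrArg (algebraMap C L) h2
    rw [map_mul, map_mul, map_pow, ← IsScalarTower.algebraMap_apply A C L] at h5 h6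
    have e7 : ((algebraMap C B (c * s') : B) : L) = algebraMap C L (c * s') := rfl
    have e8 : ((algebraMap C B (c' * s) : B) : L) = algebraMap C L (c' * s) := rfl
    rw [e7, e8, map_mul, map_mul, zpow_sub₀ hπL, zpow_natCast, zpow_natCast]
    rw [div_mul_eq_mul_div, eq_div_iff (pow_ne_zero _ hπL)]
    calc x * (algebraMap C L c' * algebraMap C L s) * algebraMap A L π ^ j
        = x * (algebraMap A L π ^ j * algebraMap C L c') * algebraMap C L s := by ring
      _ = (x * algebraMap C L b) * algebraMap C L s' * algebraMap C L s := by rw [← h6]; ring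
      _ = (algebraMap C L a * algebraMap C L s) * algebraMap C L s' := by rw [h3]; ring
      _ = algebraMap A L π ^ i * (algebraMap C L c * algebraMap C L s') := by rw [h5]; ring

end galois

end Pool.Agent.SmD
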