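import Pool.Agent.Lib.SmD.LocDvr
import Pool.Agent.Lib.SmD.InerVal
import Pool.Agent.Lib.SmD.Prim
import Pool.Agent.Lib.SmD.Lift

/-!
SMITH, block D, D3: the value group of the inertia field is generated by the valuation of `π`.

An element of the inertia field lies in a finite Galois extension `L / K`. The elements of the
integral closure of `below K w` in `L` with valuation `< 1` form a prime `P` above the maximal
ideal; an element of the (ideal theoretic) inertia group of `P` is the restriction of an element of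
`iner K w` (`lift_iner`), so `exists_unit_of_inertia_fixed` applies.
-/

set_option autoImplicit false

namespace Pool.Agent.Lib.SmD

variable {K Om : Type*} [Field K] [Field Om] [Algebra K Om] {w : ValuationSubring Om} {π : K}

section idl

variable (w) (L : IntermediateField K Om)

lemma mem_of_mem_closure (b : integralClosure (below K w) L) : ((b : L) : Om) ∈ w := by
  apply mem_of_isIntegral (K := K)
  have h1 : IsIntegral (below K w) (b : L) := b.2
  exact h1.map (IsScalarTower.toAlgHom (below K w) L Om)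

/-- the prime of the integral closure of `below K w` in `L` given by the place `w` -/
def primeOf : Ideal (integralClosure (below K w) L) where
  carrier := {b | w.valuation ((b : L) : Om) < 1}
  zero_mem' := by simp
  add_mem' := by
    intro a b ha hb
    exact lt_of_le_of_lt (w.valuation.map_add ((a : L) : Om) ((b : L) : Om)) (max_lt ha hb)
  smul_mem' := by
    intro a b hb
    have h1 : w.valuation ((a : L) : Om) ≤ 1 :=
      (ValuationSubring.valuation_le_one_iff _ _).mpr (mem_of_mem_closure w L a)
    have h2 : w.valuation (((a : L) : Om) * ((b : L) : Om)) < 1 := by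
      rw [map_mul]
      exact lt_of_le_of_lt (mul_le_of_le_one_left' h1) hb
    exact h2

lemma mem_primeOf {b : integralClosure (below K w) L} :
    b ∈ primeOf w L ↔ w.valuation ((b : L) : Om) < 1 := Iff.rfl

lemma not_mem_primeOf {b : integralClosure (below K w) L} :
    b ∉ primeOf w L ↔ w.valuation ((b : L) : Om) = 1 := by
  rw [mem_primeOf, not_lt]
  exact ⟨fun h => le_antisymm ((ValuationSubring.valuation_le_one_iff _ _).mpr
    (mem_of_mem_closure w L b)) h, fun h => h.ge⟩

instance primeOf_isPrime : (primeOf w L).IsPrime := by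
  refine ⟨?_, ?_⟩
  · intro h
    have h1 : (1 : integralClosure (below K w) L) ∈ primeOf w L := by rw [h]; trivial
    rw [mem_primeOf] at h1
    have h2 : (((1 : integralClosure (below K w) L) : L) : Om) = 1 := rfl
    rw [h2, map_one] at h1
    exact lt_irrefl _ h1
  · intro a b hab
    by_contra hc
    push Not at hc
    rw [not_mem_primeOf, not_mem_primeOf] at hc
    have h1 : (((a * b : integralClosure (below K w) L) : L) : Om) =
      ((a : L) : Om) * ((b : L) : Om) := rfl
    rw [mem_primeOf, h1, map_mul, hc.1, hc.2, mul_one] at hab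
    exact lt_irrefl _ hab

instance primeOf_liesOver : (primeOf w L).LiesOver (IsLocalRing.maximalIdeal (below K w)) := by
  refine ⟨?_⟩
  ext a
  rw [Ideal.under_def, Ideal.mem_comap, mem_primeOf]
  have h1 : (((algebraMap (below K w) (integralClosure (below K w) L) a : L)) : Om) =
      algebraMap K Om (a : K) := rfl
  rw [h1, ← residue_eq_zero_iff_val a.2, IsLocalRing.residue_eq_zero_iff]

end idl

/-- an element of the ideal theoretic inertia group moves elements of `w ∩ L` by elements of
valuation `< 1` -/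
lemma val_sub_of_inertia {L : IntermediateField K Om} [Algebra.IsAlgebraic K Om]
    {τ : L ≃ₐ[K] L} (hτ : τ ∈ Ideal.inertia Gal(L/K) (primeOf w L)) {x : L} (hx : (x : Om) ∈ w) :
    ((τ x : L) : Om) ∈ w ∧ w.valuation ((τ x : L) - (x : Om)) < 1 := by
  obtain ⟨y, z, hyi, hzi, hxy, hy1, hyK, hzK⟩ :=
    prufer K w hx (Algebra.IsAlgebraic.isAlgebraic (x : Om))
  have hle : IntermediateField.adjoin K {(x : Om)} ≤ L := by
    rw [IntermediateField.adjoin_simple_le_iff]
    exact x.2
  obtain ⟨y, rfl⟩ : ∃ y' : L, (y' : Om) = y := ⟨⟨y, hle hyK⟩, rfl⟩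
  obtain ⟨z, rfl⟩ : ∃ z' : L, (z' : Om) = z := ⟨⟨z, hle hzK⟩, rfl⟩
  have hyi' : IsIntegral (below K w) y := by
    rw [← isIntegral_algHom_iff (IsScalarTower.toAlgHom (below K w) L Om)
      (algebraMap L Om).injective]
    exact hyi
  have hzi' : IsIntegral (below K w) z := by
    rw [← isIntegral_algHom_iff (IsScalarTower.toAlgHom (below K w) L Om)
      (algebraMap L Om).injective]
    exact hzi
  have hin : ∀ b : L, IsIntegral (below K w) b → w.valuation ((τ b : L) - (b : Om)) < 1 := by
    intro b hb
    have h1 := hτ ⟨b, hb⟩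
    exact h1
  have hy2 := hin y hyi'
  have hz2 := hin z hzi'
  have hle1 : ∀ b : L, IsIntegral (below K w) b → w.valuation (b : Om) ≤ 1 := by
    intro b hb
    exact (ValuationSubring.valuation_le_one_iff _ _).mpr (mem_of_mem_closure w L ⟨b, hb⟩)
  have hty : w.valuation ((τ y : L) : Om) = 1 := by
    have h1 : w.valuation ((τ y : L) : Om) = w.valuation (y : Om) := by
      have h2 : ((τ y : L) : Om) = (y : Om) + ((τ y : L) - (y : Om)) := by ring
      rw [h2]
      exact Valuation.map_add_eq_of_lt_left _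
        (show w.valuation ((τ y : L) - (y : Om)) < w.valuation (y : Om) by rw [hy1]; exact hy2)
    rw [h1, hy1]
  have hxy' : x * y = z := Subtype.ext hxy
  have htxy : (τ x : L) * (τ y : L) = τ z := by rw [← map_mul, hxy']
  have htxy' : ((τ x : L) : Om) * ((τ y : L) : Om) = ((τ z : L) : Om) := congrArg Subtype.val htxy
  have key : ((τ x : L) - (x : Om)) * (((τ y : L) : Om) * (y : Om)) =
      ((τ z : L) - (z : Om)) * (y : Om) - (z : Om) * ((τ y : L) - (y : Om)) := by
    have e1 : ((τ x : L) - (x : Om)) * (((τ y : L) : Om) * (y : Om)) =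
      ((τ x : L) : Om) * ((τ y : L) : Om) * (y : Om) - ((x : Om) * (y : Om)) * (τ y : L) := by ring
    rw [e1, htxy', hxy]
    ring
  have hv : w.valuation ((τ x : L) - (x : Om)) < 1 := by
    have h1 : w.valuation ((τ x : L) - (x : Om)) =
        w.valuation (((τ x : L) - (x : Om)) * (((τ y : L) : Om) * (y : Om))) := by
      rw [map_mul _ _ (((τ y : L) : Om) * (y : Om)), map_mul, hty, hy1, mul_one, mul_one]
    rw [h1, key]
    refine lt_of_le_of_lt (w.valuation.map_sub _ _) (max_lt ?_ ?_)
    · rw [map_mul, hy1, mul_one]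
      exact hz2
    · rw [map_mul]
      exact lt_of_le_of_lt (mul_le_of_le_one_left' (hle1 z hzi')) hy2
  refine ⟨?_, hv⟩
  have h3 : ((τ x : L) : Om) = ((τ x : L) - (x : Om)) + (x : Om) := by ring
  rw [h3]
  exact w.add_mem _ _ ((ValuationSubring.valuation_le_one_iff _ _).mp hv.le) hx

/-- the ideal theoretic inertia group is contained in the valuation theoretic one -/
lemma mem_iner_of_inertia {L : IntermediateField K Om} [Algebra.IsAlgebraic K Om]
    {τ : L ≃ₐ[K] L} (hτ : τ ∈ Ideal.inertia Gal(L/K) (primeOf w L)) :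
    τ ∈ iner K (onM K L w) := by
  have h1 : ∀ x : L, (x : Om) ∈ w → ((τ x : L) : Om) ∈ w := fun x hx =>
    (val_sub_of_inertia hτ hx).1
  have h2 : ∀ x : L, (x : Om) ∈ w → (((τ⁻¹ : L ≃ₐ[K] L) x : L) : Om) ∈ w := fun x hx =>
    (val_sub_of_inertia (inv_mem hτ) hx).1
  rw [mem_iner]
  refine ⟨(mem_dec K).mpr fun x => ⟨fun hx => ?_, fun hx => h1 x hx⟩, fun x hx => ?_⟩
  · have h3 := h2 _ hx
    rwa [← AlgEquiv.mul_apply, inv_mul_cancel, AlgEquiv.one_apply] at h3
  · rw [onM_val_lt]
    exact (val_sub_of_inertia hτ hx).2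

/-- D3: the value of an element of the inertia field is an integral power of that of `π` -/
theorem value_iner [IsGalois K Om] (h : LocHyp K w π) {x : Om} (hx0 : x ≠ 0)
    (hx : ∀ σ ∈ iner K w, σ x = x) :
    ∃ n : ℤ, w.valuation x = (w.valuation (algebraMap K Om π)) ^ n := by
  obtain ⟨L, hxL, hfd, hgal⟩ : ∃ L : IntermediateField K Om, x ∈ L ∧ FiniteDimensional K L ∧
      IsGalois K L := ⟨(FiniteGaloisIntermediateField.adjoin K {x}).toIntermediateField,
    FiniteGaloisIntermediateField.subset_adjoin K {x} (Set.mem_singleton x),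
    (FiniteGaloisIntermediateField.adjoin K {x}).finiteDimensional,
    (FiniteGaloisIntermediateField.adjoin K {x}).isGalois⟩
  have := h.isDiscreteValuationRing
  have := h.fin
  obtain ⟨x, rfl⟩ : ∃ x' : L, (x' : Om) = x := ⟨⟨x, hxL⟩, rfl⟩
  have hx0' : x ≠ 0 := fun h0 => hx0 (by rw [h0]; rfl)
  obtain ⟨n, a, b, ha, hb, hab⟩ := Pool.Agent.SmD.exists_unit_of_inertia_fixed
    (A := below K w) (K := K) (L := L) (primeOf w L) hx0' (by
      intro σ hσ
      obtain ⟨τ, hτ, hτσ⟩ := lift_iner K L w (mem_iner_of_inertia hσ)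
      apply Subtype.ext
      rw [hτσ x]
      exact hx τ hτ) h.irreducible
  refine ⟨n, ?_⟩
  rw [not_mem_primeOf] at ha hb
  have hab' : (x : Om) * ((b : L) : Om) = (algebraMap K Om π) ^ n * ((a : L) : Om) := by
    have h1 := congrArg (algebraMap L Om) hab
    rw [map_mul, map_mul, map_zpow₀] at h1
    exact h1
  have h2 := congrArg w.valuation hab'
  rw [map_mul, map_mul, ha, hb, mul_one, mul_one, map_zpow₀] at h2
  exact h2

/-- tame inertia elements exist -/
theorem exists_sg [IsGalois K Om] [IsSepClosed Om] (h : LocHyp K w π) : ∃ σ, IsSg K w π σ := by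
  by_contra hc
  obtain ⟨r, hr⟩ := exists_sqrt h.two_ne (algebraMap K Om π)
  have h01 : ∀ a : ZMod 2, a ≠ 1 → a = 0 := by decide
  have hfix : ∀ σ ∈ iner K w, σ r = r := by
    intro σ hσ
    rw [← chi_eq_zero_iff π σ hr]
    exact h01 _ fun h1 => hc ⟨σ, hσ, h1⟩
  obtain ⟨n, hn⟩ := value_iner h (root_ne_zero h.pi_ne hr) hfix
  have h1 : w.valuation (algebraMap K Om π) ^ (1 : ℤ) =
      w.valuation (algebraMap K Om π) ^ (n * 2) := by
    rw [zpow_one, zpow_mul, ← hn, ← hr, map_pow]
    rfl
  have h2 := h.zpow_inj h1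
  omega

end Pool.Agent.Lib.SmD
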