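import Pool.Agent.Lib.SmD.Sqrt

/-!
SMITH, block D, D5: values of the quadratic characters at a Frobenius element (Euler criterion).
-/

set_option autoImplicit false

namespace Pool.Agent.Lib.SmD

variable {K Om : Type*} [Field K] [Field Om] [Algebra K Om] {w : ValuationSubring Om}

/-- membership in the maximal ideal of the place below -/
lemma residue_eq_zero_iff_val {x : K} (hx : x ∈ below K w) :
    IsLocalRing.residue (below K w) ⟨x, hx⟩ = 0 ↔ w.valuation (algebraMap K Om x) < 1 := by
  rw [IsLocalRing.residue_eq_zero_iff, ValuationSubring.valuation_lt_one_iff,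
    ← ValuationSubring.mem_nonunits_iff, ← ValuationSubring.mem_nonunits_iff,
    ValuationSubring.mem_nonunits_iff_or, ValuationSubring.mem_nonunits_iff_or,
    ValuationSubring.mem_comap, map_inv₀, map_eq_zero_iff _ (algebraMap K Om).injective]

lemma mem_below_iff {x : K} : x ∈ below K w ↔ w.valuation (algebraMap K Om x) ≤ 1 := by
  rw [ValuationSubring.valuation_le_one_iff, ValuationSubring.mem_comap]

/-- the residue characteristic is not two -/
lemma ringChar_residue (h2 : w.valuation 2 = 1) :
    ringChar (IsLocalRing.ResidueField (below K w)) ≠ 2 := by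
  intro h
  have h3 : (2 : IsLocalRing.ResidueField (below K w)) = 0 := by
    have := ringChar.Nat.cast_ringChar (R := IsLocalRing.ResidueField (below K w))
    rw [h] at this
    exact_mod_cast this
  have hmem : (2 : K) ∈ below K w := by
    rw [mem_below_iff, map_ofNat, h2]
  have h4 : IsLocalRing.residue (below K w) ⟨2, hmem⟩ = 0 := by
    rw [← h3]
    have : (⟨2, hmem⟩ : below K w) = 2 := rfl
    rw [this, map_ofNat]
  rw [residue_eq_zero_iff_val, map_ofNat, h2] at h4
  exact lt_irrefl _ h4

theorem chi_frob_iff_pow (h2 : w.valuation 2 = 1) {φ : Om ≃ₐ[K] Om} (hφ : IsFrob K w φ)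
    [IsSepClosed Om] (hodd : Odd (resCard (below K w))) {f : K}
    (hf : w.valuation (algebraMap K Om f) = 1) :
    chi K f φ = 0 ↔ w.valuation (algebraMap K Om (f ^ (resCard (below K w) / 2) - 1)) < 1 := by
  obtain ⟨y, hy⟩ := exists_sqrt (two_ne_zero_Om h2) (algebraMap K Om f)
  have hy1 := val_eq_one_of_sq hf hy
  obtain ⟨m, hm⟩ := hodd
  have hm2 : resCard (below K w) / 2 = m := by omega
  rw [chi_eq_zero_iff f φ hy, hm2]
  have h3 := hφ.frob y (mem_of_val_eq_one hy1)
  rw [hm] at h3
  have e1 : y ^ (2 * m + 1) = y * algebraMap K Om (f ^ m) := by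
    rw [map_pow, ← hy]
    ring
  rw [e1] at h3
  have e2 : w.valuation (algebraMap K Om (f ^ m - 1)) =
      w.valuation (y * algebraMap K Om (f ^ m) - y) := by
    rw [map_sub, map_one]
    have : y * algebraMap K Om (f ^ m) - y = y * (algebraMap K Om (f ^ m) - 1) := by ring
    rw [this, map_mul, hy1, one_mul]
  rw [e2]
  constructor
  · intro h
    rw [h, ← Valuation.map_neg] at h3
    have : y * algebraMap K Om (f ^ m) - y = -(y - y * algebraMap K Om (f ^ m)) := by ring
    rw [this]
    exact h3
  · intro h
    rcases eq_or_eq_neg_of_fix hy (φ.commutes f) with h4 | h4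
    · exact h4
    · exfalso
      have h5 := lt_of_le_of_lt (w.valuation.map_add (φ y - y * algebraMap K Om (f ^ m))
        (y * algebraMap K Om (f ^ m) - y)) (max_lt h3 h)
      rw [sub_add_sub_cancel, h4, val_sub_neg h2, hy1] at h5
      exact lt_irrefl _ h5

/-- D5: for a unit `f`, `chi f` vanishes at the Frobenius iff `f` is a square modulo the place -/
theorem chi_frob_iff [IsSepClosed Om] (h2 : w.valuation 2 = 1)
    (hfin : Finite (IsLocalRing.ResidueField (below K w))) {φ : Om ≃ₐ[K] Om}
    (hφ : IsFrob K w φ) {f : K} (hf : w.valuation (algebraMap K Om f) = 1) :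
    chi K f φ = 0 ↔ IsSquare (IsLocalRing.residue (below K w)
      ⟨f, mem_below_iff.mpr hf.le⟩) := by
  have : Fintype (IsLocalRing.ResidueField (below K w)) := Fintype.ofFinite _
  have hchar := ringChar_residue (K := K) h2
  have hq : resCard (below K w) = Fintype.card (IsLocalRing.ResidueField (below K w)) :=
    Nat.card_eq_fintype_card
  have hodd : Odd (resCard (below K w)) := by
    rw [hq, Nat.odd_iff]
    exact FiniteField.odd_card_of_char_ne_two hchar
  rw [chi_frob_iff_pow h2 hφ hodd hf]
  have hne : IsLocalRing.residue (below K w) ⟨f, mem_below_iff.mpr hf.le⟩ ≠ 0 := by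
    intro h
    rw [residue_eq_zero_iff_val, hf] at h
    exact lt_irrefl _ h
  rw [FiniteField.isSquare_iff hchar hne, ← hq, ← map_pow, ← sub_eq_zero (b := (1 : _)),
    ← map_one (IsLocalRing.residue (below K w)), ← map_sub]
  have hmem : f ^ (resCard (below K w) / 2) - 1 ∈ below K w :=
    sub_mem (pow_mem (mem_below_iff.mpr hf.le) _) (one_mem _)
  rw [← residue_eq_zero_iff_val hmem]
  rfl

end Pool.Agent.Lib.SmD
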