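import Mathlib
import Pool.Agent.Lib.SmD.Defs

/-!
# Project SMITH, block D: existence of places above

Every place `v` of `K` is the restriction of a place of `Om`.
-/

namespace Pool.Agent.Lib.SmD

variable (K : Type*) {Om : Type*} [Field K] [Field Om] [Algebra K Om]

theorem exists_above (v : ValuationSubring K) : ∃ w : ValuationSubring Om, below K w = v := by
  have hinj : Function.Injective (algebraMap K Om) := (algebraMap K Om).injective
  let A : LocalSubring Om := LocalSubring.map (algebraMap K Om) v.toLocalSubring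
  have hA : ∀ x : Om, x ∈ A.toSubring ↔ ∃ a ∈ v, algebraMap K Om a = x := fun x => Iff.rfl
  obtain ⟨B, hB⟩ := A.exists_le_valuationSubring
  refine ⟨B, ?_⟩
  obtain ⟨hle, hl⟩ := hB
  have h1 : ∀ a ∈ v, algebraMap K Om a ∈ B := fun a ha => hle ((hA _).2 ⟨a, ha, rfl⟩)
  ext a
  rw [ValuationSubring.mem_comap]
  refine ⟨fun ha => ?_, h1 a⟩
  by_contra hav
  have ha0 : a ≠ 0 := by
    rintro rfl; exact hav v.zero_mem
  have hinv : a⁻¹ ∈ v := (v.mem_or_inv_mem a).resolve_left hav
  have hmem : algebraMap K Om a⁻¹ ∈ A.toSubring := (hA _).2 ⟨a⁻¹, hinv, rfl⟩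
  have hU : IsUnit (Subring.inclusion hle ⟨algebraMap K Om a⁻¹, hmem⟩) := by
    refine isUnit_iff_exists_inv.mpr ⟨⟨algebraMap K Om a, ha⟩, ?_⟩
    apply Subtype.ext
    change algebraMap K Om a⁻¹ * algebraMap K Om a = 1
    rw [← map_mul, inv_mul_cancel₀ ha0, map_one]
  have hU2 : IsUnit (⟨algebraMap K Om a⁻¹, hmem⟩ : A.toSubring) := hl.1 _ hU
  obtain ⟨⟨b, hb⟩, hb2⟩ := isUnit_iff_exists_inv.mp hU2
  obtain ⟨c, hc, rfl⟩ := (hA _).1 hb
  have h3 : algebraMap K Om a⁻¹ * algebraMap K Om c = 1 := congrArg Subtype.val hb2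
  rw [← map_mul, ← map_one (algebraMap K Om)] at h3
  have h4 := hinj h3
  have h5 : c = a := by
    field_simp at h4
    exact h4
  rw [h5] at hc
  exact hav hc

end Pool.Agent.Lib.SmD
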