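import Mathlib
import Pool.Agent.Lib.SmD.Defs
import Pool.Agent.Lib.SmD.Above
import Pool.Agent.Lib.MP_48b749_nt.Infty

/-!
# Project SMITH, block D: the chosen data above the places of `k(t)`

For a place `v : Place k (RatFunc k)` (a discrete valuation ring of `k(t)` containing `k`):
* `ab Om v`: a chosen place (valuation subring) of `Om` above `v`;
* `dv Om v := dec (RatFunc k) (ab Om v)`: its decomposition group;
* `ph Om v`: a chosen Frobenius element, `sg Om v`: a chosen tame inertia element.
-/

set_option autoImplicit false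

open IsLocalRing

namespace Pool.Agent.Lib.SmD

open Pool.Agent.BSDFF

section general

variable {K : Type*} {Om : Type*} [Field K] [Field Om] [Algebra K Om]

theorem val_unit_below {w : ValuationSubring Om} {x : K} (h1 : x ∈ below K w)
    (h2 : x⁻¹ ∈ below K w) (h0 : x ≠ 0) : w.valuation (algebraMap K Om x) = 1 := by
  have h3 : w.valuation (algebraMap K Om x) ≤ 1 :=
    (ValuationSubring.valuation_le_one_iff _ _).2 h1
  have h4 : w.valuation (algebraMap K Om x⁻¹) ≤ 1 :=
    (ValuationSubring.valuation_le_one_iff _ _).2 h2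
  rw [map_inv₀, map_inv₀] at h4
  have h5 : w.valuation (algebraMap K Om x) ≠ 0 := by
    rw [Valuation.ne_zero_iff]
    exact (map_ne_zero_iff _ (algebraMap K Om).injective).2 h0
  refine le_antisymm h3 ?_
  rwa [inv_le_one₀ (zero_lt_iff.2 h5)] at h4

theorem val_lt_below {w : ValuationSubring Om} {x : K} :
    w.valuation (algebraMap K Om x) < 1 ↔ x = 0 ∨ x⁻¹ ∉ below K w := by
  rw [← ValuationSubring.mem_nonunits_iff, ValuationSubring.mem_nonunits_iff_or,
    map_eq_zero_iff _ (algebraMap K Om).injective, ← map_inv₀]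
  rfl

theorem locHyp_of_dvr {w : ValuationSubring Om} {R : ValuationSubring K}
    (hR : below K w = R) (hd : IsDiscreteValuationRing R)
    (hf : Finite (ResidueField R)) (h2 : w.valuation 2 = 1) {π : R} (hπ : Irreducible π) :
    LocHyp K w (π : K) := by
  subst hR
  have hπ0 : (π : K) ≠ 0 := fun h => hπ.ne_zero (Subtype.ext h)
  have hπ1 : w.valuation (algebraMap K Om (π : K)) < 1 := by
    rw [val_lt_below]
    refine Or.inr fun h => hπ.not_isUnit ?_
    refine IsUnit.of_mul_eq_one ⟨(π : K)⁻¹, h⟩ (Subtype.ext ?_)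
    change (π : K) * (π : K)⁻¹ = 1
    exact mul_inv_cancel₀ hπ0
  have hint : ∀ r : below K w, r ≠ 0 → ∃ n : ℕ,
      w.valuation (algebraMap K Om (r : K)) = (w.valuation (algebraMap K Om (π : K))) ^ n := by
    intro r hr
    obtain ⟨n, u, hu⟩ := IsDiscreteValuationRing.eq_unit_mul_pow_irreducible hr hπ
    refine ⟨n, ?_⟩
    have h1 : (r : K) = ((u : below K w) : K) * (π : K) ^ n := by
      have := congrArg (Subtype.val) hu
      simpa using this
    have h3 : ((u : below K w) : K) ≠ 0 := fun h => u.ne_zero (Subtype.ext h)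
    have h4 : w.valuation (algebraMap K Om ((u : below K w) : K)) = 1 := by
      refine val_unit_below (u : below K w).2 ?_ h3
      have h5 : (((u⁻¹ : (below K w)ˣ) : below K w) : K) = ((u : below K w) : K)⁻¹ := by
        have h6 : (((u⁻¹ : (below K w)ˣ) : below K w) : K) * ((u : below K w) : K) = 1 :=
          congrArg Subtype.val (Units.inv_mul u)
        exact eq_inv_of_mul_eq_one_left h6
      rw [← h5]
      exact ((u⁻¹ : (below K w)ˣ) : below K w).2
    rw [h1, map_mul, map_mul, h4, one_mul, map_pow, map_pow]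
  refine ⟨hπ0, hπ1, fun x hx => ?_, hf, h2⟩
  rcases (below K w).mem_or_inv_mem x with h | h
  · obtain ⟨n, hn⟩ := hint ⟨x, h⟩ (fun h0 => hx (congrArg Subtype.val h0))
    exact ⟨n, by rw [zpow_natCast]; exact hn⟩
  · obtain ⟨n, hn⟩ := hint ⟨x⁻¹, h⟩ (fun h0 => hx (by
      have := congrArg Subtype.val h0
      simpa using this))
    refine ⟨-n, ?_⟩
    rw [zpow_neg, zpow_natCast, ← hn]
    simp

end general

section places

variable {k : Type} [Field k]

theorem finite_residue [Finite k] (v : Place k (RatFunc k)) :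
    Finite (ResidueField v.ring) := by
  by_cases hX : RatFunc.X ∈ v.ring
  · obtain ⟨π, -, hπ, hn'⟩ := exists_irreducible_nonunit v hX
    exact residue_finite v hX hπ hn'
  · rw [eq_placeInfty v hX]
    exact Finite.of_surjective _ constMap_infty_surjective

variable (Om : Type) [Field Om] [Algebra (RatFunc k) Om]

/-- The chosen place of `Om` above `v`. -/
noncomputable def ab (v : Place k (RatFunc k)) : ValuationSubring Om :=
  (exists_above (RatFunc k) (Om := Om) v.ring).choose

theorem below_ab (v : Place k (RatFunc k)) : below (RatFunc k) (ab Om v) = v.ring :=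
  (exists_above (RatFunc k) (Om := Om) v.ring).choose_spec

/-- The decomposition group of the chosen place above `v`. -/
noncomputable abbrev dv (v : Place k (RatFunc k)) : Subgroup (Om ≃ₐ[RatFunc k] Om) :=
  dec (RatFunc k) (ab Om v)

open Classical in
/-- The chosen Frobenius element at `v`. -/
noncomputable def ph (v : Place k (RatFunc k)) : Om ≃ₐ[RatFunc k] Om :=
  if h : ∃ φ, IsFrob (RatFunc k) (ab Om v) φ then h.choose else 1

open Classical in
/-- The chosen tame inertia element at `v`. -/
noncomputable def sg (v : Place k (RatFunc k)) : Om ≃ₐ[RatFunc k] Om :=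
  if h : ∃ σ : Om ≃ₐ[RatFunc k] Om, σ ∈ iner (RatFunc k) (ab Om v) ∧
    ∀ π : v.ring, Irreducible π → chi (RatFunc k) (π : RatFunc k) σ = 1 then h.choose else 1

variable {Om}

/-- Constants are units at every place. -/
theorem val_const (v : Place k (RatFunc k)) {c : k} (hc : c ≠ 0) :
    (ab Om v).valuation (algebraMap (RatFunc k) Om (algebraMap k (RatFunc k) c)) = 1 := by
  refine val_unit_below ?_ ?_ ?_
  · rw [below_ab]; exact v.const_mem c
  · rw [below_ab, ← map_inv₀]; exact v.const_mem _
  · exact (map_ne_zero_iff _ (algebraMap k (RatFunc k)).injective).2 hc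

theorem val_two (h2 : (2 : k) ≠ 0) (v : Place k (RatFunc k)) : (ab Om v).valuation 2 = 1 := by
  have h := val_const (Om := Om) v h2
  rwa [map_ofNat, map_ofNat] at h

theorem locHyp_ab [Finite k] (h2 : (2 : k) ≠ 0) (v : Place k (RatFunc k)) {π : v.ring}
    (hπ : Irreducible π) : LocHyp (RatFunc k) (ab Om v) (π : RatFunc k) :=
  locHyp_of_dvr (below_ab Om v) v.dvr (finite_residue v) (val_two h2 v) hπ

theorem exists_locHyp [Finite k] (h2 : (2 : k) ≠ 0) (v : Place k (RatFunc k)) :
    ∃ π : v.ring, Irreducible π ∧ LocHyp (RatFunc k) (ab Om v) (π : RatFunc k) := by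
  obtain ⟨π, hπ⟩ := IsDiscreteValuationRing.exists_irreducible v.ring
  exact ⟨π, hπ, locHyp_ab h2 v hπ⟩

end places

end Pool.Agent.Lib.SmD
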