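import Pool.Agent.Lib.SmD.Defs

/-!
SMITH, block D, D4 and D5: square roots of units at a place `w` of `Om` (residue characteristic
`≠ 2`), values of the quadratic characters at inertia and Frobenius elements.
-/

set_option autoImplicit false

namespace Pool.Agent.Lib.SmD

variable {K Om : Type*} [Field K] [Field Om] [Algebra K Om] {w : ValuationSubring Om}

section val

lemma val_eq_one_of_sq {x y : Om} (hx : w.valuation x = 1) (hy : y ^ 2 = x) :
    w.valuation y = 1 := by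
  rw [← hy, map_pow] at hx
  exact (pow_eq_one_iff.mp hx).resolve_right two_ne_zero

lemma mem_of_val_eq_one {y : Om} (hy : w.valuation y = 1) : y ∈ w := by
  rw [← ValuationSubring.valuation_le_one_iff, hy]

/-- two elements with the same square -/
lemma eq_or_eq_neg_of_fix {σ : Om ≃ₐ[K] Om} {x y : Om} (hy : y ^ 2 = x) (hx : σ x = x) :
    σ y = y ∨ σ y = -y := by
  apply sq_eq_sq_iff_eq_or_eq_neg.mp
  rw [← map_pow, hy, hx]

lemma val_sub_neg (h2 : w.valuation 2 = 1) (y : Om) :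
    w.valuation (-y - y) = w.valuation y := by
  have : -y - y = -(2 * y) := by ring
  rw [this, Valuation.map_neg, map_mul, h2, one_mul]

/-- D4: square roots of units fixed by an inertia element are fixed by it -/
theorem sqrt_fix_iner (h2 : w.valuation 2 = 1) {σ : Om ≃ₐ[K] Om} (hσ : σ ∈ iner K w) {x y : Om}
    (hx : w.valuation x = 1) (hfix : σ x = x) (hy : y ^ 2 = x) : σ y = y := by
  rcases eq_or_eq_neg_of_fix hy hfix with h | h
  · exact h
  · exfalso
    have hy1 := val_eq_one_of_sq hx hy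
    have h3 := ((mem_iner K).mp hσ).2 y (mem_of_val_eq_one hy1)
    rw [h, val_sub_neg h2, hy1] at h3
    exact lt_irrefl _ h3

/-- D4: square roots of elements `≡ 1` fixed by an element of the decomposition group are fixed
by it -/
theorem sqrt_fix_dec (h2 : w.valuation 2 = 1) {σ : Om ≃ₐ[K] Om} (hσ : σ ∈ dec K w) {x y : Om}
    (hx : w.valuation (x - 1) < 1) (hfix : σ x = x) (hy : y ^ 2 = x) : σ y = y := by
  rcases eq_or_eq_neg_of_fix hy hfix with h | h
  · exact h
  · exfalso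
    have h4 : w.valuation (y - 1) * w.valuation (y + 1) < 1 := by
      rw [← map_mul]
      have : (y - 1) * (y + 1) = x - 1 := by rw [← hy]; ring
      rw [this]
      exact hx
    have h5 : w.valuation (y - 1) < 1 ∨ w.valuation (y + 1) < 1 := by
      by_contra hc
      push Not at hc
      exact absurd h4 (not_lt.mpr (one_le_mul_of_one_le_of_one_le hc.1 hc.2))
    rcases h5 with h6 | h6
    · have h7 := (dec_val_lt K hσ (y - 1)).mpr h6
      rw [map_sub, h, map_one] at h7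
      have h8 := lt_of_le_of_lt (w.valuation.map_add (y - 1) (-y - 1)) (max_lt h6 h7)
      have : y - 1 + (-y - 1) = -2 := by ring
      rw [this, Valuation.map_neg, h2] at h8
      exact lt_irrefl _ h8
    · have h7 := (dec_val_lt K hσ (y + 1)).mpr h6
      rw [map_add, h, map_one] at h7
      have h8 := lt_of_le_of_lt (w.valuation.map_add (y + 1) (-y + 1)) (max_lt h6 h7)
      have : y + 1 + (-y + 1) = 2 := by ring
      rw [this, h2] at h8
      exact lt_irrefl _ h8

end val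

section chi

variable [IsSepClosed Om]

omit [IsSepClosed Om] in
lemma two_ne_zero_Om (h2 : w.valuation 2 = 1) : (2 : Om) ≠ 0 := by
  intro h
  rw [h, map_zero] at h2
  exact zero_ne_one h2

lemma exists_sqrt (h2 : (2 : Om) ≠ 0) (x : Om) : ∃ y : Om, y ^ 2 = x := by
  have : NeZero (2 : Om) := ⟨h2⟩
  obtain ⟨y, hy⟩ := IsSepClosed.exists_eq_mul_self x
  exact ⟨y, by rw [hy, sq]⟩

omit [IsSepClosed Om] in
lemma chi_eq_zero_of_root (f : K) (σ : Om ≃ₐ[K] Om) {y : Om} (hy : y ^ 2 = algebraMap K Om f)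
    (h : σ y = y) : chi K f σ = 0 := by
  rw [chi, if_pos]
  intro r hr
  rcases sq_eq_sq_iff_eq_or_eq_neg.mp (hr.trans hy.symm) with h1 | h1
  · rw [h1, h]
  · rw [h1, map_neg, h]

omit [IsSepClosed Om] in
lemma fix_of_chi_eq_zero {f : K} {σ : Om ≃ₐ[K] Om} (h : chi K f σ = 0) {y : Om}
    (hy : y ^ 2 = algebraMap K Om f) : σ y = y := by
  rw [chi] at h
  by_contra hc
  rw [if_neg (fun h1 => hc (h1 y hy))] at h
  exact one_ne_zero h

omit [IsSepClosed Om] in
lemma chi_eq_zero_iff (f : K) (σ : Om ≃ₐ[K] Om) {y : Om} (hy : y ^ 2 = algebraMap K Om f) :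
    chi K f σ = 0 ↔ σ y = y :=
  ⟨fun h => fix_of_chi_eq_zero h hy, chi_eq_zero_of_root f σ hy⟩

omit [IsSepClosed Om] in
lemma root_ne_zero {f : K} (hf : f ≠ 0) {y : Om} (hy : y ^ 2 = algebraMap K Om f) : y ≠ 0 := by
  rintro rfl
  apply hf
  apply (algebraMap K Om).injective
  rw [← hy, map_zero]
  simp

omit [IsSepClosed Om] in
lemma chi_eq_one_iff (h2 : (2 : Om) ≠ 0) {f : K} (hf : f ≠ 0) (σ : Om ≃ₐ[K] Om) {y : Om}
    (hy : y ^ 2 = algebraMap K Om f) : chi K f σ = 1 ↔ σ y = -y := by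
  have h01 : ∀ a : ZMod 2, a = 1 ↔ ¬ a = 0 := by decide
  rw [h01, chi_eq_zero_iff f σ hy]
  rcases eq_or_eq_neg_of_fix hy (σ.commutes f) with h | h
  · refine ⟨fun h1 => absurd h h1, fun h1 h3 => ?_⟩
    rw [h3] at h1
    have h4 : 2 * y = 0 := by linear_combination h1
    exact root_ne_zero hf hy ((mul_eq_zero.mp h4).resolve_left h2)
  · refine ⟨fun _ => h, fun _ h1 => ?_⟩
    rw [h] at h1
    have h4 : 2 * y = 0 := by linear_combination -h1
    exact root_ne_zero hf hy ((mul_eq_zero.mp h4).resolve_left h2)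

/-- `chi` is a homomorphism in `σ` -/
theorem chi_mul (h2 : (2 : Om) ≠ 0) {f : K} (hf : f ≠ 0) (σ τ : Om ≃ₐ[K] Om) :
    chi K f (σ * τ) = chi K f σ + chi K f τ := by
  obtain ⟨y, hy⟩ := exists_sqrt h2 (algebraMap K Om f)
  have h01 : ∀ a : ZMod 2, a = 0 ∨ a = 1 := by decide
  rcases h01 (chi K f σ) with h | h <;> rcases h01 (chi K f τ) with h' | h' <;> rw [h, h']
  · rw [chi_eq_zero_iff f _ hy] at h h'
    rw [add_zero, chi_eq_zero_iff f _ hy, AlgEquiv.mul_apply, h', h]
  · rw [chi_eq_zero_iff f _ hy] at h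
    rw [chi_eq_one_iff h2 hf _ hy] at h'
    rw [zero_add, chi_eq_one_iff h2 hf _ hy, AlgEquiv.mul_apply, h', map_neg, h]
  · rw [chi_eq_zero_iff f _ hy] at h'
    rw [chi_eq_one_iff h2 hf _ hy] at h
    rw [add_zero, chi_eq_one_iff h2 hf _ hy, AlgEquiv.mul_apply, h', h]
  · rw [chi_eq_one_iff h2 hf _ hy] at h h'
    have : (1 : ZMod 2) + 1 = 0 := by decide
    rw [this, chi_eq_zero_iff f _ hy, AlgEquiv.mul_apply, h', map_neg, h, neg_neg]

/-- `chi` is multiplicative in `f` -/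
theorem chi_mul_left (h2 : (2 : Om) ≠ 0) {f g : K} (hf : f ≠ 0) (hg : g ≠ 0)
    (σ : Om ≃ₐ[K] Om) : chi K (f * g) σ = chi K f σ + chi K g σ := by
  obtain ⟨y, hy⟩ := exists_sqrt h2 (algebraMap K Om f)
  obtain ⟨z, hz⟩ := exists_sqrt h2 (algebraMap K Om g)
  have hyz : (y * z) ^ 2 = algebraMap K Om (f * g) := by rw [mul_pow, hy, hz, map_mul]
  have h01 : ∀ a : ZMod 2, a = 0 ∨ a = 1 := by decide
  rcases h01 (chi K f σ) with h | h <;> rcases h01 (chi K g σ) with h' | h' <;> rw [h, h']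
  · rw [chi_eq_zero_iff f _ hy] at h
    rw [chi_eq_zero_iff g _ hz] at h'
    rw [add_zero, chi_eq_zero_iff _ _ hyz, map_mul, h', h]
  · rw [chi_eq_zero_iff f _ hy] at h
    rw [chi_eq_one_iff h2 hg _ hz] at h'
    rw [zero_add, chi_eq_one_iff h2 (mul_ne_zero hf hg) _ hyz, map_mul, h', h, mul_neg]
  · rw [chi_eq_zero_iff g _ hz] at h'
    rw [chi_eq_one_iff h2 hf _ hy] at h
    rw [add_zero, chi_eq_one_iff h2 (mul_ne_zero hf hg) _ hyz, map_mul, h', h, neg_mul]
  · rw [chi_eq_one_iff h2 hf _ hy] at h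
    rw [chi_eq_one_iff h2 hg _ hz] at h'
    have : (1 : ZMod 2) + 1 = 0 := by decide
    rw [this, chi_eq_zero_iff _ _ hyz, map_mul, h', h, neg_mul_neg]

/-- `chi` of a unit vanishes on inertia -/
theorem chi_iner_unit (h2 : w.valuation 2 = 1) {σ : Om ≃ₐ[K] Om} (hσ : σ ∈ iner K w) {f : K}
    (hf : w.valuation (algebraMap K Om f) = 1) : chi K f σ = 0 := by
  obtain ⟨y, hy⟩ := exists_sqrt (two_ne_zero_Om h2) (algebraMap K Om f)
  rw [chi_eq_zero_iff f σ hy]
  exact sqrt_fix_iner h2 hσ hf (σ.commutes f) hy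

end chi

end Pool.Agent.Lib.SmD
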