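import Mathlib
import Pool.Agent.Lib.SmD.Defs
import Pool.Agent.Lib.SmD.Plc
import Pool.Agent.Lib.SmD.Frob
import Pool.Agent.Lib.SmD.Basic
import Pool.Agent.Lib.SmD.Sqrt
import Pool.Agent.Lib.SmD.ChiFrob
import Pool.Agent.Lib.SmD.ValIner
import Pool.Agent.Lib.SmD.FinGen

/-!
# Project SMITH, block D: properties of the chosen elements `ph`, `sg` above the places of `k(t)`
-/

set_option autoImplicit false

open IsLocalRing

namespace Pool.Agent.Lib.SmD

open Pool.Agent.BSDFF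

variable {k : Type} [Field k] [Finite k] {Om : Type} [Field Om] [Algebra (RatFunc k) Om]
  [IsGalois (RatFunc k) Om]

instance finite_residue_below (v : Place k (RatFunc k)) :
    Finite (ResidueField (below (RatFunc k) (ab Om v))) := by
  rw [below_ab]
  exact finite_residue v

theorem ph_frob (v : Place k (RatFunc k)) : IsFrob (RatFunc k) (ab Om v) (ph Om v) := by
  have h : ∃ φ, IsFrob (RatFunc k) (ab Om v) φ := exists_frob (ab Om v)
  rw [ph, dif_pos h]
  exact h.choose_spec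

theorem ph_mem (v : Place k (RatFunc k)) : ph Om v ∈ dv Om v := (ph_frob v).mem

omit [Finite k] [IsGalois (RatFunc k) Om] in
theorem chi_iner_ring [IsSepClosed Om] (h2 : (2 : k) ≠ 0) (v : Place k (RatFunc k)) {f : RatFunc k}
    (hf : f ≠ 0) (h1 : f ∈ v.ring) (h1' : f⁻¹ ∈ v.ring) {σ : Om ≃ₐ[RatFunc k] Om}
    (hσ : σ ∈ iner (RatFunc k) (ab Om v)) : chi (RatFunc k) f σ = 0 := by
  refine chi_iner_unit (w := ab Om v) (val_two h2 v) hσ ?_
  refine val_unit_below ?_ ?_ hf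
  · rw [below_ab]; exact h1
  · rw [below_ab]; exact h1'

theorem sg_spec [IsSepClosed Om] (h2 : (2 : k) ≠ 0) (v : Place k (RatFunc k)) :
    sg Om v ∈ iner (RatFunc k) (ab Om v) ∧
    ∀ π : v.ring, Irreducible π → chi (RatFunc k) (π : RatFunc k) (sg Om v) = 1 := by
  have h : ∃ σ : Om ≃ₐ[RatFunc k] Om, σ ∈ iner (RatFunc k) (ab Om v) ∧
      ∀ π : v.ring, Irreducible π → chi (RatFunc k) (π : RatFunc k) σ = 1 := by
    obtain ⟨π0, hπ0, hL⟩ := exists_locHyp (Om := Om) h2 v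
    obtain ⟨σ, hσ, hσ1⟩ := exists_sg hL
    refine ⟨σ, hσ, fun π hπ => ?_⟩
    obtain ⟨u, hu⟩ := IsDiscreteValuationRing.associated_of_irreducible _ hπ0 hπ
    have h3 : (π : RatFunc k) = (π0 : RatFunc k) * ((u : v.ring) : RatFunc k) := by
      rw [← hu]; rfl
    have hu0 : ((u : v.ring) : RatFunc k) ≠ 0 := fun h => u.ne_zero (Subtype.ext h)
    have hui : ((u : v.ring) : RatFunc k)⁻¹ ∈ v.ring := by
      have h5 : (((u⁻¹ : (v.ring)ˣ) : v.ring) : RatFunc k) = ((u : v.ring) : RatFunc k)⁻¹ := by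
        have h6 : (((u⁻¹ : (v.ring)ˣ) : v.ring) : RatFunc k) * ((u : v.ring) : RatFunc k) = 1 :=
          congrArg Subtype.val (Units.inv_mul u)
        exact eq_inv_of_mul_eq_one_left h6
      rw [← h5]
      exact ((u⁻¹ : (v.ring)ˣ) : v.ring).2
    have h4 := chi_iner_ring h2 v hu0 (u : v.ring).2 hui hσ
    rw [h3, chi_mul_left (two_ne_zero_Om (val_two h2 v)) hL.pi_ne hu0, hσ1, h4, add_zero]
  rw [sg, dif_pos h]
  exact h.choose_spec

theorem sg_iner [IsSepClosed Om] (h2 : (2 : k) ≠ 0) (v : Place k (RatFunc k)) :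
    sg Om v ∈ iner (RatFunc k) (ab Om v) := (sg_spec h2 v).1

theorem sg_mem [IsSepClosed Om] (h2 : (2 : k) ≠ 0) (v : Place k (RatFunc k)) :
    sg Om v ∈ dv Om v := (sg_iner h2 v).1

/-- D5 (b) -/
theorem chi_sg_irr [IsSepClosed Om] (h2 : (2 : k) ≠ 0) (v : Place k (RatFunc k)) {π : v.ring}
    (hπ : Irreducible π) : chi (RatFunc k) (π : RatFunc k) (sg Om v) = 1 := (sg_spec h2 v).2 π hπ

/-- D5 (a) -/
theorem chi_sg_unit [IsSepClosed Om] (h2 : (2 : k) ≠ 0) (v : Place k (RatFunc k)) {f : RatFunc k}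
    (hf : f ≠ 0) (h1 : f ∈ v.ring) (h1' : f⁻¹ ∈ v.ring) : chi (RatFunc k) f (sg Om v) = 0 :=
  chi_iner_ring h2 v hf h1 h1' (sg_iner h2 v)

theorem isSg_sg [IsSepClosed Om] (h2 : (2 : k) ≠ 0) (v : Place k (RatFunc k)) {π : v.ring}
    (hπ : Irreducible π) : IsSg (RatFunc k) (ab Om v) (π : RatFunc k) (sg Om v) :=
  ⟨sg_iner h2 v, chi_sg_irr h2 v hπ⟩

/-- D5 (c) -/
theorem chi_ph_iff [IsSepClosed Om] (h2 : (2 : k) ≠ 0) (v : Place k (RatFunc k)) {u : v.ring}
    (hu : IsUnit u) : chi (RatFunc k) (u : RatFunc k) (ph Om v) = 0 ↔ IsSquare (residue v.ring u) := by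
  have key : ∀ (R : ValuationSubring (RatFunc k)) (hR : below (RatFunc k) (ab Om v) = R) (u : R)
      (hu : IsUnit u), chi (RatFunc k) (u : RatFunc k) (ph Om v) = 0 ↔ IsSquare (residue R u) := by
    intro R hR u hu
    subst hR
    have hval : (ab Om v).valuation (algebraMap (RatFunc k) Om (u : RatFunc k)) = 1 := by
      obtain ⟨u', hu'⟩ := hu
      have h0 : (u : RatFunc k) ≠ 0 := by
        rw [← hu']
        exact fun h => u'.ne_zero (Subtype.ext h)
      refine val_unit_below u.2 ?_ h0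
      have h5 : (((u'⁻¹ : (below (RatFunc k) (ab Om v))ˣ) : below (RatFunc k) (ab Om v)) : RatFunc k) =
          (u : RatFunc k)⁻¹ := by
        have h6 : (((u'⁻¹ : (below (RatFunc k) (ab Om v))ˣ) : below (RatFunc k) (ab Om v)) : RatFunc k) *
            ((u' : below (RatFunc k) (ab Om v)) : RatFunc k) = 1 :=
          congrArg Subtype.val (Units.inv_mul u')
        rw [← hu']
        exact eq_inv_of_mul_eq_one_left h6
      rw [← h5]
      exact ((u'⁻¹ : (below (RatFunc k) (ab Om v))ˣ) : below (RatFunc k) (ab Om v)).2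
    exact chi_frob_iff (val_two h2 v) (finite_residue_below v) (ph_frob v) hval
  exact key v.ring (below_ab Om v) u hu

end Pool.Agent.Lib.SmD
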