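import Pool.Agent.Lib.SmD.ChiFrob

/-!
SMITH, block D: under `LocHyp` the place of `K` below `w` is a discrete valuation ring with
uniformizer `π`.
-/

set_option autoImplicit false

namespace Pool.Agent.Lib.SmD

variable {K Om : Type*} [Field K] [Field Om] [Algebra K Om] {w : ValuationSubring Om} {π : K}

lemma LocHyp.pi_mem (h : LocHyp K w π) : π ∈ below K w := mem_below_iff.mpr h.pi_lt.le

lemma LocHyp.pi_pos (h : LocHyp K w π) : 0 < w.valuation (algebraMap K Om π) := by
  rw [zero_lt_iff, Ne, map_eq_zero, map_eq_zero]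
  exact h.pi_ne

lemma LocHyp.two_ne (h : LocHyp K w π) : (2 : Om) ≠ 0 := two_ne_zero_Om h.two

lemma LocHyp.zpow_inj (h : LocHyp K w π) {m n : ℤ}
    (hmn : w.valuation (algebraMap K Om π) ^ m = w.valuation (algebraMap K Om π) ^ n) : m = n :=
  (zpow_right_inj₀ h.pi_pos h.pi_lt.ne).mp hmn

lemma isUnit_below_iff {x : K} (hx : x ∈ below K w) :
    IsUnit (⟨x, hx⟩ : below K w) ↔ w.valuation (algebraMap K Om x) = 1 := by
  have h1 := residue_eq_zero_iff_val (w := w) hx
  have h2 := (IsLocalRing.residue_ne_zero_iff_isUnit (⟨x, hx⟩ : below K w))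
  rw [← h2, Ne, h1, not_lt]
  exact ⟨fun h => le_antisymm (mem_below_iff.mp hx) h, fun h => h.ge⟩

/-- every nonzero element of `K` is a power of `π` times a unit -/
lemma LocHyp.exists_eq (h : LocHyp K w π) {x : K} (hx : x ≠ 0) :
    ∃ (n : ℤ) (u : K), x = π ^ n * u ∧ w.valuation (algebraMap K Om u) = 1 := by
  obtain ⟨n, hn⟩ := h.disc x hx
  refine ⟨n, (π ^ n)⁻¹ * x, ?_, ?_⟩
  · rw [mul_inv_cancel_left₀ (zpow_ne_zero n h.pi_ne)]
  · rw [map_mul, map_mul, map_inv₀, map_inv₀, map_zpow₀, map_zpow₀, hn,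
      inv_mul_cancel₀ (zpow_ne_zero n h.pi_pos.ne')]

lemma LocHyp.nonneg_of_mem (h : LocHyp K w π) {x : K} {n : ℤ} (hx : x ∈ below K w)
    (hn : w.valuation (algebraMap K Om x) = w.valuation (algebraMap K Om π) ^ n) : 0 ≤ n := by
  rw [mem_below_iff, hn, zpow_le_one_iff_right_of_lt_one₀ h.pi_pos h.pi_lt] at hx
  exact hx

theorem LocHyp.irreducible (h : LocHyp K w π) : Irreducible (⟨π, h.pi_mem⟩ : below K w) := by
  rw [irreducible_iff]
  refine ⟨?_, ?_⟩
  · rw [isUnit_below_iff]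
    exact h.pi_lt.ne
  · rintro ⟨a, ha⟩ ⟨b, hb⟩ hab
    have hab' : π = a * b := congrArg Subtype.val hab
    have ha0 : a ≠ 0 := by
      rintro rfl
      exact h.pi_ne (by rw [hab', zero_mul])
    have hb0 : b ≠ 0 := by
      rintro rfl
      exact h.pi_ne (by rw [hab', mul_zero])
    obtain ⟨i, hi⟩ := h.disc a ha0
    obtain ⟨j, hj⟩ := h.disc b hb0
    have hi0 := h.nonneg_of_mem ha hi
    have hj0 := h.nonneg_of_mem hb hj
    have h1 : w.valuation (algebraMap K Om π) ^ (1 : ℤ) =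
        w.valuation (algebraMap K Om π) ^ (i + j) := by
      rw [zpow_add₀ h.pi_pos.ne', ← hi, ← hj, ← map_mul, ← map_mul, ← hab', zpow_one]
    have h2 := h.zpow_inj h1
    rw [isUnit_below_iff, isUnit_below_iff]
    rcases eq_or_lt_of_le hi0 with h3 | h3
    · left
      rw [hi, ← h3, zpow_zero]
    · right
      have : j = 0 := by omega
      rw [hj, this, zpow_zero]

theorem LocHyp.isDiscreteValuationRing (h : LocHyp K w π) :
    IsDiscreteValuationRing (below K w) := by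
  refine IsDiscreteValuationRing.ofHasUnitMulPowIrreducibleFactorization
    ⟨⟨π, h.pi_mem⟩, h.irreducible, ?_⟩
  rintro ⟨x, hx⟩ hx0
  have hx0' : x ≠ 0 := fun h1 => hx0 (Subtype.ext h1)
  obtain ⟨n, u, hxu, hu⟩ := h.exists_eq hx0'
  have hn : w.valuation (algebraMap K Om x) = w.valuation (algebraMap K Om π) ^ n := by
    rw [hxu, map_mul, map_mul, hu, mul_one, map_zpow₀, map_zpow₀]
  have hn0 := h.nonneg_of_mem hx hn
  obtain ⟨m, rfl⟩ := Int.eq_ofNat_of_zero_le hn0
  have hub : u ∈ below K w := mem_below_iff.mpr hu.le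
  refine ⟨m, ((isUnit_below_iff hub).mpr hu).unit, ?_⟩
  apply Subtype.ext
  rw [IsUnit.unit_spec]
  change π ^ m * u = x
  rw [hxu, zpow_natCast]

end Pool.Agent.Lib.SmD
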