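import Mathlib

/-!
SMITH, block D: the set `NN K Ω` of the open normal subgroups of 2-power index of `Gal(Ω/K)`,
that is of the groups `Gal(Ω/L)`, `L/K` finite Galois of 2-power degree.
-/

set_option autoImplicit false

namespace Pool.Agent.SmD

open IntermediateField

variable (K Ω : Type*) [Field K] [Field Ω] [Algebra K Ω]

/-- the open normal subgroups of 2-power index of `Gal(Ω/K)` -/
def NN : Set (Subgroup (Ω ≃ₐ[K] Ω)) :=
  {N | N.Normal ∧ IsOpen (N : Set (Ω ≃ₐ[K] Ω)) ∧ ∃ r : ℕ, N.index = 2 ^ r}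

variable {K Ω}

theorem NN.normal {N : Subgroup (Ω ≃ₐ[K] Ω)} (h : N ∈ NN K Ω) : N.Normal := h.1

theorem NN.isOpen {N : Subgroup (Ω ≃ₐ[K] Ω)} (h : N ∈ NN K Ω) :
    IsOpen (N : Set (Ω ≃ₐ[K] Ω)) := h.2.1

theorem NN.finiteIndex {N : Subgroup (Ω ≃ₐ[K] Ω)} (h : N ∈ NN K Ω) : N.FiniteIndex := by
  obtain ⟨r, hr⟩ := h.2.2
  exact ⟨by rw [hr]; positivity⟩

theorem top_mem_NN : (⊤ : Subgroup (Ω ≃ₐ[K] Ω)) ∈ NN K Ω :=
  ⟨inferInstance, by simp, 0, by simp⟩

theorem inf_mem_NN {N N' : Subgroup (Ω ≃ₐ[K] Ω)} (h : N ∈ NN K Ω) (h' : N' ∈ NN K Ω) :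
    N ⊓ N' ∈ NN K Ω := by
  obtain ⟨h1, h2, r, h3⟩ := h
  obtain ⟨h1', h2', r', h3'⟩ := h'
  refine ⟨inferInstance, ?_, ?_⟩
  · rw [Subgroup.coe_inf]
    exact h2.inter h2'
  · have e1 : (N ⊓ N').index = N.relIndex N' * N'.index := by
      rw [← Subgroup.inf_relIndex_right N N', Subgroup.relIndex_mul_index inf_le_right]
    have e2 : N.relIndex N' ∣ 2 ^ r := by
      rw [← h3]
      exact Subgroup.relIndex_dvd_index_of_normal N N'
    obtain ⟨m, -, hm⟩ := (Nat.dvd_prime_pow Nat.prime_two).mp e2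
    exact ⟨m + r', by rw [e1, hm, h3', pow_add]⟩

/-- an open normal subgroup such that every element has a 2-power in it -/
theorem mem_NN_of_pow [IsGalois K Ω] {N : Subgroup (Ω ≃ₐ[K] Ω)} (h1 : N.Normal)
    (h2 : IsOpen (N : Set (Ω ≃ₐ[K] Ω))) (h3 : ∀ σ, ∃ m : ℕ, σ ^ (2 ^ m) ∈ N) : N ∈ NN K Ω := by
  refine ⟨h1, h2, ?_⟩
  have hfin : Finite ((Ω ≃ₐ[K] Ω) ⧸ N) := Subgroup.quotient_finite_of_isOpen N h2
  have hp : IsPGroup 2 ((Ω ≃ₐ[K] Ω) ⧸ N) := by
    intro g
    obtain ⟨σ, rfl⟩ := QuotientGroup.mk_surjective g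
    obtain ⟨m, hm⟩ := h3 σ
    refine ⟨m, ?_⟩
    rw [← QuotientGroup.mk_pow]
    exact (QuotientGroup.eq_one_iff _).mpr hm
  have : Fact (Nat.Prime 2) := ⟨Nat.prime_two⟩
  exact IsPGroup.iff_card.mp hp

theorem index_fixingSubgroup [IsGalois K Ω] (L : IntermediateField K Ω) [FiniteDimensional K L]
    [IsGalois K L] : L.fixingSubgroup.index = Module.finrank K L := by
  rw [← IsGalois.card_aut_eq_finrank K L, ← IntermediateField.restrictNormalHom_ker L,
    Subgroup.index_ker, (MonoidHom.range_eq_top).mpr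
      (AlgEquiv.restrictNormalHom_surjective Ω), Subgroup.card_top]

/-- `Gal(Ω/L) ∈ NN` for `L/K` finite Galois of 2-power degree -/
theorem fixingSubgroup_mem_NN [IsGalois K Ω] (L : IntermediateField K Ω) [FiniteDimensional K L]
    [IsGalois K L] {r : ℕ} (h : Module.finrank K L = 2 ^ r) : L.fixingSubgroup ∈ NN K Ω := by
  refine ⟨?_, IntermediateField.fixingSubgroup_isOpen L, r, by rw [index_fixingSubgroup, h]⟩
  rw [InfiniteGalois.normal_iff_isGalois]
  infer_instance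

/-- every `N ∈ NN` is `Gal(Ω/L)` for a finite Galois `L/K` of 2-power degree -/
theorem exists_field_of_mem_NN [IsGalois K Ω] {N : Subgroup (Ω ≃ₐ[K] Ω)} (h : N ∈ NN K Ω) :
    ∃ L : IntermediateField K Ω, FiniteDimensional K L ∧ IsGalois K L ∧
      (∃ r : ℕ, Module.finrank K L = 2 ^ r) ∧ L.fixingSubgroup = N := by
  obtain ⟨h1, h2, r, h3⟩ := h
  have hcl : IsClosed (N : Set (Ω ≃ₐ[K] Ω)) := N.isClosed_of_isOpen h2
  have e1 : (IntermediateField.fixedField N).fixingSubgroup = N :=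
    InfiniteGalois.fixingSubgroup_fixedField ⟨N, hcl⟩
  have hfd : FiniteDimensional K (IntermediateField.fixedField N) := by
    rw [← InfiniteGalois.isOpen_iff_finite, e1]
    exact h2
  have hgal : IsGalois K (IntermediateField.fixedField N) := by
    rw [← InfiniteGalois.normal_iff_isGalois, e1]
    exact h1
  exact ⟨_, hfd, hgal, ⟨r, by rw [← index_fixingSubgroup, e1, h3]⟩, e1⟩

/-- the square roots of finitely many elements of `K` are fixed by an element of `NN` -/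
theorem exists_NN_fix_sqrt [IsGalois K Ω] (s : Ω) (hs : ∃ a : K, s ^ 2 = algebraMap K Ω a) :
    ∃ N ∈ NN K Ω, ∀ σ ∈ N, σ s = s := by
  obtain ⟨a, ha⟩ := hs
  have hsq : ∀ σ : Ω ≃ₐ[K] Ω, σ s = s ∨ σ s = -s := by
    intro σ
    apply sq_eq_sq_iff_eq_or_eq_neg.mp
    rw [← map_pow, ha, AlgEquiv.commutes]
  refine ⟨MulAction.stabilizer (Ω ≃ₐ[K] Ω) s, mem_NN_of_pow ?_ ?_ ?_, fun σ hσ => hσ⟩
  · refine ⟨fun σ hσ τ => ?_⟩
    rw [MulAction.mem_stabilizer_iff] at hσ ⊢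
    have h1 : σ s = s := hσ
    change τ (σ (τ⁻¹ s)) = s
    rcases hsq τ⁻¹ with h | h
    · have h2 : τ s = s := by
        have := congrArg τ h
        rw [← AlgEquiv.mul_apply, mul_inv_cancel, AlgEquiv.one_apply] at this
        exact this.symm
      rw [h, h1, h2]
    · have h2 : τ s = -s := by
        have := congrArg τ h
        rw [← AlgEquiv.mul_apply, mul_inv_cancel, AlgEquiv.one_apply, map_neg] at this
        exact neg_eq_iff_eq_neg.mp this.symm
      rw [h, map_neg, h1, map_neg, h2, neg_neg]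
  · exact stabilizer_isOpen_of_isIntegral (K := K) s
  · intro σ
    refine ⟨1, ?_⟩
    rw [MulAction.mem_stabilizer_iff]
    change (σ ^ (2 ^ 1)) s = s
    rw [pow_one, pow_two, AlgEquiv.mul_apply]
    rcases hsq σ with h | h
    · rw [h, h]
    · rw [h, map_neg, h, neg_neg]

end Pool.Agent.SmD
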