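import Pool.Agent.Lib.SmD.Main
import Pool.Agent.Lib.SmF.Vals

/-!
# Project SMITH: the chosen elements `sg`, `ph` satisfy `LocVals` of block F
-/

set_option autoImplicit false

namespace Pool.Agent.Lib.SmD

open Pool.Agent.BSDFF Pool.Agent.SmF

variable {k : Type} [Field k] [Finite k] {Om : Type} [Field Om] [Algebra (RatFunc k) Om]

theorem locVals [IsSepClosure (RatFunc k) Om] (h2 : (2 : k) ≠ 0) :
    LocVals (fun v => sg Om v) (fun v => ph (k := k) Om v) := by
  have : IsSepClosed Om := IsSepClosure.sep_closed (RatFunc k)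
  have : IsGalois (RatFunc k) Om := inferInstance
  exact ⟨fun v f hf h1 h1' => chi_sg_unit h2 v hf h1 h1', fun v π hπ => chi_sg_irr h2 v hπ,
    fun v u hu => chi_ph_iff h2 v hu⟩

end Pool.Agent.Lib.SmD
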