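import Pool.Agent.Lib.SmD.ChiLoc
import Pool.Agent.Lib.SmD.ValIner
import Pool.Agent.Lib.SmD.Basic
import Pool.Agent.Lib.SmD.FinGen
import Pool.Agent.Lib.SmD.NN

/-!
SMITH, block D, D2: local homomorphisms to `ZMod 2` are determined by their values at the tame
inertia element and the Frobenius element, and all of them are quadratic characters.
-/

set_option autoImplicit false

namespace Pool.Agent.Lib.SmD

variable {K Om : Type*} [Field K] [Field Om] [Algebra K Om] {w : ValuationSubring Om} {π : K}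

/-- the sign eigenvector of a homomorphism of finite level on a closed subgroup -/
theorem exists_anti [IsGalois K Om] {D : Subgroup (Om ≃ₐ[K] Om)}
    (hD : IsClosed (D : Set (Om ≃ₐ[K] Om))) {c : (Om ≃ₐ[K] Om) → ZMod 2}
    (hc : ∀ s ∈ D, ∀ t ∈ D, c (s * t) = c s + c t) (hfin : FinOn D c)
    {σ0 : Om ≃ₐ[K] Om} (hσ0 : σ0 ∈ D) (h0 : c σ0 ≠ 0) :
    ∃ y : Om, y ≠ 0 ∧ (∀ σ ∈ D, c σ = 0 → σ y = y) ∧ ∀ σ ∈ D, c σ ≠ 0 → σ y = -y := by
  have h11 : (1 : ZMod 2) + 1 = 0 := by decide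
  have hadd : ∀ a b : ZMod 2, a ≠ 0 → b ≠ 0 → a + b = 0 := by decide
  have hc1 : c 1 = 0 := by
    have h := hc 1 D.one_mem 1 D.one_mem
    rw [one_mul] at h
    exact left_eq_add.mp h
  have hinv : ∀ s ∈ D, c s⁻¹ = c s := by
    intro s hs
    have h := hc s hs s⁻¹ (D.inv_mem hs)
    rw [mul_inv_cancel, hc1] at h
    revert h
    generalize c s = a
    generalize c s⁻¹ = b
    revert a b
    decide
  let N : Subgroup (Om ≃ₐ[K] Om) :=
    { carrier := {σ | σ ∈ D ∧ c σ = 0}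
      one_mem' := ⟨D.one_mem, hc1⟩
      mul_mem' := fun {s t} hs ht => ⟨D.mul_mem hs.1 ht.1, by rw [hc s hs.1 t ht.1, hs.2, ht.2,
        add_zero]⟩
      inv_mem' := fun {s} hs => ⟨D.inv_mem hs.1, by rw [hinv s hs.1, hs.2]⟩ }
  have hNcl : IsClosed (N : Set (Om ≃ₐ[K] Om)) := by
    obtain ⟨L, hL, hLc⟩ := hfin
    have hU : IsOpen (L.fixingSubgroup : Set (Om ≃ₐ[K] Om)) :=
      IntermediateField.fixingSubgroup_isOpen L
    refine isClosed_of_closure_subset fun σ hσ => ?_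
    have hσD : σ ∈ D := by
      have h1 : closure (N : Set (Om ≃ₐ[K] Om)) ⊆ D :=
        hD.closure_subset_iff.mpr fun τ hτ => hτ.1
      exact h1 hσ
    have hV : IsOpen ((fun τ => σ⁻¹ * τ) ⁻¹' (L.fixingSubgroup : Set (Om ≃ₐ[K] Om))) :=
      hU.preimage (continuous_const_mul σ⁻¹)
    obtain ⟨ν, hν1, hν2⟩ := mem_closure_iff.mp hσ _ hV (by
      change σ⁻¹ * σ ∈ L.fixingSubgroup
      rw [inv_mul_cancel]
      exact L.fixingSubgroup.one_mem)
    refine ⟨hσD, ?_⟩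
    rw [← hν2.2]
    apply hLc σ hσD ν hν2.1
    intro x hx
    have h3 : (σ⁻¹ * ν) x = x := (IntermediateField.mem_fixingSubgroup_iff L _).mp hν1 x hx
    rw [AlgEquiv.mul_apply] at h3
    have h4 := congrArg σ h3
    rw [← AlgEquiv.mul_apply, mul_inv_cancel, AlgEquiv.one_apply] at h4
    exact h4.symm
  have hfix : (IntermediateField.fixedField N).fixingSubgroup = N :=
    InfiniteGalois.fixingSubgroup_fixedField ⟨N, hNcl⟩
  obtain ⟨y0, hy0, hy0'⟩ : ∃ y0 ∈ IntermediateField.fixedField N, σ0 y0 ≠ y0 := by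
    by_contra hcon
    push Not at hcon
    have h1 : σ0 ∈ (IntermediateField.fixedField N).fixingSubgroup :=
      (IntermediateField.mem_fixingSubgroup_iff _ _).mpr hcon
    rw [hfix] at h1
    exact h0 h1.2
  have hfixy : ∀ ν ∈ D, c ν = 0 → ν y0 = y0 := by
    intro ν hν hν0
    exact (IntermediateField.mem_fixedField_iff N y0).mp hy0 ν ⟨hν, hν0⟩
  have hy1 : ∀ σ ∈ D, c σ = 0 → σ (y0 - σ0 y0) = y0 - σ0 y0 := by
    intro σ hσ hσc
    have h1 : σ0⁻¹ * σ * σ0 ∈ D := D.mul_mem (D.mul_mem (D.inv_mem hσ0) hσ) hσ0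
    have h2 : c (σ0⁻¹ * σ * σ0) = 0 := by
      rw [hc _ (D.mul_mem (D.inv_mem hσ0) hσ) _ hσ0, hc _ (D.inv_mem hσ0) _ hσ, hinv _ hσ0,
        hσc, add_zero]
      exact hadd _ _ h0 h0
    have h3 := congrArg σ0 (hfixy _ h1 h2)
    rw [← AlgEquiv.mul_apply] at h3
    have h4 : σ0 * (σ0⁻¹ * σ * σ0) = σ * σ0 := by group
    rw [h4, AlgEquiv.mul_apply] at h3
    rw [map_sub, hfixy σ hσ hσc, h3]
  refine ⟨y0 - σ0 y0, sub_ne_zero.mpr hy0'.symm, hy1, ?_⟩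
  intro σ hσ hσc
  have h1 : σ0⁻¹ * σ ∈ D := D.mul_mem (D.inv_mem hσ0) hσ
  have h2 : c (σ0⁻¹ * σ) = 0 := by
    rw [hc _ (D.inv_mem hσ0) _ hσ, hinv _ hσ0]
    exact hadd _ _ h0 hσc
  have h3 := congrArg σ0 (hy1 _ h1 h2)
  rw [← AlgEquiv.mul_apply, mul_inv_cancel_left] at h3
  rw [h3]
  have h5 : σ0 (σ0 y0) = y0 := by
    rw [← AlgEquiv.mul_apply]
    apply hfixy _ (D.mul_mem hσ0 hσ0)
    rw [hc _ hσ0 _ hσ0]
    exact hadd _ _ h0 h0
  rw [map_sub, h5]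
  ring

/-- D2 for the inertia group -/
theorem hom_iner [IsGalois K Om] [IsSepClosed Om] (h : LocHyp K w π) {τ : Om ≃ₐ[K] Om}
    (hτ : IsSg K w π τ) {c : (Om ≃ₐ[K] Om) → ZMod 2}
    (hc : ∀ s ∈ iner K w, ∀ t ∈ iner K w, c (s * t) = c s + c t) (hfin : FinOn (iner K w) c)
    (hcτ : c τ = 0) : ∀ σ ∈ iner K w, c σ = 0 := by
  by_contra hcon
  push Not at hcon
  obtain ⟨σ0, hσ0, h0⟩ := hcon
  obtain ⟨y, hy0, hy1, hy2⟩ := exists_anti (isClosed_iner w) hc hfin hσ0 h0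
  have hx : ∀ σ ∈ iner K w, σ (y ^ 2) = y ^ 2 := by
    intro σ hσ
    rcases eq_or_ne (c σ) 0 with h1 | h1
    · rw [map_pow, hy1 σ hσ h1]
    · rw [map_pow, hy2 σ hσ h1, neg_sq]
  obtain ⟨n, hn⟩ := value_iner h (pow_ne_zero 2 hy0) hx
  obtain ⟨r, hr⟩ := exists_sqrt h.two_ne (algebraMap K Om π)
  have hr0 : r ≠ 0 := root_ne_zero h.pi_ne hr
  have hrτ : τ r = -r := (chi_eq_one_iff h.two_ne h.pi_ne τ hr).mp hτ.2
  -- `z ^ 2 = y ^ 2 / π ^ n`
  have hval : w.valuation (y ^ 2 / (r ^ n) ^ 2) = 1 := by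
    have e1 : (r ^ n) ^ 2 = (algebraMap K Om π) ^ n := by
      rw [← zpow_natCast, ← zpow_mul, mul_comm, zpow_mul, zpow_natCast, hr]
    rw [e1, map_div₀, hn, map_zpow₀, div_self (zpow_ne_zero n h.pi_pos.ne')]
  have hz2 : (y / r ^ n) ^ 2 = y ^ 2 / (r ^ n) ^ 2 := by rw [div_pow]
  have hzfix : ∀ σ ∈ iner K w, σ (y / r ^ n) = y / r ^ n := by
    intro σ hσ
    refine sqrt_fix_iner h.two hσ hval ?_ hz2
    rw [map_div₀, hx σ hσ]
    congr 1
    have e1 : (r ^ n) ^ 2 = algebraMap K Om (π ^ n) := by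
      rw [← zpow_natCast, ← zpow_mul, mul_comm, zpow_mul, zpow_natCast, hr, map_zpow₀]
    rw [e1, AlgEquiv.commutes]
  have hy2' : (2 : Om) * y ≠ 0 := mul_ne_zero h.two_ne hy0
  have hneven : Even n := by
    by_contra hodd
    rw [Int.not_even_iff_odd] at hodd
    have h1 := hzfix τ hτ.1
    rw [map_div₀, map_zpow₀, hrτ, hy1 τ hτ.1 hcτ, hodd.neg_zpow, div_neg] at h1
    have h2 : y / r ^ n = 0 := by
      have h3 : (2 : Om) * (y / r ^ n) = 0 := by linear_combination -h1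
      exact (mul_eq_zero.mp h3).resolve_left h.two_ne
    exact hy0 ((div_eq_zero_iff.mp h2).resolve_right (zpow_ne_zero n hr0))
  have h1 := hzfix σ0 hσ0
  have hrn : σ0 (r ^ n) = r ^ n := by
    obtain ⟨k, rfl⟩ := hneven
    have e1 : r ^ (k + k) = algebraMap K Om (π ^ k) := by
      rw [← two_mul, zpow_mul, zpow_ofNat, map_zpow₀, hr]
    rw [e1, AlgEquiv.commutes]
  rw [map_div₀, hrn, hy2 σ0 hσ0 h0] at h1
  have h2 : y / r ^ n = 0 := by
    have h3 : (2 : Om) * (y / r ^ n) = 0 := by linear_combination -h1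
    exact (mul_eq_zero.mp h3).resolve_left h.two_ne
  exact hy0 ((div_eq_zero_iff.mp h2).resolve_right (zpow_ne_zero n hr0))

lemma FinOn.mono {α : Type*} {D D' : Subgroup (Om ≃ₐ[K] Om)} (hDD : D' ≤ D)
    {f : (Om ≃ₐ[K] Om) → α} (h : FinOn D f) : FinOn D' f := by
  obtain ⟨L, hL, hLf⟩ := h
  exact ⟨L, hL, fun s hs t ht hst => hLf s (hDD hs) t (hDD ht) hst⟩

lemma hom_pow {D : Subgroup (Om ≃ₐ[K] Om)} {c : (Om ≃ₐ[K] Om) → ZMod 2}
    (hc : ∀ s ∈ D, ∀ t ∈ D, c (s * t) = c s + c t) {s : Om ≃ₐ[K] Om} (hs : s ∈ D)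
    (h0 : c s = 0) (n : ℕ) : c (s ^ n) = 0 := by
  induction n with
  | zero =>
    have h := hc 1 D.one_mem 1 D.one_mem
    rw [one_mul] at h
    rw [pow_zero]
    exact left_eq_add.mp h
  | succ n ih => rw [pow_succ, hc _ (D.pow_mem hs n) _ hs, ih, h0, add_zero]

/-- D2 -/
theorem hom_dec_zero [IsGalois K Om] [IsSepClosed Om] (h : LocHyp K w π) {τ φ : Om ≃ₐ[K] Om}
    (hτ : IsSg K w π τ) (hφ : IsFrob K w φ) {c : (Om ≃ₐ[K] Om) → ZMod 2}
    (hc : ∀ s ∈ dec K w, ∀ t ∈ dec K w, c (s * t) = c s + c t) (hfin : FinOn (dec K w) c)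
    (hcτ : c τ = 0) (hcφ : c φ = 0) : ∀ σ ∈ dec K w, c σ = 0 := by
  have hle := iner_le_dec K w
  have hi := hom_iner h hτ (fun s hs t ht => hc s (hle hs) t (hle ht)) (hfin.mono hle) hcτ
  intro σ hσ
  have := h.fin
  obtain ⟨L, hL, hLc⟩ := hfin
  obtain ⟨n, ι, hι, hσι⟩ := fin_gen hφ L hσ
  rw [hLc σ hσ (ι * φ ^ n) ((dec K w).mul_mem (hle hι) ((dec K w).pow_mem hφ.mem n))
    (fun x hx => by rw [AlgEquiv.mul_apply]; exact hσι x hx),
    hc _ (hle hι) _ ((dec K w).pow_mem hφ.mem n), hi ι hι, hom_pow hc hφ.mem hcφ, add_zero]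

/-- D2: two homomorphisms of finite level with the same values at the tame inertia element and
the Frobenius element agree -/
theorem hom_ext [IsGalois K Om] [IsSepClosed Om] (h : LocHyp K w π) {τ φ : Om ≃ₐ[K] Om}
    (hτ : IsSg K w π τ) (hφ : IsFrob K w φ) {c c' : (Om ≃ₐ[K] Om) → ZMod 2}
    (hc : ∀ s ∈ dec K w, ∀ t ∈ dec K w, c (s * t) = c s + c t) (hfin : FinOn (dec K w) c)
    (hc' : ∀ s ∈ dec K w, ∀ t ∈ dec K w, c' (s * t) = c' s + c' t) (hfin' : FinOn (dec K w) c')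
    (hcτ : c τ = c' τ) (hcφ : c φ = c' φ) : ∀ σ ∈ dec K w, c σ = c' σ := by
  have hadd : ∀ a b : ZMod 2, a = b ↔ a + b = 0 := by decide
  intro σ hσ
  rw [hadd]
  refine hom_dec_zero h hτ hφ (c := fun σ => c σ + c' σ) ?_ ?_ ?_ ?_ σ hσ
  · intro s hs t ht
    change c (s * t) + c' (s * t) = (c s + c' s) + (c t + c' t)
    rw [hc s hs t ht, hc' s hs t ht]
    ring
  · obtain ⟨L, hL, hLc⟩ := hfin
    obtain ⟨L', hL', hLc'⟩ := hfin'
    refine ⟨L ⊔ L', inferInstance, fun s hs t ht hst => ?_⟩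
    change c s + c' s = c t + c' t
    rw [hLc s hs t ht fun x hx => hst x ((le_sup_left : L ≤ L ⊔ L') hx),
      hLc' s hs t ht fun x hx => hst x ((le_sup_right : L' ≤ L ⊔ L') hx)]
  · exact (hadd _ _).mp hcτ
  · exact (hadd _ _).mp hcφ

/-- `chi f` has finite level -/
lemma chi_finOn [IsGalois K Om] [IsSepClosed Om] (h2 : (2 : Om) ≠ 0) (f : K)
    (D : Subgroup (Om ≃ₐ[K] Om)) : FinOn D (chi K f) := by
  obtain ⟨y, hy⟩ := exists_sqrt h2 (algebraMap K Om f)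
  refine ⟨IntermediateField.adjoin K {y},
    IntermediateField.adjoin.finiteDimensional (Algebra.IsIntegral.isIntegral y), ?_⟩
  intro s _ t _ hst
  have h1 := hst y (IntermediateField.mem_adjoin_simple_self K y)
  have h01 : ∀ a b : ZMod 2, (a = 0 ↔ b = 0) → a = b := by decide
  apply h01
  rw [chi_eq_zero_iff f s hy, chi_eq_zero_iff f t hy, h1]

/-- D2: every homomorphism of finite level on the decomposition group is a quadratic character -/
theorem hom_dec_chi [IsGalois K Om] [IsSepClosed Om] (h : LocHyp K w π)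
    {c : (Om ≃ₐ[K] Om) → ZMod 2}
    (hc : ∀ s ∈ dec K w, ∀ t ∈ dec K w, c (s * t) = c s + c t) (hfin : FinOn (dec K w) c) :
    ∃ f : K, f ≠ 0 ∧ ∀ σ ∈ dec K w, c σ = chi K f σ := by
  have := h.fin
  obtain ⟨τ, hτ⟩ := exists_sg h
  obtain ⟨φ, hφ⟩ := exists_frob (K := K) w
  obtain ⟨f, hf, hfτ, hfφ⟩ := chi_pair h hτ hφ (c τ) (c φ)
  exact ⟨f, hf, hom_ext h hτ hφ hc hfin (fun s _ t _ => chi_mul h.two_ne hf s t)
    (chi_finOn h.two_ne f _) hfτ.symm hfφ.symm⟩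

/-- functions invariant under an element of `NN` have finite level -/
lemma finOn_of_NN [IsGalois K Om] {α : Type*} {D : Subgroup (Om ≃ₐ[K] Om)}
    {c : (Om ≃ₐ[K] Om) → α} {N : Subgroup (Om ≃ₐ[K] Om)} (hN : N ∈ Pool.Agent.SmD.NN K Om)
    (hc : ∀ s ∈ D, ∀ n ∈ N, n ∈ D → c (s * n) = c s) : FinOn D c := by
  obtain ⟨L, hL, -, -, rfl⟩ := Pool.Agent.SmD.exists_field_of_mem_NN hN
  refine ⟨L, hL, fun s hs t ht hst => ?_⟩
  have h1 : s⁻¹ * t ∈ L.fixingSubgroup := by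
    rw [IntermediateField.mem_fixingSubgroup_iff]
    intro x hx
    change s⁻¹ (t x) = x
    rw [← hst x hx, ← AlgEquiv.mul_apply, inv_mul_cancel, AlgEquiv.one_apply]
  have h2 := hc s hs _ h1 (D.mul_mem (D.inv_mem hs) ht)
  rw [mul_inv_cancel_left] at h2
  exact h2.symm

end Pool.Agent.Lib.SmD
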