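import Pool.Agent.Lib.SmD.Main
import Pool.Agent.Lib.SmD.HomLoc

/-!
SMITH, block D, D2 for the chosen Frobenius and tame inertia elements `ph Om v`, `sg Om v` at the
places `v` of `k(t)`.
-/

set_option autoImplicit false

open IsLocalRing Pool.Agent.BSDFF Pool.Agent.SmD

namespace Pool.Agent.Lib.SmD

variable {k : Type} [Field k] [Finite k] {Om : Type} [Field Om] [Algebra (RatFunc k) Om]
  [IsGalois (RatFunc k) Om] [IsSepClosed Om]

/-- D2, in the form of the field `homD` of `Sys.Ok` -/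
theorem homD (h2 : (2 : k) ≠ 0) (v : Place k (RatFunc k)) (c : (Om ≃ₐ[RatFunc k] Om) → ZMod 2)
    (hfin : ∃ N ∈ NN (RatFunc k) Om, ∀ s ∈ dv Om v, ∀ n ∈ N, n ∈ dv Om v → c (s * n) = c s)
    (hc : ∀ s ∈ dv Om v, ∀ t ∈ dv Om v, c (s * t) = c s + c t) (hsg : c (sg Om v) = 0)
    (hph : c (ph Om v) = 0) : ∀ s ∈ dv Om v, c s = 0 := by
  obtain ⟨π, hπ, h⟩ := exists_locHyp (Om := Om) h2 v
  obtain ⟨N, hN, hNc⟩ := hfin
  exact hom_dec_zero h (isSg_sg h2 v hπ) (ph_frob v) hc (finOn_of_NN hN hNc) hsg hph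

/-- D2 for the inertia group -/
theorem homI (h2 : (2 : k) ≠ 0) (v : Place k (RatFunc k)) (c : (Om ≃ₐ[RatFunc k] Om) → ZMod 2)
    (hfin : ∃ N ∈ NN (RatFunc k) Om, ∀ s ∈ iner (RatFunc k) (ab Om v), ∀ n ∈ N,
      n ∈ iner (RatFunc k) (ab Om v) → c (s * n) = c s)
    (hc : ∀ s ∈ iner (RatFunc k) (ab Om v), ∀ t ∈ iner (RatFunc k) (ab Om v),
      c (s * t) = c s + c t) (hsg : c (sg Om v) = 0) :
    ∀ s ∈ iner (RatFunc k) (ab Om v), c s = 0 := by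
  obtain ⟨π, hπ, h⟩ := exists_locHyp (Om := Om) h2 v
  obtain ⟨N, hN, hNc⟩ := hfin
  exact hom_iner h (isSg_sg h2 v hπ) hc (finOn_of_NN hN hNc) hsg

/-- every pair of values occurs, with a quadratic character -/
theorem exists_chi_pair (h2 : (2 : k) ≠ 0) (v : Place k (RatFunc k)) (i j : ZMod 2) :
    ∃ f : RatFunc k, f ≠ 0 ∧ chi (RatFunc k) f (sg Om v) = i ∧
      chi (RatFunc k) f (ph Om v) = j := by
  obtain ⟨π, hπ, h⟩ := exists_locHyp (Om := Om) h2 v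
  exact chi_pair h (isSg_sg h2 v hπ) (ph_frob v) i j

/-- every local homomorphism of finite level is a quadratic character -/
theorem homD_chi (h2 : (2 : k) ≠ 0) (v : Place k (RatFunc k))
    {c : (Om ≃ₐ[RatFunc k] Om) → ZMod 2}
    (hfin : ∃ N ∈ NN (RatFunc k) Om, ∀ s ∈ dv Om v, ∀ n ∈ N, n ∈ dv Om v → c (s * n) = c s)
    (hc : ∀ s ∈ dv Om v, ∀ t ∈ dv Om v, c (s * t) = c s + c t) :
    ∃ f : RatFunc k, f ≠ 0 ∧ ∀ s ∈ dv Om v, c s = chi (RatFunc k) f s := by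
  obtain ⟨π, hπ, h⟩ := exists_locHyp (Om := Om) h2 v
  obtain ⟨N, hN, hNc⟩ := hfin
  exact hom_dec_chi h hc (finOn_of_NN hN hNc)

end Pool.Agent.Lib.SmD
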