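import Mathlib
import Pool.Agent.Lib.SmD.Defs
import Pool.Agent.Lib.SmD.Plc
import Pool.Agent.Lib.SmD.Prim

/-!
SMITH: a nontrivial place `w` of an algebraic extension of `k(t)`, containing `k`, lies above a
discrete valuation ring of `k(t)` (Ostrowski for `k(t)`), that is above a `Place k (RatFunc k)`.
-/

set_option autoImplicit false

open IsLocalRing

namespace Pool.Agent.Lib.SmD

open Pool.Agent.BSDFF

private theorem DvrBelow_val {F : Type} [Field F] (R : ValuationSubring F) {π : F} (hπ0 : π ≠ 0)
    (hπ : R.valuation π < 1) (h : ∀ x : F, x ≠ 0 → ∃ n : ℤ, R.valuation x = R.valuation π ^ n) :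
    IsDiscreteValuationRing R := by
  have hv0 : R.valuation π ≠ 0 := (Valuation.ne_zero_iff _).mpr hπ0
  have hv0' : 0 < R.valuation π := zero_lt_iff.mpr hv0
  have hπR : π ∈ R := (R.valuation_le_one_iff π).mp hπ.le
  have hunit : ∀ a : R, IsUnit a ↔ R.valuation (a : F) = 1 := fun a =>
    ValuationSubring.valuation_eq_one_iff R a
  have hle : ∀ a : R, R.valuation (a : F) ≤ 1 := fun a => (R.valuation_le_one_iff _).mpr a.2
  -- nonnegative exponents
  have hnat : ∀ a : R, a ≠ 0 → ∃ n : ℕ, R.valuation (a : F) = R.valuation π ^ n := by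
    intro a ha
    obtain ⟨n, hn⟩ := h (a : F) (fun h0 => ha (Subtype.ext h0))
    rcases Int.eq_nat_or_neg n with ⟨m, rfl | rfl⟩
    · exact ⟨m, by rw [hn, zpow_natCast]⟩
    · refine ⟨0, ?_⟩
      rw [pow_zero]
      refine le_antisymm (hle a) ?_
      rw [hn, zpow_neg, zpow_natCast]
      exact (one_le_inv₀ (pow_pos hv0' m)).mpr (pow_le_one₀ hv0'.le hπ.le)
  have hirr : Irreducible (⟨π, hπR⟩ : R) := by
    refine ⟨fun hu => ?_, fun a b hab => ?_⟩
    · rw [hunit] at hu
      exact hπ.ne hu
    · have ha0 : a ≠ 0 := by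
        rintro rfl
        rw [zero_mul] at hab
        exact hπ0 (congrArg Subtype.val hab)
      have hb0 : b ≠ 0 := by
        rintro rfl
        rw [mul_zero] at hab
        exact hπ0 (congrArg Subtype.val hab)
      obtain ⟨n, hn⟩ := hnat a ha0
      obtain ⟨m, hm⟩ := hnat b hb0
      have h1 : R.valuation π ^ 1 = R.valuation π ^ (n + m) := by
        rw [pow_one, pow_add, ← hn, ← hm, ← map_mul]
        exact congrArg (fun z : R => R.valuation (z : F)) hab
      have h2 : 1 = n + m := by
        by_contra hne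
        rcases lt_or_gt_of_ne hne with h3 | h3
        · exact absurd h1 (pow_lt_pow_right_of_lt_one₀ hv0' hπ h3).ne'
        · exact absurd h1 (pow_lt_pow_right_of_lt_one₀ hv0' hπ h3).ne
      rcases Nat.eq_zero_or_pos n with h3 | h3
      · left
        rw [hunit, hn, h3, pow_zero]
      · right
        have h4 : m = 0 := by omega
        rw [hunit, hm, h4, pow_zero]
  apply IsDiscreteValuationRing.ofHasUnitMulPowIrreducibleFactorization
  refine ⟨⟨π, hπR⟩, hirr, fun {x} hx => ?_⟩
  obtain ⟨n, hn⟩ := hnat x hx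
  refine ⟨n, ?_⟩
  have hu : R.valuation ((x : F) / π ^ n) = 1 := by
    rw [map_div₀, map_pow, hn, div_self (pow_ne_zero _ hv0)]
  have hmem : (x : F) / π ^ n ∈ R := (R.valuation_le_one_iff _).mp hu.le
  have hU : IsUnit (⟨(x : F) / π ^ n, hmem⟩ : R) := (hunit _).mpr hu
  refine ⟨hU.unit, Subtype.ext ?_⟩
  change π ^ n * ((x : F) / π ^ n) = (x : F)
  rw [mul_div_cancel₀]
  exact pow_ne_zero _ hπ0

/-- Ostrowski for `k(t)`: a nontrivial valuation ring containing the constants is discrete. -/
theorem dvr_of_const {k : Type} [Field k] (R : ValuationSubring (RatFunc k)) (hR : R ≠ ⊤)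
    (hc : ∀ c : k, algebraMap k (RatFunc k) c ∈ R) : IsDiscreteValuationRing R := by
  have htriv : R.valuation.IsTrivialOn k := ⟨fun c hc0 => by
    apply le_antisymm
    · exact (ValuationSubring.valuation_le_one_iff _ _).mpr (hc c)
    · have h2 : R.valuation (algebraMap k (RatFunc k) c) *
          R.valuation (algebraMap k (RatFunc k) c⁻¹) = 1 := by
        rw [← map_mul, ← map_mul, mul_inv_cancel₀ hc0, map_one, map_one]
      have h3 : R.valuation (algebraMap k (RatFunc k) c⁻¹) ≤ 1 :=
        (ValuationSubring.valuation_le_one_iff _ _).mpr (hc _)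
      calc (1 : R.ValueGroup) = R.valuation (algebraMap k (RatFunc k) c) *
          R.valuation (algebraMap k (RatFunc k) c⁻¹) := h2.symm
        _ ≤ R.valuation (algebraMap k (RatFunc k) c) * 1 := by gcongr
        _ = _ := mul_one _⟩
  rcases lt_or_ge 1 (R.valuation RatFunc.X) with hX | hX
  · refine DvrBelow_val R (π := (RatFunc.X)⁻¹) (inv_ne_zero RatFunc.X_ne_zero) ?_ ?_
    · rw [map_inv₀]
      exact inv_lt_one_of_one_lt₀ hX
    · intro x hx
      refine ⟨-x.intDegree, ?_⟩
      rw [RatFunc.valuation_eq_valuation_X_zpow_intDegree_of_one_lt_valuation_X hX hx, map_inv₀,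
        inv_zpow, zpow_neg, inv_inv]
  · have hnt : R.valuation.IsNontrivial := by
      have h1 : ∃ x, x ∉ R := by
        by_contra hcon
        push Not at hcon
        exact hR (eq_top_iff.mpr fun x _ => hcon x)
      obtain ⟨x, hx⟩ := h1
      refine ⟨⟨x, ?_, ?_⟩⟩
      · rw [Valuation.ne_zero_iff]
        rintro rfl
        exact hx R.zero_mem
      · intro h2
        exact hx ((R.valuation_le_one_iff x).mp h2.le)
    refine DvrBelow_val R (π := (RatFunc.uniformizingPolynomial hX : RatFunc k)) ?_
      (RatFunc.valuation_uniformizingPolynomial_lt_one hX) ?_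
    · rw [RatFunc.coePolynomial_eq_algebraMap]
      simpa using RatFunc.uniformizingPolynomial_ne_zero hX
    · intro x hx
      exact RatFunc.exists_zpow_uniformizingPolynomial hX hx

variable {k : Type} [Field k] {Om : Type} [Field Om] [Algebra (RatFunc k) Om]

/-- The place of `k(t)` below a nontrivial place of `Om` which contains `k`. -/
theorem exists_place_below [Algebra.IsAlgebraic (RatFunc k) Om] (w : ValuationSubring Om)
    (hw : w ≠ ⊤) (hc : ∀ c : k, algebraMap (RatFunc k) Om (algebraMap k (RatFunc k) c) ∈ w) :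
    ∃ v : Place k (RatFunc k), v.ring = below (RatFunc k) w := by
  have hne : below (RatFunc k) w ≠ ⊤ := by
    intro h
    apply hw
    rw [eq_top_iff]
    intro x _
    apply mem_of_isIntegral (RatFunc k) w
    have halg : IsAlgebraic (RatFunc k) x := Algebra.IsAlgebraic.isAlgebraic x
    obtain ⟨p, hp, hx⟩ := halg.isIntegral
    have hcoef : ∀ a : RatFunc k, a ∈ below (RatFunc k) w := fun a => by rw [h]; trivial
    let ι : RatFunc k →+* below (RatFunc k) w :=
      (RingHom.id (RatFunc k)).codRestrict (below (RatFunc k) w).toSubring hcoef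
    refine ⟨p.map ι, hp.map ι, ?_⟩
    rw [Polynomial.eval₂_map]
    exact hx
  exact ⟨⟨below (RatFunc k) w, hc, dvr_of_const _ hne hc⟩, rfl⟩

/-- `LocHyp` at a nontrivial place of `Om` which contains `k`. -/
theorem exists_locHyp_of_ne_top [Finite k] [Algebra.IsAlgebraic (RatFunc k) Om] (h2 : (2 : k) ≠ 0)
    (w : ValuationSubring Om) (hw : w ≠ ⊤)
    (hc : ∀ c : k, algebraMap (RatFunc k) Om (algebraMap k (RatFunc k) c) ∈ w) :
    ∃ π : RatFunc k, LocHyp (RatFunc k) w π := by
  obtain ⟨v, hv⟩ := exists_place_below w hw hc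
  obtain ⟨π, hπ⟩ := IsDiscreteValuationRing.exists_irreducible v.ring
  refine ⟨(π : RatFunc k), locHyp_of_dvr hv.symm v.dvr (finite_residue v) ?_ hπ⟩
  have h3 : w.valuation (algebraMap (RatFunc k) Om (algebraMap k (RatFunc k) 2)) = 1 := by
    refine val_unit_below (hc 2) ?_ ?_
    · rw [← map_inv₀]
      exact hc _
    · exact (map_ne_zero_iff _ (algebraMap k (RatFunc k)).injective).2 h2
  rwa [map_ofNat, map_ofNat] at h3

end Pool.Agent.Lib.SmD
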