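import Mathlib
import Pool.Agent.Lib.SmD.Defs
import Pool.Agent.Lib.SmD.Plc
import Pool.Agent.Lib.SmD.Const

/-!
# Project SMITH, block D, module Near: polynomials at the finite places, roots near `t`
-/

set_option autoImplicit false

open Polynomial

namespace Pool.Agent.Lib.SmD

open Pool.Agent.BSDFF

variable {k : Type} [Field k] {Om : Type} [Field Om] [Algebra (RatFunc k) Om]

/-- the embedding of `k` in `Om` -/
noncomputable abbrev kOm (k Om : Type) [Field k] [Field Om] [Algebra (RatFunc k) Om] : k →+* Om :=
  (algebraMap (RatFunc k) Om).comp (algebraMap k (RatFunc k))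

/-- the image of `t` in `Om` -/
noncomputable abbrev tOm (k Om : Type) [Field k] [Field Om] [Algebra (RatFunc k) Om] : Om :=
  algebraMap (RatFunc k) Om RatFunc.X

theorem eval_tOm (f : k[X]) : f.eval₂ (kOm k Om) (tOm k Om) =
    algebraMap (RatFunc k) Om (algebraMap k[X] (RatFunc k) f) := by
  induction f using Polynomial.induction_on with
  | C a =>
    rw [eval₂_C]
    change algebraMap (RatFunc k) Om (algebraMap k (RatFunc k) a) = _
    congr 1
  | add p q hp hq => rw [eval₂_add, hp, hq, map_add, map_add]
  | monomial n a h =>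
    have h1 : algebraMap k[X] (RatFunc k) (C a * X ^ n * X) =
        algebraMap k[X] (RatFunc k) (C a * X ^ n) * RatFunc.X := by
      rw [map_mul _ (C a * X ^ n) X, RatFunc.algebraMap_X]
    rw [pow_succ, ← mul_assoc, eval₂_mul, h, eval₂_X, h1, map_mul _ _ (RatFunc.X : RatFunc k)]

/-- A polynomial has valuation `< 1` at the place of `P` iff `P` divides it. -/
theorem val_poly_lt_iff {P : k[X]} (hP : Irreducible P) (f : k[X]) :
    (ab Om (placeOf P hP)).valuation
      (algebraMap (RatFunc k) Om (algebraMap k[X] (RatFunc k) f)) < 1 ↔ P ∣ f := by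
  rw [val_lt_below, below_ab]
  by_cases hf : f = 0
  · subst hf; simp
  have hf' : algebraMap k[X] (RatFunc k) f ≠ 0 := by simpa using hf
  have h1 : ((primeOf P hP).valuation (RatFunc k)) (algebraMap k[X] (RatFunc k) f) ≠ 0 :=
    (Valuation.ne_zero_iff _).2 hf'
  have h2 : (algebraMap k[X] (RatFunc k) f)⁻¹ ∈ (placeOf P hP).ring ↔
      1 ≤ ((primeOf P hP).valuation (RatFunc k)) (algebraMap k[X] (RatFunc k) f) := by
    change ((primeOf P hP).valuation (RatFunc k)) (algebraMap k[X] (RatFunc k) f)⁻¹ ≤ 1 ↔ _
    rw [map_inv₀, inv_le_one₀ (zero_lt_iff.2 h1)]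
  rw [h2, not_le, IsDedekindDomain.HeightOneSpectrum.valuation_lt_one_iff_mem]
  constructor
  · rintro (h | h)
    · exact absurd h hf'
    · exact Ideal.mem_span_singleton.1 h
  · intro h
    exact Or.inr (Ideal.mem_span_singleton.2 h)

theorem val_poly_le (P : k[X]) (hP : Irreducible P) (f : k[X]) :
    (ab Om (placeOf P hP)).valuation
      (algebraMap (RatFunc k) Om (algebraMap k[X] (RatFunc k) f)) ≤ 1 := by
  rw [ValuationSubring.valuation_le_one_iff]
  have : algebraMap k[X] (RatFunc k) f ∈ below (RatFunc k) (ab Om (placeOf P hP)) := by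
    rw [below_ab]
    exact poly_mem _ (X_mem_placeOf P hP) f
  exact this

theorem val_poly_eq_one {P : k[X]} (hP : Irreducible P) {f : k[X]} (hf : ¬ P ∣ f) :
    (ab Om (placeOf P hP)).valuation
      (algebraMap (RatFunc k) Om (algebraMap k[X] (RatFunc k) f)) = 1 :=
  le_antisymm (val_poly_le P hP f) (not_lt.1 fun h => hf ((val_poly_lt_iff hP f).1 h))

/-- The chosen place above the place of `P` contains `t - β` in its maximal ideal for a root `β` of
`P` in `Om`. -/
theorem exists_root_near [Finite k] [IsSepClosed Om] {P : k[X]} (hP : Irreducible P) :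
    ∃ β : Om, P.eval₂ (kOm k Om) β = 0 ∧
      (ab Om (placeOf P hP)).valuation (tOm k Om - β) < 1 := by
  set w := ab Om (placeOf P hP) with hw
  set ι := kOm k Om with hι
  have hsep : (P.map ι).Separable := (PerfectField.separable_of_irreducible hP).map
  have hspl : (P.map ι).Splits := IsSepClosed.splits_of_separable _ hsep
  have hprod := hspl.eq_prod_roots
  have hev : P.eval₂ ι (tOm k Om) =
      (P.map ι).leadingCoeff * ((P.map ι).roots.map fun c => tOm k Om - c).prod := by
    rw [eval₂_eq_eval_map]
    have h3 := congrArg (Polynomial.eval (tOm k Om)) hprod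
    rw [eval_mul, eval_multiset_prod] at h3
    simpa [Multiset.map_map] using h3
  have hlt : w.valuation (P.eval₂ ι (tOm k Om)) < 1 := by
    rw [hι, eval_tOm, hw, val_poly_lt_iff]
  have hlc : w.valuation (P.map ι).leadingCoeff = 1 := by
    rw [leadingCoeff_map]
    exact val_const _ (leadingCoeff_ne_zero.2 hP.ne_zero)
  rw [hev, map_mul, hlc, one_mul, map_multiset_prod, Multiset.map_map] at hlt
  have hroot : ∀ c ∈ (P.map ι).roots, P.eval₂ ι c = 0 := by
    intro c hc
    rw [mem_roots (Polynomial.map_ne_zero hP.ne_zero), IsRoot.def] at hc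
    rw [eval₂_eq_eval_map]; exact hc
  by_contra hcon
  push Not at hcon
  have htw : tOm k Om ∈ w := by
    have h1 := val_poly_le (Om := Om) P hP X
    rw [ValuationSubring.valuation_le_one_iff, RatFunc.algebraMap_X] at h1
    exact h1
  have hcw : ∀ c : Om, P.eval₂ ι c = 0 → c ∈ w := by
    intro c hc
    by_contra hcw
    have h1 : 1 < w.valuation c := by
      rw [← not_le, ValuationSubring.valuation_le_one_iff]; exact hcw
    have h0 : (0 : w.ValueGroup) < w.valuation c := lt_trans zero_lt_one h1
    have hn0 : P.natDegree ≠ 0 := by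
      intro h0'
      exact hP.not_isUnit (by
        rw [Polynomial.isUnit_iff_degree_eq_zero, degree_eq_natDegree hP.ne_zero, h0']; rfl)
    rw [eval₂_eq_sum_range, Finset.sum_range_succ] at hc
    have h2 : w.valuation (∑ i ∈ Finset.range P.natDegree, ι (P.coeff i) * c ^ i) <
        w.valuation (ι (P.coeff P.natDegree) * c ^ P.natDegree) := by
      have hl : w.valuation (ι (P.coeff P.natDegree)) = 1 :=
        val_const _ (leadingCoeff_ne_zero.2 hP.ne_zero)
      refine Valuation.map_sum_lt _ ?_ ?_
      · rw [map_mul, map_pow, hl, one_mul]; exact (pow_pos h0 _).ne'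
      · intro i hi
        have hi' := Finset.mem_range.1 hi
        rw [map_mul, map_mul, hl, one_mul, map_pow, map_pow]
        have h4 : w.valuation (ι (P.coeff i)) ≤ 1 := by
          by_cases hz : P.coeff i = 0
          · rw [hz, map_zero, map_zero]; exact zero_le_one
          · exact (val_const _ hz).le
        calc w.valuation (ι (P.coeff i)) * w.valuation c ^ i
            ≤ 1 * w.valuation c ^ i := by gcongr
          _ = w.valuation c ^ i := one_mul _
          _ < w.valuation c ^ P.natDegree := pow_lt_pow_right₀ h1 hi'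
    have h5 : ι (P.coeff P.natDegree) * c ^ P.natDegree =
        -(∑ i ∈ Finset.range P.natDegree, ι (P.coeff i) * c ^ i) := by
      linear_combination hc
    rw [h5, Valuation.map_neg] at h2
    exact lt_irrefl _ h2
  have h5 : ∀ c ∈ (P.map ι).roots, w.valuation (tOm k Om - c) = 1 := by
    intro c hc
    refine le_antisymm ?_ (hcon c (hroot c hc))
    rw [ValuationSubring.valuation_le_one_iff]
    exact sub_mem htw (hcw c (hroot c hc))
  have h6 : (Multiset.map (⇑w.valuation ∘ fun c => tOm k Om - c) (P.map ι).roots).prod = 1 := by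
    refine Multiset.prod_eq_one ?_
    intro a ha
    obtain ⟨c, hc, rfl⟩ := Multiset.mem_map.1 ha
    exact h5 c hc
  rw [h6] at hlt
  exact lt_irrefl _ hlt

end Pool.Agent.Lib.SmD
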