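import Pool.Agent.Lib.SmD.Main
import Pool.Agent.Lib.SmD.Near
import Pool.Agent.Lib.SmD.NN
import Pool.Agent.Lib.SmF.Recip

/-!
SMITH, block D: a finite extension of `k(t)` is unramified at almost all places (the field `unr` of
`Sys.Ok`).
-/

set_option autoImplicit false

open Polynomial IsLocalRing Pool.Agent.BSDFF Pool.Agent.SmD

namespace Pool.Agent.Lib.SmD

section general

variable {K Om : Type*} [Field K] [Field Om] [Algebra K Om]

/-- a root of a polynomial whose nonzero coefficients, among them the constant one, are units is a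
unit -/
theorem val_one_of_root {w : ValuationSubring Om} {p : K[X]}
    (h : ∀ i, p.coeff i ≠ 0 → w.valuation (algebraMap K Om (p.coeff i)) = 1)
    (h0 : p.coeff 0 ≠ 0) {y : Om} (hy : aeval y p = 0) : w.valuation y = 1 := by
  have hle : ∀ i, w.valuation (algebraMap K Om (p.coeff i)) ≤ 1 := by
    intro i
    rcases eq_or_ne (p.coeff i) 0 with h1 | h1
    · rw [h1, map_zero, map_zero]
      exact zero_le_one
    · exact (h i h1).le
  rw [aeval_eq_sum_range] at hy
  have hp0 : p ≠ 0 := by
    rintro rfl
    exact h0 (coeff_zero 0)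
  rcases lt_trichotomy (w.valuation y) 1 with h1 | h1 | h1
  · exfalso
    rw [Finset.sum_range_succ', pow_zero, Algebra.smul_def (p.coeff 0), mul_one] at hy
    have h2 : algebraMap K Om (p.coeff 0) =
        -∑ i ∈ Finset.range p.natDegree, p.coeff (i + 1) • y ^ (i + 1) := by
      linear_combination hy
    have h3 := congrArg w.valuation h2
    rw [h 0 h0, Valuation.map_neg] at h3
    have h4 : w.valuation (∑ i ∈ Finset.range p.natDegree, p.coeff (i + 1) • y ^ (i + 1)) < 1 := by
      refine Valuation.map_sum_lt _ one_ne_zero fun i _ => ?_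
      rw [Algebra.smul_def, map_mul, map_pow]
      exact lt_of_le_of_lt (mul_le_of_le_one_left' (hle _)) (pow_lt_one₀ zero_le h1 (by omega))
    rw [← h3] at h4
    exact lt_irrefl _ h4
  · exact h1
  · exfalso
    have hy0 : w.valuation y ≠ 0 := (lt_trans zero_lt_one h1).ne'
    rw [Finset.sum_range_succ, Algebra.smul_def (p.coeff p.natDegree)] at hy
    have h2 : algebraMap K Om (p.coeff p.natDegree) * y ^ p.natDegree =
        -∑ i ∈ Finset.range p.natDegree, p.coeff i • y ^ i := by
      linear_combination hy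
    have h3 := congrArg w.valuation h2
    have hlc : p.coeff p.natDegree ≠ 0 := leadingCoeff_ne_zero.mpr hp0
    rw [map_mul, h _ hlc, one_mul, Valuation.map_neg, map_pow] at h3
    have h4 : w.valuation (∑ i ∈ Finset.range p.natDegree, p.coeff i • y ^ i) <
        w.valuation y ^ p.natDegree := by
      refine Valuation.map_sum_lt _ (pow_ne_zero _ hy0) fun i hi => ?_
      rw [Algebra.smul_def, map_mul, map_pow]
      exact lt_of_le_of_lt (mul_le_of_le_one_left' (hle _))
        (pow_lt_pow_right₀ h1 (Finset.mem_range.mp hi))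
    rw [← h3] at h4
    exact lt_irrefl _ h4

/-- an element of the inertia group fixes an integral element whose conjugates are different
modulo the place -/
theorem fix_of_val {w : ValuationSubring Om} {σ : Om ≃ₐ[K] Om} (hσ : σ ∈ iner K w) {x : Om}
    (hx : w.valuation x ≤ 1)
    (h : ∀ y : Om, aeval y (minpoly K x) = 0 → y ≠ x → w.valuation (y - x) = 1) : σ x = x := by
  by_contra hc
  have h1 : aeval (σ x) (minpoly K x) = 0 := by
    have h2 := Polynomial.aeval_algHom_apply (σ : Om →ₐ[K] Om) x (minpoly K x)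
    rw [minpoly.aeval, map_zero] at h2
    exact h2
  have h2 := h _ h1 hc
  have h3 := ((mem_iner K).mp hσ).2 x ((ValuationSubring.valuation_le_one_iff _ _).mp hx)
  rw [h2] at h3
  exact lt_irrefl _ h3

/-- an automorphism fixing the generators of a field fixes the field -/
lemma mem_fixingSubgroup_adjoin {S : Set Om} {σ : Om ≃ₐ[K] Om} (h : ∀ x ∈ S, σ x = x) :
    σ ∈ (IntermediateField.adjoin K S).fixingSubgroup := by
  have h1 : Subgroup.zpowers σ ≤ (IntermediateField.adjoin K S).fixingSubgroup := by
    rw [← IntermediateField.le_iff_le, IntermediateField.adjoin_le_iff]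
    intro x hx
    have h2 : Subgroup.zpowers σ ≤ MulAction.stabilizer (Om ≃ₐ[K] Om) x := by
      rw [Subgroup.zpowers_le]
      exact h x hx
    exact (IntermediateField.mem_fixedField_iff _ x).mpr fun τ hτ => h2 hτ
  exact h1 (Subgroup.mem_zpowers σ)

end general

variable {k : Type} [Field k] {Om : Type} [Field Om] [Algebra (RatFunc k) Om]

/-- elements of `k(t)` are units at almost all places -/
theorem finite_nonunit_base {f : RatFunc k} (hf : f ≠ 0) :
    {v : Place k (RatFunc k) | (ab Om v).valuation (algebraMap (RatFunc k) Om f) ≠ 1}.Finite := by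
  refine Pool.Agent.SmF.ratFunc_ind (Q := fun f => {v : Place k (RatFunc k) |
    (ab Om v).valuation (algebraMap (RatFunc k) Om f) ≠ 1}.Finite) ?_ ?_ ?_ ?_ f hf
  · intro f g _ _ h h'
    refine (h.union h').subset ?_
    intro v hv
    by_contra hcon
    simp only [Set.mem_union, Set.mem_ofPred_eq, not_or, not_not] at hcon
    apply hv
    rw [map_mul, map_mul, hcon.1, hcon.2, one_mul]
  · intro f _ h
    refine h.subset ?_
    intro v hv hcon
    apply hv
    rw [map_inv₀, map_inv₀, hcon, inv_one]
  · intro c hc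
    refine Set.finite_empty.subset ?_
    intro v hv
    exact hv (val_const v hc)
  · intro P hm hP
    refine (Set.toFinite {placeOf P hP, placeInfty k}).subset ?_
    intro v hv
    rcases Pool.Agent.BSDP.R.place_cases v with rfl | ⟨Q, hQ, hmQ, rfl⟩
    · exact Or.inr rfl
    · left
      by_contra hcon
      apply hv
      refine val_poly_eq_one hQ (Pool.Agent.SmF.not_dvd_of_ne hQ hmQ hP hm ?_)
      rintro rfl
      exact hcon rfl

/-- algebraic elements are units at almost all places -/
theorem finite_nonunit [Algebra.IsAlgebraic (RatFunc k) Om] {y : Om} (hy : y ≠ 0) :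
    {v : Place k (RatFunc k) | (ab Om v).valuation y ≠ 1}.Finite := by
  have hint : IsIntegral (RatFunc k) y := (Algebra.IsAlgebraic.isAlgebraic y).isIntegral
  have hfin : (⋃ i ∈ (minpoly (RatFunc k) y).support, {v : Place k (RatFunc k) |
      (ab Om v).valuation (algebraMap (RatFunc k) Om ((minpoly (RatFunc k) y).coeff i)) ≠ 1}).Finite
      := by
    refine Set.Finite.biUnion (Finset.finite_toSet _) fun i hi => ?_
    exact finite_nonunit_base (mem_support_iff.mp hi)
  refine hfin.subset fun v hv => ?_
  by_contra hcon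
  apply hv
  refine val_one_of_root (p := minpoly (RatFunc k) y) ?_ (minpoly.coeff_zero_ne_zero hint hy)
    (minpoly.aeval _ _)
  intro i hi
  by_contra h1
  apply hcon
  simp only [Set.mem_iUnion]
  exact ⟨i, mem_support_iff.mpr hi, h1⟩

/-- an algebraic element is fixed by almost all inertia groups -/
theorem finite_not_fixed [Algebra.IsAlgebraic (RatFunc k) Om] (x : Om) :
    {v : Place k (RatFunc k) | ∃ σ ∈ iner (RatFunc k) (ab Om v), σ x ≠ x}.Finite := by
  rcases eq_or_ne x 0 with rfl | hx
  · refine Set.finite_empty.subset ?_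
    rintro v ⟨σ, -, hσ⟩
    exact hσ (map_zero σ)
  have hint : IsIntegral (RatFunc k) x := (Algebra.IsAlgebraic.isAlgebraic x).isIntegral
  have hroots : ((minpoly (RatFunc k) x).rootSet Om).Finite := rootSet_finite _ _
  have hfin : ({v : Place k (RatFunc k) | (ab Om v).valuation x ≠ 1} ∪
      ⋃ y ∈ (minpoly (RatFunc k) x).rootSet Om \ {x}, {v : Place k (RatFunc k) |
        (ab Om v).valuation (y - x) ≠ 1}).Finite := by
    refine (finite_nonunit hx).union (Set.Finite.biUnion (hroots.sdiff) fun y hy => ?_)
    exact finite_nonunit (sub_ne_zero.mpr hy.2)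
  refine hfin.subset ?_
  rintro v ⟨σ, hσ, hσx⟩
  by_contra hcon
  rw [Set.mem_union, not_or] at hcon
  apply hσx
  refine fix_of_val hσ (not_not.mp hcon.1).le fun y hy hyx => ?_
  by_contra h1
  apply hcon.2
  rw [Set.mem_iUnion₂]
  exact ⟨y, ⟨(mem_rootSet.mpr ⟨minpoly.ne_zero hint, hy⟩), hyx⟩, h1⟩

/-- a finite extension is unramified at almost all places -/
theorem finite_ramified [Algebra.IsAlgebraic (RatFunc k) Om]
    (L : IntermediateField (RatFunc k) Om) [FiniteDimensional (RatFunc k) L] :
    {v : Place k (RatFunc k) |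
      ¬ iner (RatFunc k) (ab Om v) ≤ L.fixingSubgroup}.Finite := by
  have hfg : L.FG := IntermediateField.essFiniteType_iff.mp inferInstance
  obtain ⟨S, hS⟩ := hfg
  rw [← hS]
  have hfin : (⋃ x ∈ (S : Set Om), {v : Place k (RatFunc k) |
      ∃ σ ∈ iner (RatFunc k) (ab Om v), σ x ≠ x}).Finite :=
    Set.Finite.biUnion (Finset.finite_toSet S) fun x _ => finite_not_fixed x
  refine hfin.subset fun v hv => ?_
  by_contra hcon
  apply hv
  intro σ hσ
  refine mem_fixingSubgroup_adjoin fun x hx => ?_
  by_contra h1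
  apply hcon
  rw [Set.mem_iUnion₂]
  exact ⟨x, hx, σ, hσ, h1⟩

theorem unr_iner [IsGalois (RatFunc k) Om] {N : Subgroup (Om ≃ₐ[RatFunc k] Om)}
    (hN : N ∈ NN (RatFunc k) Om) :
    {v : Place k (RatFunc k) | ¬ iner (RatFunc k) (ab Om v) ≤ N}.Finite := by
  obtain ⟨L, hL, -, -, rfl⟩ := exists_field_of_mem_NN hN
  exact finite_ramified L

/-- the field `unr` of `Sys.Ok` -/
theorem unr [Finite k] [IsGalois (RatFunc k) Om] [IsSepClosed Om] (h2 : (2 : k) ≠ 0) :
    ∀ N ∈ NN (RatFunc k) Om, {v : Place k (RatFunc k) | sg Om v ∉ N}.Finite := by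
  intro N hN
  exact (unr_iner hN).subset fun v hv hle => hv (hle (sg_iner h2 v))

end Pool.Agent.Lib.SmD
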