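import Mathlib
import Pool.Agent.Lib.SmD.Defs
import Pool.Agent.Lib.SmD.HomLoc

/-!
# Project SMITH, block D, module Gen: 2-group images of the inertia group are generated by `sg`
-/

set_option autoImplicit false

open IsLocalRing

namespace Pool.Agent.Lib.SmD

variable {K : Type*} {Om : Type*} [Field K] [Field Om] [Algebra K Om]

/-- An open subgroup contains `Gal(Om / L)` for a finite extension `L / K`. -/
theorem exists_field_le [IsGalois K Om] {N : Subgroup (Om ≃ₐ[K] Om)}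
    (hN : IsOpen (N : Set (Om ≃ₐ[K] Om))) :
    ∃ L : IntermediateField K Om, FiniteDimensional K L ∧ L.fixingSubgroup ≤ N := by
  have h1 : (N : Set (Om ≃ₐ[K] Om)) ∈ nhds (1 : Om ≃ₐ[K] Om) := hN.mem_nhds N.one_mem
  obtain ⟨L, hL, h2⟩ := (krullTopology_mem_nhds_one_iff K Om _).1 h1
  exact ⟨L, hL, h2⟩

/-- If the image of the inertia group in `Gal(Om / K) / N`, `N` open normal, is a `2`-group, then it
is generated by the image of the tame inertia element `τ`. -/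
theorem iner_gen [IsGalois K Om] [IsSepClosed Om] {w : ValuationSubring Om} {π : K}
    (h : LocHyp K w π) {τ : Om ≃ₐ[K] Om} (hτ : IsSg K w π τ) (N : Subgroup (Om ≃ₐ[K] Om))
    [hNn : N.Normal] (hN : IsOpen (N : Set (Om ≃ₐ[K] Om)))
    (h2 : ∀ σ ∈ iner K w, ∃ m : ℕ, σ ^ (2 ^ m) ∈ N) :
    ∀ σ ∈ iner K w, ∃ n : ℕ, (τ ^ n)⁻¹ * σ ∈ N := by
  classical
  have hQfin : Finite ((Om ≃ₐ[K] Om) ⧸ N) := Subgroup.quotient_finite_of_isOpen N hN
  set q : (Om ≃ₐ[K] Om) →* (Om ≃ₐ[K] Om) ⧸ N := QuotientGroup.mk' N with hq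
  set P : Subgroup ((Om ≃ₐ[K] Om) ⧸ N) := (iner K w).map q with hP
  have h2f : Fact (Nat.Prime 2) := ⟨Nat.prime_two⟩
  have hPg : IsPGroup 2 P := by
    rintro ⟨g, hg⟩
    obtain ⟨σ, hσ, rfl⟩ := hg
    obtain ⟨m, hm⟩ := h2 σ hσ
    refine ⟨m, Subtype.ext ?_⟩
    change (q σ) ^ (2 ^ m) = 1
    rw [← map_pow]
    exact (QuotientGroup.eq_one_iff _).2 hm
  have hPfin : Finite P := inferInstance
  obtain ⟨n, hn⟩ := IsPGroup.iff_card.1 hPg
  set t : P := ⟨q τ, ⟨τ, hτ.1, rfl⟩⟩ with ht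
  set H : Subgroup P := Subgroup.zpowers t with hH
  have hHtop : H = ⊤ := by
    by_contra hne
    obtain ⟨a, ha⟩ := IsPGroup.iff_card.1 (hPg.to_subgroup H)
    have hlt : Nat.card H < Nat.card P := by
      refine lt_of_le_of_ne (Subgroup.card_le_card_group H) fun he => hne ?_
      exact Subgroup.eq_top_of_card_eq H he
    rw [ha, hn] at hlt
    have han : a < n := (Nat.pow_lt_pow_iff_right (by norm_num)).1 hlt
    obtain ⟨m, rfl⟩ : ∃ m, n = m + 1 := ⟨n - 1, by omega⟩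
    obtain ⟨M, hM1, hM2⟩ := Sylow.exists_subgroup_card_pow_prime_le (p := 2) (n := a) (m := m)
      (by rw [hn]; exact pow_dvd_pow 2 (Nat.le_succ m)) H ha (by omega)
    have hMi : M.index = 2 := by
      have h3 := M.card_mul_index
      rw [hM1, hn, pow_succ] at h3
      exact Nat.eq_of_mul_eq_mul_left (pow_pos (by norm_num) m) h3
    set c : (Om ≃ₐ[K] Om) → ZMod 2 := fun σ => if q σ ∈ M.map P.subtype then 0 else 1 with hc
    have hmemM : ∀ (σ : Om ≃ₐ[K] Om) (hσ : σ ∈ iner K w),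
        q σ ∈ M.map P.subtype ↔ (⟨q σ, ⟨σ, hσ, rfl⟩⟩ : P) ∈ M := by
      intro σ hσ
      constructor
      · rintro ⟨x, hx, hx2⟩
        have : x = (⟨q σ, ⟨σ, hσ, rfl⟩⟩ : P) := Subtype.ext hx2
        rwa [← this]
      · intro hx
        exact ⟨_, hx, rfl⟩
    have hcadd : ∀ s ∈ iner K w, ∀ t ∈ iner K w, c (s * t) = c s + c t := by
      intro s hs t' ht'
      have h3 := Subgroup.mul_mem_iff_of_index_two hMi
        (a := (⟨q s, ⟨s, hs, rfl⟩⟩ : P)) (b := (⟨q t', ⟨t', ht', rfl⟩⟩ : P))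
      have h4 : (⟨q s, ⟨s, hs, rfl⟩⟩ : P) * (⟨q t', ⟨t', ht', rfl⟩⟩ : P) =
          ⟨q (s * t'), ⟨s * t', mul_mem hs ht', rfl⟩⟩ := Subtype.ext (map_mul q s t').symm
      rw [h4, ← hmemM s hs, ← hmemM t' ht', ← hmemM (s * t') (mul_mem hs ht')] at h3
      simp only [hc]
      by_cases h5 : q s ∈ M.map P.subtype <;> by_cases h6 : q t' ∈ M.map P.subtype
      · rw [if_pos (h3.2 (iff_of_true h5 h6)), if_pos h5, if_pos h6]; rfl
      · rw [if_neg (fun h7 => h6 ((h3.1 h7).1 h5)), if_pos h5, if_neg h6]; rfl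
      · rw [if_neg (fun h7 => h5 ((h3.1 h7).2 h6)), if_neg h5, if_pos h6]; rfl
      · rw [if_pos (h3.2 (iff_of_false h5 h6)), if_neg h5, if_neg h6]; rfl
    have hcfin : FinOn (iner K w) c := by
      obtain ⟨L, hL, hLN⟩ := exists_field_le hN
      refine ⟨L, hL, fun s _ t' _ hst => ?_⟩
      have h3 : s⁻¹ * t' ∈ N := by
        apply hLN
        rw [IntermediateField.mem_fixingSubgroup_iff]
        intro x hx
        change (s⁻¹ * t') x = x
        rw [AlgEquiv.mul_apply, ← hst x hx, ← AlgEquiv.mul_apply, inv_mul_cancel,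
          AlgEquiv.one_apply]
      have h4 : q s = q t' := by
        rw [hq, QuotientGroup.mk'_apply, QuotientGroup.mk'_apply, QuotientGroup.eq]
        exact h3
      simp only [hc, h4]
    have hcτ : c τ = 0 := by
      simp only [hc]
      rw [if_pos]
      rw [hmemM τ hτ.1]
      exact hM2 (Subgroup.mem_zpowers t)
    have hzero := hom_iner h hτ hcadd hcfin hcτ
    have hMtop : M = ⊤ := by
      rw [eq_top_iff]
      rintro ⟨g, hg⟩ -
      obtain ⟨σ, hσ, rfl⟩ := hg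
      have h5 := hzero σ hσ
      simp only [hc] at h5
      by_cases h6 : q σ ∈ M.map P.subtype
      · exact (hmemM σ hσ).1 h6
      · rw [if_neg h6] at h5
        exact absurd h5 one_ne_zero
    rw [hMtop, Subgroup.index_top] at hMi
    exact absurd hMi (by norm_num)
  intro σ hσ
  have h3 : (⟨q σ, ⟨σ, hσ, rfl⟩⟩ : P) ∈ H := by rw [hHtop]; trivial
  rw [hH, ← mem_powers_iff_mem_zpowers, Submonoid.mem_powers_iff] at h3
  obtain ⟨m, hm⟩ := h3
  refine ⟨m, ?_⟩
  have h4 : (q τ) ^ m = q σ := congrArg Subtype.val hm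
  rw [← map_pow] at h4
  exact QuotientGroup.eq.1 h4

/-- If the tame inertia element lies in `N` and the image of `iner` modulo `N` is a `2`-group then
`iner ≤ N`. -/
theorem iner_le_of_sg_mem [IsGalois K Om] [IsSepClosed Om] {w : ValuationSubring Om} {π : K}
    (h : LocHyp K w π) {τ : Om ≃ₐ[K] Om} (hτ : IsSg K w π τ) (N : Subgroup (Om ≃ₐ[K] Om))
    [hNn : N.Normal] (hN : IsOpen (N : Set (Om ≃ₐ[K] Om)))
    (h2 : ∀ σ ∈ iner K w, ∃ m : ℕ, σ ^ (2 ^ m) ∈ N) (hτN : τ ∈ N) : iner K w ≤ N := by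
  intro σ hσ
  obtain ⟨n, hn⟩ := iner_gen h hτ N hN h2 σ hσ
  have := N.mul_mem (N.pow_mem hτN n) hn
  rwa [mul_inv_cancel_left] at this

end Pool.Agent.Lib.SmD
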