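import Mathlib
import Pool.Agent.Lib.SmD.Defs
import Pool.Agent.Lib.SmD.Prim
import Pool.Agent.Lib.SmD.Basic
import Pool.Agent.Lib.SmD.Lift

/-!
# Project SMITH, block D, module LiftInt

The prime `primeL K L w` of the integral closure of the place below `w` in a subfield `L` of `Om`,
and the lifting of the inertia group of this prime (Mathlib `Ideal.inertia`) to `iner K w`.
-/

set_option autoImplicit false

open IsLocalRing

namespace Pool.Agent.Lib.SmD

variable (K : Type*) {Om : Type*} [Field K] [Field Om] [Algebra K Om]
variable (L : IntermediateField K Om)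

theorem mem_of_isIntegral_sub (w : ValuationSubring Om) (b : L) (hb : IsIntegral (below K w) b) :
    (b : Om) ∈ w := by
  refine mem_of_isIntegral K w _ ?_
  exact hb.map (IsScalarTower.toAlgHom (below K w) L Om)

/-- The prime ideal of the integral closure of the place below `w` in `L` cut out by `w`. -/
noncomputable def primeL (w : ValuationSubring Om) : Ideal (integralClosure (below K w) L) where
  carrier := {b | w.valuation ((b : L) : Om) < 1}
  zero_mem' := by simp
  add_mem' {a b} ha hb := by
    have : ((((a + b : integralClosure (below K w) L)) : L) : Om) = ((a : L) : Om) + ((b : L) : Om) := rfl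
    rw [Set.mem_ofPred_eq, this]
    exact lt_of_le_of_lt (w.valuation.map_add _ _) (max_lt ha hb)
  smul_mem' c {b} hb := by
    have h1 : (((c • b : integralClosure (below K w) L) : L) : Om) = ((c : L) : Om) * ((b : L) : Om) := rfl
    rw [Set.mem_ofPred_eq, h1, map_mul]
    have hc : w.valuation ((c : L) : Om) ≤ 1 := by
      rw [ValuationSubring.valuation_le_one_iff]
      exact mem_of_isIntegral_sub K L w c c.2
    calc w.valuation ((c : L) : Om) * w.valuation ((b : L) : Om)
        ≤ 1 * w.valuation ((b : L) : Om) := by gcongr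
      _ = w.valuation ((b : L) : Om) := one_mul _
      _ < 1 := hb

theorem mem_primeL {w : ValuationSubring Om} {b : integralClosure (below K w) L} :
    b ∈ primeL K L w ↔ w.valuation ((b : L) : Om) < 1 := Iff.rfl

theorem not_mem_primeL {w : ValuationSubring Om} {b : integralClosure (below K w) L} :
    b ∉ primeL K L w ↔ w.valuation ((b : L) : Om) = 1 := by
  rw [mem_primeL, not_lt]
  constructor
  · intro h
    refine le_antisymm ?_ h
    rw [ValuationSubring.valuation_le_one_iff]
    exact mem_of_isIntegral_sub K L w b b.2
  · intro h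
    rw [h]

instance primeL_isPrime (w : ValuationSubring Om) : (primeL K L w).IsPrime := by
  constructor
  · intro h
    have h1 : (1 : integralClosure (below K w) L) ∈ primeL K L w := by rw [h]; trivial
    rw [mem_primeL] at h1
    have : ((((1 : integralClosure (below K w) L)) : L) : Om) = 1 := rfl
    rw [this, map_one] at h1
    exact lt_irrefl _ h1
  · intro a b hab
    by_contra hcon
    push Not at hcon
    rw [not_mem_primeL, not_mem_primeL] at hcon
    rw [mem_primeL] at hab
    have h1 : (((a * b : integralClosure (below K w) L) : L) : Om) = ((a : L) : Om) * ((b : L) : Om) := rfl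
    rw [h1, map_mul, hcon.1, hcon.2, one_mul] at hab
    exact lt_irrefl _ hab

instance primeL_liesOver (w : ValuationSubring Om) :
    (primeL K L w).LiesOver (maximalIdeal (below K w)) := by
  constructor
  ext a
  rw [Ideal.mem_comap, mem_primeL, ← ValuationSubring.coe_mem_nonunits_iff,
    ValuationSubring.mem_nonunits_iff_or]
  have h1 : (((algebraMap (below K w) (integralClosure (below K w) L) a : L)) : Om) =
      algebraMap K Om (a : K) := rfl
  rw [h1, ← ValuationSubring.mem_nonunits_iff, ValuationSubring.mem_nonunits_iff_or,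
    map_eq_zero_iff _ (algebraMap K Om).injective, ← map_inv₀]
  rfl

/-- If `τ` moves integral elements of `L` only modulo the maximal ideal of `w`, it lies in the
inertia group of the place `onM K L w` of `L`. -/
theorem mem_iner_of_integral [Algebra.IsAlgebraic K L] {w : ValuationSubring Om} {τ : L ≃ₐ[K] L}
    (h : ∀ b : L, IsIntegral (below K w) b → w.valuation ((τ b : Om) - (b : Om)) < 1) :
    τ ∈ iner K (onM K L w) := by
  have key : ∀ x : L, (x : Om) ∈ w → (τ x : Om) ∈ w ∧ w.valuation ((τ x : Om) - (x : Om)) < 1 := by
    intro x hx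
    have halg : IsAlgebraic K (x : Om) := (Algebra.IsAlgebraic.isAlgebraic (R := K) x).algebraMap
    obtain ⟨y, z, hy, hz, hxy, hy1, hyK, hzK⟩ := prufer K w hx halg
    have hle : IntermediateField.adjoin K {(x : Om)} ≤ L := by
      rw [IntermediateField.adjoin_le_iff]
      rintro _ rfl
      exact x.2
    set y' : L := ⟨y, hle hyK⟩ with hy'
    set z' : L := ⟨z, hle hzK⟩ with hz'
    have hyi : IsIntegral (below K w) y' := by
      refine (isIntegral_algHom_iff (IsScalarTower.toAlgHom (below K w) L Om)
        (algebraMap L Om).injective).1 ?_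
      exact hy
    have hzi : IsIntegral (below K w) z' := by
      refine (isIntegral_algHom_iff (IsScalarTower.toAlgHom (below K w) L Om)
        (algebraMap L Om).injective).1 ?_
      exact hz
    have hxy' : x * y' = z' := Subtype.ext hxy
    have hτxy : (τ x : Om) * (τ y' : Om) = (τ z' : Om) := by
      have := congrArg (fun t : L => ((τ t : L) : Om)) hxy'
      simpa using this
    have hdy := h y' hyi
    have hdz := h z' hzi
    have hyO : ((y' : L) : Om) = y := rfl
    have hzO : ((z' : L) : Om) = z := rfl
    have hτy1 : w.valuation (τ y' : Om) = 1 := by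
      have h1 : (τ y' : Om) = y + ((τ y' : Om) - (y' : Om)) := by rw [hyO]; ring
      rw [h1, Valuation.map_add_eq_of_lt_left _ (by rw [hy1]; exact hdy), hy1]
    have hτy0 : (τ y' : Om) ≠ 0 := by
      intro h0; rw [h0, map_zero] at hτy1; exact zero_ne_one hτy1
    have hzw : w.valuation z ≤ 1 := by
      rw [ValuationSubring.valuation_le_one_iff]; exact mem_of_isIntegral K w z hz
    have hτz : w.valuation (τ z' : Om) ≤ 1 := by
      have h1 : (τ z' : Om) = z + ((τ z' : Om) - (z' : Om)) := by rw [hzO]; ring
      rw [h1]
      exact le_trans (w.valuation.map_add _ _) (max_le hzw hdz.le)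
    have hval : w.valuation (τ x : Om) = w.valuation (τ z' : Om) := by
      rw [← hτxy, map_mul, hτy1, mul_one]
    refine ⟨?_, ?_⟩
    · rw [← ValuationSubring.valuation_le_one_iff, hval]; exact hτz
    · have h1 : ((τ x : Om) - x) * (τ y' : Om) * y =
          ((τ z' : Om) - z) * y - z * ((τ y' : Om) - y) := by
        linear_combination y * hτxy - (τ y' : Om) * hxy
      have h2 : w.valuation (((τ x : Om) - x) * (τ y' : Om) * y) =
          w.valuation ((τ x : Om) - x) := by
        rw [map_mul, map_mul, hτy1, hy1, mul_one, mul_one]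
      rw [← h2, h1]
      refine lt_of_le_of_lt (w.valuation.map_sub _ _) (max_lt ?_ ?_)
      · rw [map_mul, hy1, mul_one]; exact hdz
      · rw [map_mul]
        calc w.valuation z * w.valuation ((τ y' : Om) - y)
            ≤ 1 * w.valuation ((τ y' : Om) - y) := by gcongr
          _ = w.valuation ((τ y' : Om) - y) := one_mul _
          _ < 1 := hdy
  rw [mem_iner]
  refine ⟨mem_dec_of_le fun x hx => (key x hx).1, fun x hx => ?_⟩
  rw [onM_val_lt]
  exact (key x hx).2

/-- Every element of the inertia group (Mathlib) of `primeL K L w` lifts to `iner K w`. -/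
theorem lift_inertia [IsGalois K Om] {w : ValuationSubring Om} {τ : L ≃ₐ[K] L}
    (h : ∀ b : L, IsIntegral (below K w) b → w.valuation ((τ b : Om) - (b : Om)) < 1) :
    ∃ σ ∈ iner K w, ∀ x : L, (τ x : Om) = σ x :=
  lift_iner K L w (mem_iner_of_integral K L h)

/-- Every element of the inertia group (Mathlib `Ideal.inertia`) of `primeL K L w` lifts to
`iner K w`. -/
theorem lift_inertia' [IsGalois K Om] {w : ValuationSubring Om} {τ : L ≃ₐ[K] L}
    (h : τ ∈ Ideal.inertia (L ≃ₐ[K] L) (primeL K L w)) :
    ∃ σ ∈ iner K w, ∀ x : L, (τ x : Om) = σ x :=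
  lift_inertia K L fun b hb => h ⟨b, hb⟩

/-- An element of `L` fixed by `iner K w` is fixed by the inertia group of `primeL K L w`. -/
theorem fixed_inertia [IsGalois K Om] {w : ValuationSubring Om} {x : L}
    (hx : ∀ σ ∈ iner K w, σ (x : Om) = x) :
    ∀ τ ∈ Ideal.inertia (L ≃ₐ[K] L) (primeL K L w), τ x = x := by
  intro τ hτ
  obtain ⟨σ, hσ, h1⟩ := lift_inertia' K L hτ
  apply Subtype.ext
  rw [h1 x]
  exact hx σ hσ

end Pool.Agent.Lib.SmD
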